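import Mathlib

/-! Averages over finite types and weighted Euclidean norms. -/

namespace Pool.Agent.Lib.MP_caca3f_an.Sharp

open Finset

section av

variable {α β : Type*} [Fintype α] [Fintype β]

/-- average over a finite type -/
noncomputable def av (f : α → ℝ) : ℝ := (∑ a, f a) / (Fintype.card α : ℝ)

theorem av_nonneg {f : α → ℝ} (h : ∀ a, 0 ≤ f a) : 0 ≤ av f :=
  div_nonneg (Finset.sum_nonneg fun a _ => h a) (Nat.cast_nonneg _)

theorem av_mono {f g : α → ℝ} (h : ∀ a, f a ≤ g a) : av f ≤ av g :=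
  div_le_div_of_nonneg_right (Finset.sum_le_sum fun a _ => h a) (Nat.cast_nonneg _)

theorem av_const [Nonempty α] (c : ℝ) : av (fun _ : α => c) = c := by
  unfold av
  rw [Finset.sum_const, Finset.card_univ, nsmul_eq_mul]
  have : (Fintype.card α : ℝ) ≠ 0 := by exact_mod_cast Fintype.card_ne_zero
  field_simp

theorem av_le_const [Nonempty α] {f : α → ℝ} {c : ℝ} (h : ∀ a, f a ≤ c) : av f ≤ c :=
  (av_mono h).trans (av_const c).le

theorem av_add (f g : α → ℝ) : av (fun a => f a + g a) = av f + av g := by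
  unfold av; rw [Finset.sum_add_distrib, add_div]

theorem av_mul_left (c : ℝ) (f : α → ℝ) : av (fun a => c * f a) = c * av f := by
  unfold av; rw [← Finset.mul_sum, mul_div_assoc]

theorem av_sum {ι : Type*} (s : Finset ι) (f : ι → α → ℝ) :
    av (fun a => ∑ i ∈ s, f i a) = ∑ i ∈ s, av (f i) := by
  unfold av; rw [Finset.sum_comm, Finset.sum_div]

theorem av_comp_equiv (e : α ≃ β) (f : β → ℝ) : av (fun a => f (e a)) = av f := by
  unfold av; rw [Equiv.sum_comp e f, Fintype.card_congr e]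

theorem av_prod (f : α × β → ℝ) : av f = av fun a => av fun b => f (a, b) := by
  unfold av
  rw [Fintype.sum_prod_type, Fintype.card_prod, ← Finset.sum_div, div_div, Nat.cast_mul, mul_comm]

theorem av_comm (f : α → β → ℝ) :
    av (fun a => av fun b => f a b) = av fun b => av fun a => f a b := by
  unfold av
  rw [← Finset.sum_div, ← Finset.sum_div, Finset.sum_comm, div_div, div_div, mul_comm]

theorem av_update {ι S : Type*} [Fintype ι] [DecidableEq ι] [Fintype S] [Nonempty S] (i : ι)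
    (f : (ι → S) → ℝ) :
    av (fun u : ι → S => av fun v : S => f (Function.update u i v)) = av f := by
  set e : ((ι → S) × S) ≃ ((ι → S) × S) :=
    { toFun := fun p => (Function.update p.1 i p.2, p.1 i)
      invFun := fun p => (Function.update p.1 i p.2, p.1 i)
      left_inv := by rintro ⟨u, v⟩; simp
      right_inv := by rintro ⟨u, v⟩; simp } with he
  have h1 : av (fun u : ι → S => av fun v : S => f (Function.update u i v))
      = av (fun p : (ι → S) × S => f (e p).1) := by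
    rw [av_prod]; rfl
  rw [h1, av_comp_equiv e (fun p => f p.1), av_prod]
  have : ∀ a : ι → S, (av fun _ : S => f a) = f a := fun a => av_const _
  simp only [this]

theorem av_eval {ι S : Type*} [Fintype ι] [DecidableEq ι] [Fintype S] [Nonempty S] (i : ι)
    (f : S → ℝ) : av (fun u : ι → S => f (u i)) = av f := by
  rw [← av_update i (fun u : ι → S => f (u i))]
  simp only [Function.update_self]
  exact av_const _

end av

section nw

variable {α : Type*} [Fintype α]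

/-- weighted Euclidean norm -/
noncomputable def nw (w : ℝ) (f : α → ℝ) : ℝ := √(w * ∑ a, f a ^ 2)

theorem nw_nonneg (w : ℝ) (f : α → ℝ) : 0 ≤ nw w f := Real.sqrt_nonneg _

theorem nw_sq {w : ℝ} (hw : 0 ≤ w) (f : α → ℝ) : nw w f ^ 2 = w * ∑ a, f a ^ 2 :=
  Real.sq_sqrt (mul_nonneg hw (Finset.sum_nonneg fun a _ => sq_nonneg _))

theorem nw_le_of_sq {w : ℝ} {f : α → ℝ} {x : ℝ} (hx : 0 ≤ x)
    (h : w * ∑ a, f a ^ 2 ≤ x ^ 2) : nw w f ≤ x :=
  Real.sqrt_le_iff.mpr ⟨hx, h⟩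

theorem nw_add {w : ℝ} (hw : 0 ≤ w) (f g : α → ℝ) :
    nw w (fun a => f a + g a) ≤ nw w f + nw w g := by
  apply nw_le_of_sq (add_nonneg (nw_nonneg _ _) (nw_nonneg _ _))
  have hcs : (∑ a, f a * g a) ^ 2 ≤ (∑ a, f a ^ 2) * ∑ a, g a ^ 2 :=
    Finset.sum_mul_sq_le_sq_mul_sq _ _ _
  have h1 : w * ∑ a, (f a + g a) ^ 2
      = w * ∑ a, f a ^ 2 + 2 * (w * ∑ a, f a * g a) + w * ∑ a, g a ^ 2 := by
    have : ∀ a, (f a + g a) ^ 2 = f a ^ 2 + 2 * (f a * g a) + g a ^ 2 := fun a => by ring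
    simp only [this, Finset.sum_add_distrib, ← Finset.mul_sum]; ring
  have h2 : w * ∑ a, f a * g a ≤ nw w f * nw w g := by
    apply le_of_sq_le_sq _ (mul_nonneg (nw_nonneg _ _) (nw_nonneg _ _))
    rw [mul_pow, mul_pow, nw_sq hw, nw_sq hw]
    have : w * ∑ a, f a ^ 2 * (w * ∑ a, g a ^ 2) = w * ∑ a, f a ^ 2 * (w * ∑ a, g a ^ 2) := rfl
    nlinarith [mul_le_mul_of_nonneg_left hcs (sq_nonneg w)]
  rw [h1, add_sq, nw_sq hw, nw_sq hw]
  linarith

theorem nw_mono {w : ℝ} (hw : 0 ≤ w) {f g : α → ℝ} (h : ∀ a, |f a| ≤ g a) :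
    nw w f ≤ nw w g := by
  apply Real.sqrt_le_sqrt
  apply mul_le_mul_of_nonneg_left _ hw
  apply Finset.sum_le_sum; intro a _
  rw [← sq_abs (f a)]
  exact pow_le_pow_left₀ (abs_nonneg _) (h a) 2

theorem nw_tri {w : ℝ} (hw : 0 ≤ w) {f g h : α → ℝ} (H : ∀ a, |f a| ≤ g a + h a) :
    nw w f ≤ nw w g + nw w h :=
  (nw_mono hw H).trans (nw_add hw g h)

theorem nw_tri3 {w : ℝ} (hw : 0 ≤ w) {f g h k : α → ℝ} (H : ∀ a, |f a| ≤ g a + h a + k a) :
    nw w f ≤ nw w g + nw w h + nw w k :=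
  (nw_tri hw (g := fun a => g a + h a) (h := k) H).trans
    (add_le_add (nw_add hw g h) le_rfl)

theorem nw_smul {w : ℝ} {c : ℝ} (hc : 0 ≤ c) (f : α → ℝ) :
    nw w (fun a => c * f a) = c * nw w f := by
  unfold nw
  have : w * ∑ a, (c * f a) ^ 2 = c ^ 2 * (w * ∑ a, f a ^ 2) := by
    simp only [mul_pow, ← Finset.mul_sum]; ring
  rw [this, Real.sqrt_mul (sq_nonneg c), Real.sqrt_sq hc]

theorem nw_const {w : ℝ} {c : ℝ} (hc : 0 ≤ c) :
    nw w (fun _ : α => c) = √(w * Fintype.card α) * c := by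
  unfold nw
  rw [Finset.sum_const, Finset.card_univ, nsmul_eq_mul]
  have : w * ((Fintype.card α : ℝ) * c ^ 2) = (w * Fintype.card α) * c ^ 2 := by ring
  rw [this, Real.sqrt_mul' _ (sq_nonneg c), Real.sqrt_sq hc]

theorem nw_le_const {w : ℝ} (hw : 0 ≤ w) {f : α → ℝ} {c : ℝ} (hc : 0 ≤ c) (h : ∀ a, |f a| ≤ c) :
    nw w f ≤ √(w * Fintype.card α) * c :=
  (nw_mono hw (g := fun _ => c) h).trans (nw_const hc).le

theorem nw_weight {w : ℝ} (hw : 0 ≤ w) (v : ℝ) (f : α → ℝ) :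
    nw (w * v) f = √w * nw v f := by
  unfold nw
  rw [mul_assoc, Real.sqrt_mul hw]

end nw

section N2

variable {α : Type*} [Fintype α]

/-- the normalised Euclidean norm -/
noncomputable def N2 (f : α → ℝ) : ℝ := nw (1 / (Fintype.card α : ℝ)) f

theorem N2_nonneg (f : α → ℝ) : 0 ≤ N2 f := nw_nonneg _ _

theorem card_w (α : Type*) [Fintype α] : 0 ≤ 1 / (Fintype.card α : ℝ) := by positivity

theorem N2_sq (f : α → ℝ) : N2 f ^ 2 = av fun a => f a ^ 2 := by
  unfold N2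
  rw [nw_sq (card_w α)]
  unfold av; ring

theorem N2_eq (f : α → ℝ) : N2 f = √(av fun a => f a ^ 2) := by
  rw [← N2_sq, Real.sqrt_sq (N2_nonneg f)]

theorem N2_tri {f g h : α → ℝ} (H : ∀ a, |f a| ≤ g a + h a) : N2 f ≤ N2 g + N2 h :=
  nw_tri (card_w α) H

theorem N2_tri3 {f g h k : α → ℝ} (H : ∀ a, |f a| ≤ g a + h a + k a) :
    N2 f ≤ N2 g + N2 h + N2 k :=
  nw_tri3 (card_w α) H

theorem N2_mono {f g : α → ℝ} (H : ∀ a, |f a| ≤ g a) : N2 f ≤ N2 g := nw_mono (card_w α) H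

theorem N2_const [Nonempty α] {c : ℝ} (hc : 0 ≤ c) : N2 (fun _ : α => c) = c := by
  rw [N2_eq, av_const, Real.sqrt_sq hc]

theorem N2_le_const [Nonempty α] {f : α → ℝ} {c : ℝ} (hc : 0 ≤ c) (h : ∀ a, |f a| ≤ c) :
    N2 f ≤ c := (N2_mono h).trans (N2_const hc).le

theorem N2_smul {c : ℝ} (hc : 0 ≤ c) (f : α → ℝ) : N2 (fun a => c * f a) = c * N2 f :=
  nw_smul hc f

theorem N2_comp_equiv {β : Type*} [Fintype β] (e : α ≃ β) (f : β → ℝ) :
    N2 (fun a => f (e a)) = N2 f := by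
  rw [N2_eq, N2_eq, av_comp_equiv e (fun b => f b ^ 2)]

theorem N2_le_of_sq {f : α → ℝ} {x : ℝ} (hx : 0 ≤ x) (h : av (fun a => f a ^ 2) ≤ x ^ 2) :
    N2 f ≤ x := by
  rw [N2_eq]; exact Real.sqrt_le_iff.mpr ⟨hx, h⟩

end N2

theorem N2_eq_zero {α : Type*} [Fintype α] [Nonempty α] {f : α → ℝ} (h : N2 f = 0) (a : α) :
    f a = 0 := by
  have h1 := N2_sq f
  rw [h] at h1
  unfold av at h1
  have hc : (0:ℝ) < Fintype.card α := by exact_mod_cast Fintype.card_pos
  have h2 : ∑ a, f a ^ 2 = 0 := by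
    have : (∑ a, f a ^ 2) / (Fintype.card α : ℝ) = 0 := by rw [← h1]; ring
    rwa [div_eq_zero_iff, or_iff_left hc.ne'] at this
  have h3 := (Finset.sum_eq_zero_iff_of_nonneg (fun a _ => sq_nonneg (f a))).mp h2 a
    (Finset.mem_univ a)
  exact pow_eq_zero_iff (two_ne_zero) |>.mp h3


theorem nw_single_le {α : Type*} [Fintype α] (f : α → ℝ) (a : α) : |f a| ≤ nw 1 f := by
  apply abs_le_of_sq_le_sq _ (nw_nonneg _ _)
  rw [nw_sq zero_le_one, one_mul]
  exact Finset.single_le_sum (f := fun a => f a ^ 2) (fun y _ => sq_nonneg _) (Finset.mem_univ a)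

theorem nw_supp {α : Type*} [Fintype α] (f : α → ℝ) (a : α) (h : ∀ b, b ≠ a → f b = 0) :
    nw 1 f = |f a| := by
  unfold nw
  rw [one_mul, Finset.sum_eq_single a, Real.sqrt_sq_eq_abs]
  · intro b _ hb; rw [h b hb]; simp
  · intro h; exact absurd (Finset.mem_univ _) h


end Pool.Agent.Lib.MP_caca3f_an.Sharp
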