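import Mathlib

/-! The largest pseudometric below a family of functions. -/

namespace Pool.Agent.Lib.MP_caca3f_an.Sharp

section pm

variable {P I : Type}

/-- functions which are Lipschitz for all members of a family -/
def LipAll (q : I → P → P → ℝ) (Φ : P → ℝ) : Prop := ∀ i s t, |Φ s - Φ t| ≤ q i s t

/-- the largest pseudometric below all members of a family -/
noncomputable def pm (q : I → P → P → ℝ) (s t : P) : ℝ :=
  ⨆ Φ : {Φ : P → ℝ // LipAll q Φ}, |Φ.1 s - Φ.1 t|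

variable {q : I → P → P → ℝ}

theorem pm_nonneg (s t : P) : 0 ≤ pm q s t := Real.iSup_nonneg fun _ => abs_nonneg _

theorem pm_le (h0 : ∀ i s t, 0 ≤ q i s t) (i : I) (s t : P) : pm q s t ≤ q i s t :=
  Real.iSup_le (fun Φ => Φ.2 i s t) (h0 i s t)

theorem le_pm (i : I) {Φ : P → ℝ} (hΦ : LipAll q Φ) (s t : P) : |Φ s - Φ t| ≤ pm q s t :=
  le_ciSup (f := fun Φ : {Φ : P → ℝ // LipAll q Φ} => |Φ.1 s - Φ.1 t|)
    ⟨q i s t, by rintro _ ⟨Φ, rfl⟩; exact Φ.2 i s t⟩ ⟨Φ, hΦ⟩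

theorem pm_self (s : P) : pm q s s = 0 := by
  unfold pm
  simp

theorem pm_symm (s t : P) : pm q s t = pm q t s := by
  unfold pm
  congr 1; ext Φ
  exact abs_sub_comm _ _

theorem pm_tri (i : I) (s t u : P) : pm q s u ≤ pm q s t + pm q t u := by
  apply Real.iSup_le _ (add_nonneg (pm_nonneg _ _) (pm_nonneg _ _))
  intro Φ
  refine (abs_sub_le (Φ.1 s) (Φ.1 t) (Φ.1 u)).trans (add_le_add ?_ ?_)
  · exact le_pm i Φ.2 s t
  · exact le_pm i Φ.2 t u

end pm

end Pool.Agent.Lib.MP_caca3f_an.Sharp
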