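import Pool.Agent.Lib.MP_caca3f_an.Sharp.Av

/-! Resampling and vector averages. -/

namespace Pool.Agent.Lib.MP_caca3f_an.Sharp

open Finset

set_option linter.unusedSectionVars false

/-- replace the values on `T` -/
def mix {Y G : Type} [DecidableEq Y] (T : Finset Y) (g g' : Y → G) : Y → G :=
  fun z => if z ∈ T then g' z else g z

theorem mix_mix_self {Y G : Type} [DecidableEq Y] (T : Finset Y) (g g' : Y → G) :
    mix T (mix T g g') (mix T g' g) = g := by
  ext z; by_cases h : z ∈ T <;> simp [mix, h]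

/-- exchange of the values on `T` -/
def swapE {Y G : Type} [DecidableEq Y] (T : Finset Y) :
    ((Y → G) × (Y → G)) ≃ ((Y → G) × (Y → G)) where
  toFun p := (mix T p.1 p.2, mix T p.2 p.1)
  invFun p := (mix T p.1 p.2, mix T p.2 p.1)
  left_inv := by rintro ⟨g, g'⟩; simp [mix_mix_self]
  right_inv := by rintro ⟨g, g'⟩; simp [mix_mix_self]

theorem short_diag {K : Type} [NormedAddCommGroup K] [InnerProductSpace ℝ K] (a b c d : K) :
    ‖a - c‖ ^ 2 + ‖b - d‖ ^ 2 ≤ ‖a - b‖ ^ 2 + ‖b - c‖ ^ 2 + ‖c - d‖ ^ 2 + ‖a - d‖ ^ 2 := by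
  have h : 0 ≤ ‖(a + c) - (b + d)‖ ^ 2 := sq_nonneg _
  have e1 := @norm_sub_sq_real K _ _ a c
  have e2 := @norm_sub_sq_real K _ _ b d
  have e3 := @norm_sub_sq_real K _ _ a b
  have e4 := @norm_sub_sq_real K _ _ b c
  have e5 := @norm_sub_sq_real K _ _ c d
  have e6 := @norm_sub_sq_real K _ _ a d
  have e7 := @norm_sub_sq_real K _ _ (a + c) (b + d)
  have e8 := @norm_add_sq_real K _ _ a c
  have e9 := @norm_add_sq_real K _ _ b d
  rw [inner_add_left, inner_add_right, inner_add_right, real_inner_comm b c] at e7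
  rw [e1, e2, e3, e4, e5, e6]
  rw [e7, e8, e9] at h
  linarith

section tower

variable {Y G U : Type} [Fintype Y] [DecidableEq Y] [Fintype G] [Fintype U]
variable {K : Type} [NormedAddCommGroup K] [InnerProductSpace ℝ K]

/-- size of the effect of resampling the values on `T` -/
noncomputable def RT (F : U → (Y → G) → K) (T : Finset Y) : ℝ :=
  N2 (fun ω : U × (Y → G) × (Y → G) => ‖F ω.1 ω.2.1 - F ω.1 (mix T ω.2.1 ω.2.2)‖)

theorem RT_nonneg (F : U → (Y → G) → K) (T : Finset Y) : 0 ≤ RT F T := N2_nonneg _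

/-- the exchange equivalence on triples -/
def swapU (T : Finset Y) : (U × (Y → G) × (Y → G)) ≃ (U × (Y → G) × (Y → G)) :=
  Equiv.prodCongr (Equiv.refl U) (swapE T)

theorem RT_union (F : U → (Y → G) → K) (T T' : Finset Y) (hd : Disjoint T T') :
    RT F (T ∪ T') ^ 2 ≤ RT F T ^ 2 + RT F T' ^ 2 := by
  set Z : Finset Y → (U × (Y → G) × (Y → G)) → ℝ :=
    fun X ω => ‖F ω.1 ω.2.1 - F ω.1 (mix X ω.2.1 ω.2.2)‖ ^ 2 with hZ
  have hR : ∀ X, RT F X ^ 2 = av (Z X) := fun X => by unfold RT; rw [N2_sq]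
  rw [hR, hR, hR]
  have hnot : ∀ z, z ∈ T → z ∉ T' := fun z h h' => Finset.disjoint_left.mp hd h h'
  have e1 : av (fun ω : U × (Y → G) × (Y → G) =>
      ‖F ω.1 (mix T ω.2.1 ω.2.2) - F ω.1 (mix T' ω.2.1 ω.2.2)‖ ^ 2) = av (Z (T ∪ T')) := by
    rw [← av_comp_equiv (swapU T) (Z (T ∪ T'))]
    congr 1; ext ⟨u, g, g'⟩
    have : mix (T ∪ T') (mix T g g') (mix T g' g) = mix T' g g' := by
      ext z
      by_cases h : z ∈ T
      · simp [mix, h, hnot z h]
      · by_cases h' : z ∈ T' <;> simp [mix, h, h']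
    simp only [hZ, swapU, swapE, Equiv.prodCongr_apply, Prod.map, Equiv.refl_apply,
      Equiv.coe_fn_mk, this]
  have e2 : av (fun ω : U × (Y → G) × (Y → G) =>
      ‖F ω.1 (mix T ω.2.1 ω.2.2) - F ω.1 (mix (T ∪ T') ω.2.1 ω.2.2)‖ ^ 2) = av (Z T') := by
    rw [← av_comp_equiv (swapU T) (Z T')]
    congr 1; ext ⟨u, g, g'⟩
    have : mix T' (mix T g g') (mix T g' g) = mix (T ∪ T') g g' := by
      ext z
      by_cases h : z ∈ T
      · simp [mix, h, hnot z h]
      · by_cases h' : z ∈ T' <;> simp [mix, h, h']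
    simp only [hZ, swapU, swapE, Equiv.prodCongr_apply, Prod.map, Equiv.refl_apply,
      Equiv.coe_fn_mk, this]
  have e3 : av (fun ω : U × (Y → G) × (Y → G) =>
      ‖F ω.1 (mix (T ∪ T') ω.2.1 ω.2.2) - F ω.1 (mix T' ω.2.1 ω.2.2)‖ ^ 2) = av (Z T) := by
    rw [← av_comp_equiv (swapU T') (Z T)]
    congr 1; ext ⟨u, g, g'⟩
    have : mix T (mix T' g g') (mix T' g' g) = mix (T ∪ T') g g' := by
      ext z
      by_cases h : z ∈ T
      · simp [mix, h, hnot z h]
      · by_cases h' : z ∈ T' <;> simp [mix, h, h']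
    simp only [hZ, swapU, swapE, Equiv.prodCongr_apply, Prod.map, Equiv.refl_apply,
      Equiv.coe_fn_mk, this, norm_sub_rev]
  have hpt : av (fun ω : U × (Y → G) × (Y → G) =>
      Z (T ∪ T') ω + ‖F ω.1 (mix T ω.2.1 ω.2.2) - F ω.1 (mix T' ω.2.1 ω.2.2)‖ ^ 2)
      ≤ av (fun ω : U × (Y → G) × (Y → G) =>
        ((Z T ω + ‖F ω.1 (mix T ω.2.1 ω.2.2) - F ω.1 (mix (T ∪ T') ω.2.1 ω.2.2)‖ ^ 2)
        + ‖F ω.1 (mix (T ∪ T') ω.2.1 ω.2.2) - F ω.1 (mix T' ω.2.1 ω.2.2)‖ ^ 2) + Z T' ω) := by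
    apply av_mono; rintro ⟨u, g, g'⟩
    exact short_diag _ _ _ _
  rw [av_add, av_add, av_add, av_add, e1, e2, e3] at hpt
  linarith


end tower

section vm

variable {α K : Type} [Fintype α] [NormedAddCommGroup K] [InnerProductSpace ℝ K]

/-- vector average -/
noncomputable def vm (x : α → K) : K := (1 / (Fintype.card α : ℝ)) • ∑ a, x a

theorem av_inner_right (x : α → K) (y : K) : av (fun a => inner ℝ y (x a)) = inner ℝ y (vm x) := by
  unfold av vm
  rw [real_inner_smul_right, inner_sum]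
  ring

theorem av_inner_left (x : α → K) (y : K) : av (fun a => inner ℝ (x a) y) = inner ℝ (vm x) y := by
  unfold av vm
  rw [real_inner_smul_left, sum_inner]
  ring

theorem av_sub (f g : α → ℝ) : av (fun a => f a - g a) = av f - av g := by
  unfold av; rw [Finset.sum_sub_distrib, sub_div]

theorem two_var_eq [Nonempty α] (x : α → K) :
    2 * av (fun a => ‖x a - vm x‖ ^ 2) = av (fun a => av fun b => ‖x a - x b‖ ^ 2) := by
  have h1 : av (fun a => ‖x a - vm x‖ ^ 2) = av (fun a => ‖x a‖ ^ 2) - ‖vm x‖ ^ 2 := by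
    have : ∀ a, ‖x a - vm x‖ ^ 2 = (‖x a‖ ^ 2 + ‖vm x‖ ^ 2) - 2 * inner ℝ (x a) (vm x) := by
      intro a; rw [@norm_sub_sq_real]; ring
    simp only [this]
    rw [av_sub, av_add, av_const, av_mul_left, av_inner_left, real_inner_self_eq_norm_sq]
    ring
  have h2 : ∀ a, av (fun b => ‖x a - x b‖ ^ 2)
      = ‖x a‖ ^ 2 + av (fun b => ‖x b‖ ^ 2) - 2 * inner ℝ (x a) (vm x) := by
    intro a
    have : ∀ b, ‖x a - x b‖ ^ 2 = (‖x a‖ ^ 2 + ‖x b‖ ^ 2) - 2 * inner ℝ (x a) (x b) := by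
      intro b; rw [@norm_sub_sq_real]; ring
    simp only [this]
    rw [av_sub, av_add, av_const, av_mul_left, av_inner_right]
  simp only [h2]
  rw [av_sub, av_add, av_const, av_mul_left, av_inner_left, real_inner_self_eq_norm_sq, h1]
  ring

theorem av_inner_nonneg (x : α → K) : 0 ≤ av (fun a => av fun b => inner ℝ (x a) (x b)) := by
  have : ∀ a, av (fun b => inner ℝ (x a) (x b)) = inner ℝ (x a) (vm x) := fun a =>
    av_inner_right x (x a)
  simp only [this]
  rw [av_inner_left]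
  exact real_inner_self_nonneg

end vm

section R2

variable {Z S K : Type} [Fintype Z] [DecidableEq Z] [Fintype S] [Nonempty S]
  [NormedAddCommGroup K] [InnerProductSpace ℝ K]

/-- size of the effect of resampling the values on `T` -/
noncomputable def R2 (G : (Z → S) → K) (T : Finset Z) : ℝ :=
  av fun f => av fun f' => ‖G f - G (mix T f f')‖ ^ 2

theorem R2_eq (G : (Z → S) → K) (T : Finset Z) :
    R2 G T = RT (U := Unit) (fun _ => G) T ^ 2 := by
  unfold RT R2
  rw [N2_sq, av_prod]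
  simp only [av_prod (α := Z → S)]
  rw [av_const]

theorem R2_union (G : (Z → S) → K) (T T' : Finset Z) (hd : Disjoint T T') :
    R2 G (T ∪ T') ≤ R2 G T + R2 G T' := by
  rw [R2_eq, R2_eq, R2_eq]
  exact RT_union _ _ _ hd

theorem R2_empty (G : (Z → S) → K) : R2 G ∅ = 0 := by
  unfold R2
  have : ∀ f f' : Z → S, mix ∅ f f' = f := by
    intro f f'; ext z; simp [mix]
  simp only [this, sub_self, norm_zero]
  rw [zero_pow two_ne_zero]
  rw [av_const, av_const]

theorem R2_univ (G : (Z → S) → K) :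
    R2 G Finset.univ = av fun f => av fun f' => ‖G f - G f'‖ ^ 2 := by
  unfold R2
  have : ∀ f f' : Z → S, mix Finset.univ f f' = f' := by
    intro f f'; ext z; simp [mix]
  simp only [this]

theorem R2_biUnion {ι : Type} [DecidableEq ι] (G : (Z → S) → K) (V : Finset ι) (T : ι → Finset Z)
    (hd : ∀ i j, i ≠ j → Disjoint (T i) (T j)) :
    R2 G (V.biUnion T) ≤ ∑ i ∈ V, R2 G (T i) := by
  induction V using Finset.induction_on with
  | empty => simp [R2_empty]
  | insert i V hi ih =>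
    rw [Finset.biUnion_insert, Finset.sum_insert hi]
    refine (R2_union G _ _ ?_).trans (by linarith)
    rw [Finset.disjoint_biUnion_right]
    intro j hj
    exact hd i j (fun h => hi (h ▸ hj))

theorem av_mix_left (T : Finset Z) (χ : (Z → S) → ℝ) :
    av (fun f => av fun f' => χ (mix T f f')) = av χ := by
  have h1 : av (fun f : Z → S => av fun f' : Z → S => χ (mix T f f'))
      = av (fun p : (Z → S) × (Z → S) => χ (swapE T p).1) := by
    rw [av_prod]; rfl
  rw [h1, av_comp_equiv (swapE T) (fun p => χ p.1), av_prod]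
  have : ∀ a : Z → S, (av fun _ : Z → S => χ a) = χ a := fun a => av_const _
  simp only [this]

theorem mix_mix (T : Finset Z) (f g g' : Z → S) : mix T (mix T f g) g' = mix T f g' := by
  ext z; by_cases h : z ∈ T <;> simp [mix, h]

theorem R2_le_var (G : (Z → S) → K) (T : Finset Z) : R2 G T ≤ 2 * av fun f => ‖G f‖ ^ 2 := by
  have h1 : ∀ f f' : Z → S, ‖G f - G (mix T f f')‖ ^ 2
      = (‖G f‖ ^ 2 + ‖G (mix T f f')‖ ^ 2) - 2 * inner ℝ (G f) (G (mix T f f')) := by
    intro f f'; rw [@norm_sub_sq_real]; ring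
  have h2 : R2 G T = av (fun f => ‖G f‖ ^ 2) + av (fun f => ‖G f‖ ^ 2)
      - 2 * av (fun f => av fun f' => inner ℝ (G f) (G (mix T f f'))) := by
    unfold R2
    simp only [h1, av_sub, av_add, av_const, av_mul_left]
    rw [av_mix_left T (fun f => ‖G f‖ ^ 2)]
  have h3 : 0 ≤ av (fun f => av fun f' => inner ℝ (G f) (G (mix T f f'))) := by
    have h4 : av (fun f => av fun f' => inner ℝ (G f) (G (mix T f f')))
        = av (fun h : Z → S => av fun g : Z → S => av fun g' : Z → S =>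
          inner ℝ (G (mix T h g)) (G (mix T h g'))) := by
      rw [← av_mix_left T (fun f => av fun f' => inner ℝ (G f) (G (mix T f f')))]
      simp only [mix_mix]
    rw [h4]
    apply av_nonneg
    intro h
    exact av_inner_nonneg (fun g => G (mix T h g))
  linarith

end R2

end Pool.Agent.Lib.MP_caca3f_an.Sharp
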