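import Pool.Agent.Lib.MP_caca3f_an.Sharp.Gadget
import Pool.Agent.Lib.MP_caca3f_an.Sharp.Prob
import Pool.Agent.Lib.MP_caca3f_an.Sharp.Pm

/-! The base gadget: one class, gain `n`. -/

namespace Pool.Agent.Lib.MP_caca3f_an.Sharp

open Finset

set_option linter.unusedSectionVars false

section base

variable {Y0 Y : Type} [Fintype Y0] [DecidableEq Y0] [Nonempty Y0] [Fintype Y] [DecidableEq Y]
  [AddGroup Y]

/-- size of the difference -/
noncomputable def dif (s t : Y0 → Y) : ℝ := nw 1 (ind s t)

theorem dif_nonneg (s t : Y0 → Y) : 0 ≤ dif s t := nw_nonneg _ _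

theorem dif_sq (s t : Y0 → Y) : dif s t ^ 2 = ∑ b, ind s t b := by
  unfold dif
  rw [nw_sq zero_le_one, one_mul]
  apply Finset.sum_congr rfl; intro b _
  unfold ind; split_ifs <;> norm_num

theorem dif_self (s : Y0 → Y) : dif s s = 0 := by
  have h := dif_sq s s
  simp only [ind_self, Finset.sum_const_zero] at h
  exact pow_eq_zero_iff two_ne_zero |>.mp h

theorem dif_symm (s t : Y0 → Y) : dif s t = dif t s := by
  unfold dif; rw [ind_symm]

theorem dif_tri (s t u : Y0 → Y) : dif s u ≤ dif s t + dif t u := by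
  unfold dif
  refine le_trans (nw_mono zero_le_one (g := fun b => ind s t b + ind t u b) ?_)
    (nw_add zero_le_one _ _)
  intro b
  rw [abs_of_nonneg (ind_nonneg _ _ _)]
  exact ind_tri s t u b

theorem dif_eq_zero {s t : Y0 → Y} (h : dif s t ≤ 0) : s = t := by
  ext b
  by_contra hb
  have h3 : ind s t b = 1 := by simp only [ind, if_neg hb]
  have h4 := nw_single_le (ind s t) b
  rw [h3, abs_one] at h4
  unfold dif at h
  linarith

theorem dif_le_one {s t : Y0 → Y} (h : ∃ b, ∀ b', b' ≠ b → s b' = t b') : dif s t ≤ 1 := by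
  obtain ⟨b, hb⟩ := h
  unfold dif
  rw [nw_supp (ind s t) b, abs_of_nonneg (ind_nonneg _ _ _)]
  · exact ind_le _ _ _
  · intro b' hb'
    simp only [ind, hb b' hb', if_true]

theorem fr_eq (s t : Y0 → Y) : √(Fintype.card Y0 : ℝ) * fr s t = dif s t := by
  have hY : (0:ℝ) < Fintype.card Y0 := by exact_mod_cast Fintype.card_pos
  rw [← pow_left_inj₀ (mul_nonneg (Real.sqrt_nonneg _) (fr_nonneg s t)) (dif_nonneg s t)
    two_ne_zero, mul_pow, Real.sq_sqrt hY.le, dif_sq]
  unfold fr
  rw [N2_sq]
  unfold av
  rw [mul_div_cancel₀ _ hY.ne']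
  apply Finset.sum_congr rfl; intro b _
  unfold ind
  by_cases h : s b = t b <;> simp [h]

open Classical in
/-- the two constraints for the metric of the base gadget -/
noncomputable def qb (n : ℝ) (i : Bool) (s t : Y0 → Y) : ℝ :=
  if i then n * dif s t else if ∃ b, ∀ b', b' ≠ b → s b' = t b' then 1 else n * dif s t

theorem qb_nonneg {n : ℝ} (hn : 1 ≤ n) (i : Bool) (s t : Y0 → Y) : 0 ≤ qb n i s t := by
  have := mul_nonneg (by linarith : 0 ≤ n) (dif_nonneg s t)
  unfold qb; split_ifs
  · exact this
  · exact zero_le_one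
  · exact this

/-- the metric of the base gadget -/
noncomputable def rb (n : ℝ) (s t : Y0 → Y) : ℝ := pm (qb n) s t

theorem rb_le {n : ℝ} (hn : 1 ≤ n) (s t : Y0 → Y) : rb n s t ≤ n * dif s t := by
  have := pm_le (qb_nonneg hn) true s t
  unfold rb
  simpa [qb] using this

theorem rb_le_one {n : ℝ} (hn : 1 ≤ n) {s t : Y0 → Y} (h : ∃ b, ∀ b', b' ≠ b → s b' = t b') :
    rb n s t ≤ 1 := by
  have := pm_le (qb_nonneg hn) false s t
  unfold rb
  simpa only [qb, Bool.false_eq_true, if_false, if_pos h] using this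

theorem dif_le_rb {n : ℝ} (hn : 1 ≤ n) (s t : Y0 → Y) : dif s t ≤ rb n s t := by
  have hΦ : LipAll (qb n) (fun f : Y0 → Y => dif f t) := by
    intro i u v
    have h1 := dif_tri u v t
    have h2 := dif_tri v u t
    rw [dif_symm v u] at h2
    have h3 : |dif u t - dif v t| ≤ dif u v := by
      rw [abs_le]; constructor <;> linarith
    have h4 := dif_nonneg u v
    refine h3.trans ?_
    unfold qb
    split_ifs with hi he
    · nlinarith
    · exact dif_le_one he
    · nlinarith
  have := le_pm true hΦ s t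
  simp only [dif_self, sub_zero, abs_of_nonneg (dif_nonneg s t)] at this
  exact this

theorem le_rb {n : ℝ} (hn : 1 ≤ n) (s t : Y0 → Y) : n * dif s t ≤ rb n s t + n ^ 2 := by
  by_cases hd : dif s t ≤ n
  · have h1 := (dif_nonneg s t).trans (dif_le_rb hn s t)
    nlinarith
  · push Not at hd
    have hn0 : 0 < n := by linarith
    set N := dif s t with hN
    have hN0 : 0 < N := by linarith
    have hΦ : LipAll (qb n) (fun f : Y0 → Y => n / N * ∑ b, chi s t b (f b)) := by
      intro i u v
      have h1 : |n / N * ∑ b, chi s t b (u b) - n / N * ∑ b, chi s t b (v b)|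
          ≤ n / N * ∑ b, ind s t b * ind u v b := by
        rw [← mul_sub, ← Finset.sum_sub_distrib, abs_mul, abs_of_pos (by positivity)]
        apply mul_le_mul_of_nonneg_left _ (by positivity)
        refine (Finset.abs_sum_le_sum_abs _ _).trans (Finset.sum_le_sum fun b _ => ?_)
        exact chi_lip s t u v b
      refine h1.trans ?_
      have h2 : n / N * ∑ b, ind s t b * ind u v b ≤ n * dif u v := by
        have h3 : ∑ b, ind s t b * ind u v b ≤ N * dif u v := by
          apply le_of_sq_le_sq _ (mul_nonneg hN0.le (dif_nonneg _ _))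
          rw [mul_pow, hN, dif_sq, dif_sq]
          refine (Finset.sum_mul_sq_le_sq_mul_sq _ _ _).trans (le_of_eq ?_)
          congr 1 <;>
          · apply Finset.sum_congr rfl; intro b _
            unfold ind; split_ifs <;> norm_num
        calc n / N * ∑ b, ind s t b * ind u v b ≤ n / N * (N * dif u v) :=
              mul_le_mul_of_nonneg_left h3 (by positivity)
          _ = n * dif u v := by field_simp
      unfold qb
      split_ifs with hi he
      · exact h2
      · obtain ⟨b0, hb0⟩ := he
        have h4 : ∑ b, ind s t b * ind u v b ≤ 1 := by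
          rw [Finset.sum_eq_single b0]
          · have := ind_le s t b0
            have := ind_le u v b0
            have := ind_nonneg s t b0
            have := ind_nonneg u v b0
            nlinarith
          · intro b _ hb
            have : ind u v b = 0 := by simp only [ind, hb0 b hb, if_true]
            rw [this, mul_zero]
          · intro h; exact absurd (Finset.mem_univ _) h
        calc n / N * ∑ b, ind s t b * ind u v b ≤ n / N * 1 :=
              mul_le_mul_of_nonneg_left h4 (by positivity)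
          _ ≤ 1 := by rw [mul_one, div_le_one hN0]; exact hd.le
      · exact h2
    have h5 := le_pm true hΦ s t
    have h6 : ∑ b, chi s t b (s b) = N ^ 2 / 2 := by
      rw [hN, dif_sq, Finset.sum_div]
      apply Finset.sum_congr rfl; intro b _
      unfold chi ind
      by_cases h1 : s b = t b <;> simp [h1]
    have h7 : ∑ b, chi s t b (t b) = -(N ^ 2 / 2) := by
      rw [hN, dif_sq, Finset.sum_div, ← Finset.sum_neg_distrib]
      apply Finset.sum_congr rfl; intro b _
      unfold chi ind
      by_cases h1 : s b = t b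
      · simp [h1]
      · have : ¬ t b = s b := fun h => h1 h.symm
        simp [h1, this]
    have h8 : n / N * (∑ b, chi s t b (s b)) - n / N * (∑ b, chi s t b (t b)) = n * N := by
      rw [h6, h7]; field_simp; ring
    rw [h8, abs_of_pos (by positivity)] at h5
    have : rb n s t = pm (qb n) s t := rfl
    rw [this]
    nlinarith

/-- the Poincare inequality of the base gadget -/
theorem base_po (n c : ℝ) (hn : 1 ≤ n) (hc : 0 ≤ c) :
    Poinc (S := Y0 → Y) (Λ := Unit) (fun s _ t _ => c * rb n s t)
      (c * √(Fintype.card Y0 : ℝ)) := by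
  intro O _ _ w hw K _ _ F hF l
  have hY : (0:ℝ) ≤ Fintype.card Y0 := Nat.cast_nonneg _
  have hS : Nonempty Y := ⟨0⟩
  let e : (O × Y0 → Y) ≃ (O → Y0 → Y) :=
    { toFun := fun f o b => f (o, b)
      invFun := fun s p => s p.1 p.2
      left_inv := fun _ => rfl
      right_inv := fun _ => rfl }
  have h1 : av (fun s => av fun t => ‖F s l - F t l‖ ^ 2)
      = R2 (fun f : O × Y0 → Y => F (e f) l) Finset.univ := by
    rw [R2_univ, ← av_comp_equiv e]
    congr 1; ext f
    rw [← av_comp_equiv e]
  have h2 : (Finset.univ : Finset Y0).biUnion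
      (fun b => (Finset.univ.filter fun z : O × Y0 => z.2 = b)) = Finset.univ := by
    ext z; simp
  have h3 : ∀ b : Y0, R2 (fun f : O × Y0 → Y => F (e f) l)
      (Finset.univ.filter fun z : O × Y0 => z.2 = b) ≤ c ^ 2 * ∑ o, w o := by
    intro b
    unfold R2
    apply av_le_const; intro f
    apply av_le_const; intro f'
    refine (hF _ _ _ _).trans ?_
    rw [Finset.mul_sum]
    apply Finset.sum_le_sum; intro o _
    rw [mul_comm]
    apply mul_le_mul_of_nonneg_right _ (hw o)
    apply pow_le_pow_left₀ (mul_nonneg hc (pm_nonneg (q := qb n) _ _))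
    have h4 : rb n (e f o) (e (mix (Finset.univ.filter fun z : O × Y0 => z.2 = b) f f') o)
        ≤ 1 := by
      apply rb_le_one hn
      refine ⟨b, fun b' hb' => ?_⟩
      simp [e, mix, hb']
    exact mul_le_of_le_one_right hc h4
  have h5 : R2 (fun f : O × Y0 → Y => F (e f) l) Finset.univ
      ≤ ∑ _b : Y0, c ^ 2 * ∑ o, w o := by
    rw [← h2]
    refine (R2_biUnion _ _ _ ?_).trans (Finset.sum_le_sum fun b _ => h3 b)
    intro i j hij
    rw [Finset.disjoint_left]
    intro z h h'
    simp only [Finset.mem_filter, Finset.mem_univ, true_and] at h h'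
    exact hij (h.symm.trans h')
  rw [h1]
  refine h5.trans (le_of_eq ?_)
  rw [Finset.sum_const, Finset.card_univ, nsmul_eq_mul, mul_pow, Real.sq_sqrt hY]
  ring

end base

theorem exists_M (B C : ℝ) :
    ∃ m : ℕ, B ≤ √((m + 1 : ℕ) : ℝ) ∧ C ≤ ((m + 1 : ℕ) : ℝ) := by
  obtain ⟨m, hm⟩ := exists_nat_ge (max (B ^ 2) C)
  refine ⟨m, ?_, ?_⟩
  · apply Real.le_sqrt_of_sq_le
    push_cast
    have := (le_max_left (B ^ 2) C).trans hm
    linarith
  · push_cast
    have := (le_max_right (B ^ 2) C).trans hm
    linarith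

/-- the base gadget -/
theorem hasG_base {Cl : Type} (n : ℝ) (hn : 1 ≤ n) (j : Cl) (ℓ : Cl → ℝ) (η : ℝ) (hη : 0 < η)
    (h1 : ∀ l, n * η ≤ ℓ l) (h2 : ∀ l, ℓ l ≤ n * (n * η)) (h3 : ℓ j = n * η) :
    HasG n {j} ℓ (n * η) η := by
  intro Y _ _ _ ε δ s hε hδ hs
  have hn0 : 0 < n := by linarith
  obtain ⟨m, hm1, -⟩ := exists_M (η * n ^ 2 / δ) 0
  set μ := √(Fintype.card (Fin (m + 1)) : ℝ) with hμ
  have hM : (0:ℝ) < Fintype.card (Fin (m + 1)) := by exact_mod_cast Fintype.card_pos
  have hμ0 : 0 < μ := Real.sqrt_pos.mpr hM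
  have hμ2 : μ ^ 2 = (Fintype.card (Fin (m + 1)) : ℝ) := Real.sq_sqrt hM.le
  set c := s * η / μ with hc
  have hc0 : 0 < c := by positivity
  have hcμ : c * μ = s * η := by rw [hc]; field_simp
  have hhd : ∀ (u v : Fin (m + 1) → Y), hd (fun _ : Unit => j) (fun l => s * ℓ l)
      (fun (f : Fin (m + 1) → Y) b => f b) (fun _ _ _ => (1:ℝ)) (fun _ _ => (0:ℝ)) () u () v
      = c * (n * dif u v) := by
    intro u v
    unfold hd
    rw [sub_self, norm_zero, hy_zero_right (ld_nonneg _ _ _ _ _),
      ← pow_left_inj₀ (ld_nonneg _ _ _ _ _)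
        (mul_nonneg hc0.le (mul_nonneg hn0.le (dif_nonneg _ _))) two_ne_zero,
      ld_sq (by positivity), mul_pow, mul_pow n, dif_sq, ← hμ2, Finset.mul_sum, Finset.mul_sum,
      Finset.mul_sum]
    apply Finset.sum_congr rfl; intro b _
    have e1 : s * ℓ j = c * μ * n := by rw [h3, hcμ]; ring
    unfold lab2 ind
    beta_reduce
    rw [e1]
    have h2 : √2 ^ 2 = (2:ℝ) := Real.sq_sqrt (by norm_num)
    by_cases h : u b = v b
    · simp only [h, if_true]; ring
    · simp only [if_neg h, mul_one]
      rw [div_pow, h2]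
      field_simp
      ring
  refine ⟨Fin (m + 1) → Y, Fin (m + 1), Unit, ℝ,
    inferInstance, inferInstance, ⟨fun _ => 0⟩, inferInstance,
    inferInstance, inferInstance, inferInstance, inferInstance, inferInstance, inferInstance,
    inferInstance, fun _ => j, fun s b => s b,
    fun v => Equiv.arrowCongr (Equiv.refl _) (Equiv.addLeft v),
    fun s _ t _ => c * rb n s t, fun _ _ _ => 1, fun _ _ => 0, c * n ^ 2, ?_, ?_, ?_⟩
  · intro a; exact Finset.mem_singleton_self j
  · have e1 : η * n ^ 2 / δ ≤ μ := by rw [hμ, Fintype.card_fin]; exact hm1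
    rw [div_le_iff₀ hδ] at e1
    rw [hc, div_mul_eq_mul_div, div_le_iff₀ hμ0]
    have := mul_le_mul_of_nonneg_left e1 hs.le
    linarith
  constructor
  · intro v s b; rfl
  · intro s l t m'; exact mul_nonneg hc0.le (pm_nonneg _ _)
  · intro s l
    show c * pm (qb n) s s = 0
    rw [pm_self, mul_zero]
  · intro s l t m'
    show c * pm (qb n) s t = c * pm (qb n) t s
    rw [pm_symm]
  · intro s _ t _ u _
    rw [← mul_add]
    exact mul_le_mul_of_nonneg_left (pm_tri true s t u) hc0.le
  · intro s l t m' hst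
    refine ⟨?_, rfl⟩
    have h1 : rb n s t = 0 := by
      rcases mul_eq_zero.mp hst with h | h
      · exact absurd h hc0.ne'
      · exact h
    apply dif_eq_zero
    rw [← h1]; exact dif_le_rb hn s t
  · exact mul_pos hs hη
  · exact mul_pos hs (mul_pos hn0 hη)
  · positivity
  · intro l; exact mul_le_mul_of_nonneg_left (h1 l) hs.le
  · intro l
    have := mul_le_mul_of_nonneg_left (h2 l) hs.le
    linarith
  · exact ⟨j, by rw [h3]⟩
  · intro a s b; exact zero_le_one
  · intro a s b; exact le_rfl
  · intro a u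
    have : N2 (fun _ : Fin (m + 1) => (1:ℝ) - 1) = 0 := by
      rw [sub_self]; exact N2_const le_rfl
    rw [this, mul_zero]; positivity
  · intro a u; rw [norm_zero]; positivity
  · intro u _ v _
    show s * (n * η) * fr u v ≤ c * rb n u v + c * n ^ 2
    have e1 : s * (n * η) * fr u v = c * (n * dif u v) := by
      rw [← fr_eq, ← hμ]
      calc s * (n * η) * fr u v = (s * η) * n * fr u v := by ring
        _ = _ := by rw [← hcμ]; ring
    rw [e1, ← mul_add]
    exact mul_le_mul_of_nonneg_left (le_rb hn u v) hc0.le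
  · intro a b u v _
    rw [hhd]
    have h4 := mul_le_mul_of_nonneg_left (dif_le_rb hn u v) (mul_nonneg hc0.le hn0.le)
    have h5 : 0 ≤ c * rb n u v := mul_nonneg hc0.le (pm_nonneg (q := qb n) _ _)
    calc c * (n * dif u v) ≤ n * (c * rb n u v) := by linarith
      _ ≤ n * (1 + ε) * (c * rb n u v) := by
          apply mul_le_mul_of_nonneg_right _ h5
          exact le_mul_of_one_le_right hn0.le (by linarith)
  · intro a b u v _
    rw [hhd]
    have h4 := mul_le_mul_of_nonneg_left (rb_le hn u v) hc0.le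
    have h5 : 0 ≤ c * (n * dif u v) := mul_nonneg hc0.le (mul_nonneg hn0.le (dif_nonneg _ _))
    calc c * rb n u v ≤ c * (n * dif u v) := h4
      _ ≤ (1 + ε) * (c * (n * dif u v)) := le_mul_of_one_le_left h5 (by linarith)
  · have := base_po (Y0 := Fin (m + 1)) (Y := Y) n c hn hc0.le
    rw [← hμ, hcμ] at this
    exact this

end Pool.Agent.Lib.MP_caca3f_an.Sharp
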