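import Pool.Agent.Lib.MP_caca3f_an.Sharp.Av

/-! Hypotenuses, label vectors, fractions of differing labels. -/

namespace Pool.Agent.Lib.MP_caca3f_an.Sharp

open Finset

set_option linter.unusedSectionVars false

section hy

/-- hypotenuse -/
noncomputable def hy (a b : ℝ) : ℝ := √(a ^ 2 + b ^ 2)

theorem hy_nonneg (a b : ℝ) : 0 ≤ hy a b := Real.sqrt_nonneg _

theorem hy_sq (a b : ℝ) : hy a b ^ 2 = a ^ 2 + b ^ 2 := Real.sq_sqrt (by positivity)

theorem hy_le {a b x : ℝ} (hx : 0 ≤ x) (h : a ^ 2 + b ^ 2 ≤ x ^ 2) : hy a b ≤ x :=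
  Real.sqrt_le_iff.mpr ⟨hx, h⟩

theorem hy_mono {a b a' b' : ℝ} (ha0 : 0 ≤ a) (hb0 : 0 ≤ b) (ha : a ≤ a') (hb : b ≤ b') :
    hy a b ≤ hy a' b' := by
  apply Real.sqrt_le_sqrt
  have := pow_le_pow_left₀ ha0 ha 2
  have := pow_le_pow_left₀ hb0 hb 2
  linarith

theorem left_le_hy {a b : ℝ} : a ≤ hy a b := by
  apply Real.le_sqrt_of_sq_le
  nlinarith [sq_nonneg b]

theorem right_le_hy {a b : ℝ} : b ≤ hy a b := by
  apply Real.le_sqrt_of_sq_le
  nlinarith [sq_nonneg a]

theorem hy_le_add {a b : ℝ} (ha : 0 ≤ a) (hb : 0 ≤ b) : hy a b ≤ a + b := by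
  apply hy_le (by linarith)
  nlinarith [mul_nonneg ha hb]

theorem hy_add (a b a' b' : ℝ) : hy (a + a') (b + b') ≤ hy a b + hy a' b' := by
  apply hy_le (add_nonneg (hy_nonneg _ _) (hy_nonneg _ _))
  rw [add_sq (hy a b), hy_sq, hy_sq]
  have h : a * a' + b * b' ≤ hy a b * hy a' b' := by
    apply le_of_sq_le_sq _ (mul_nonneg (hy_nonneg _ _) (hy_nonneg _ _))
    rw [mul_pow, hy_sq, hy_sq]
    nlinarith [sq_nonneg (a * b' - b * a')]
  nlinarith

theorem hy_zero_left {b : ℝ} (hb : 0 ≤ b) : hy 0 b = b := by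
  unfold hy; rw [zero_pow two_ne_zero, zero_add, Real.sqrt_sq hb]

theorem hy_zero_right {a : ℝ} (ha : 0 ≤ a) : hy a 0 = a := by
  unfold hy; rw [zero_pow two_ne_zero, add_zero, Real.sqrt_sq ha]

theorem hy_add_left {a b a' : ℝ} (ha' : 0 ≤ a') : hy (a + a') b ≤ hy a b + a' := by
  have := hy_add a b a' 0
  rw [hy_zero_right ha', add_zero] at this
  exact this

theorem hy_add_right {a b b' : ℝ} (hb' : 0 ≤ b') : hy a (b + b') ≤ hy a b + b' := by
  have := hy_add a b 0 b'
  rw [hy_zero_left hb', add_zero] at this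
  exact this

theorem hy_mono_right {a b b' : ℝ} (hb0 : 0 ≤ b) (hb : b ≤ b') : hy a b ≤ hy a b' := by
  apply Real.sqrt_le_sqrt
  have := pow_le_pow_left₀ hb0 hb 2
  linarith

theorem hy_mono_left {a a' b : ℝ} (ha0 : 0 ≤ a) (ha : a ≤ a') : hy a b ≤ hy a' b := by
  apply Real.sqrt_le_sqrt
  have := pow_le_pow_left₀ ha0 ha 2
  linarith

theorem hy_smul {c a b : ℝ} (hc : 0 ≤ c) : hy (c * a) (c * b) = c * hy a b := by
  unfold hy
  rw [mul_pow, mul_pow, ← mul_add, Real.sqrt_mul (sq_nonneg c), Real.sqrt_sq hc]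

theorem hy_comm (a b : ℝ) : hy a b = hy b a := by unfold hy; rw [add_comm]

end hy

section lv

variable {I V : Type} [Fintype I] [Fintype V] [DecidableEq V]

/-- label vector -/
def lv (α : I → ℝ) (z : I → V) (p : I × V) : ℝ := if p.2 = z p.1 then α p.1 else 0

/-- squared distance of two weighted unit vectors -/
def lab2 (α : ℝ) (y : V) (β : ℝ) (z : V) : ℝ := if y = z then (α - β) ^ 2 else α ^ 2 + β ^ 2

theorem lab2_nonneg (α : ℝ) (y : V) (β : ℝ) (z : V) : 0 ≤ lab2 α y β z := by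
  unfold lab2; split_ifs <;> positivity

theorem lab2_symm (α : ℝ) (y : V) (β : ℝ) (z : V) : lab2 α y β z = lab2 β z α y := by
  unfold lab2
  by_cases h : y = z
  · rw [if_pos h, if_pos h.symm]; ring
  · rw [if_neg h, if_neg (Ne.symm h)]; ring

theorem lab2_same (α β : ℝ) (y : V) : lab2 α y β y = (α - β) ^ 2 := by
  unfold lab2; rw [if_pos rfl]

theorem lab2_mul (k α : ℝ) (y : V) (β : ℝ) (z : V) :
    lab2 (k * α) y (k * β) z = k ^ 2 * lab2 α y β z := by
  unfold lab2; split_ifs <;> ring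

theorem sum_lv_sub_sq_one (α β : ℝ) (y z : V) :
    ∑ v : V, ((if v = y then α else 0) - (if v = z then β else 0)) ^ 2 = lab2 α y β z := by
  by_cases h : y = z
  · rw [h, lab2_same, Finset.sum_eq_single z]
    · simp
    · intro v _ hv; simp [hv]
    · intro h; exact absurd (Finset.mem_univ _) h
  · have e : ∀ v : V, ((if v = y then α else 0) - (if v = z then β else 0)) ^ 2
        = (if v = y then α ^ 2 else 0) + (if v = z then β ^ 2 else 0) := by
      intro v
      by_cases h1 : v = y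
      · simp [h1, h]
      · by_cases h2 : v = z
        · simp [h2, Ne.symm h]
        · simp [h1, h2]
    simp only [e, Finset.sum_add_distrib, Finset.sum_ite_eq', Finset.mem_univ, if_true]
    unfold lab2; rw [if_neg h]

theorem sum_lv_sub_sq (α β : I → ℝ) (y z : I → V) :
    ∑ p : I × V, (lv α y p - lv β z p) ^ 2 = ∑ i, lab2 (α i) (y i) (β i) (z i) := by
  rw [Fintype.sum_prod_type]
  apply Finset.sum_congr rfl; intro i _
  exact sum_lv_sub_sq_one (α i) (β i) (y i) (z i)

/-- distance of label vectors -/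
noncomputable def ld (w : ℝ) (α : I → ℝ) (y : I → V) (β : I → ℝ) (z : I → V) : ℝ :=
  nw w (fun p => lv α y p - lv β z p)

theorem ld_nonneg (w : ℝ) (α : I → ℝ) (y : I → V) (β : I → ℝ) (z : I → V) : 0 ≤ ld w α y β z :=
  nw_nonneg _ _

theorem ld_sq {w : ℝ} (hw : 0 ≤ w) (α : I → ℝ) (y : I → V) (β : I → ℝ) (z : I → V) :
    ld w α y β z ^ 2 = w * ∑ i, lab2 (α i) (y i) (β i) (z i) := by
  unfold ld
  rw [nw_sq hw, sum_lv_sub_sq]

theorem ld_symm {w : ℝ} (hw : 0 ≤ w) (α : I → ℝ) (y : I → V) (β : I → ℝ) (z : I → V) :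
    ld w α y β z = ld w β z α y := by
  rw [← pow_left_inj₀ (ld_nonneg _ _ _ _ _) (ld_nonneg _ _ _ _ _) two_ne_zero, ld_sq hw, ld_sq hw]
  congr 1
  apply Finset.sum_congr rfl; intro i _
  exact lab2_symm _ _ _ _

theorem ld_tri {w : ℝ} (hw : 0 ≤ w) (α β γ : I → ℝ) (x y z : I → V) :
    ld w α x γ z ≤ ld w α x β y + ld w β y γ z := by
  unfold ld
  refine le_trans (le_of_eq ?_) (nw_add hw _ _)
  congr 1; ext p; ring

theorem ld_self {w : ℝ} (hw : 0 ≤ w) (α : I → ℝ) (x : I → V) : ld w α x α x = 0 := by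
  have h := ld_sq hw α x α x
  have : ∑ i, lab2 (α i) (x i) (α i) (x i) = 0 := by
    apply Finset.sum_eq_zero; intro i _; rw [lab2_same]; ring
  rw [this, mul_zero] at h
  exact pow_eq_zero_iff two_ne_zero |>.mp h

theorem ld_le_of_sq {w : ℝ} (hw : 0 ≤ w) {α : I → ℝ} {y : I → V} {β : I → ℝ} {z : I → V} {x : ℝ}
    (hx : 0 ≤ x) (h : w * ∑ i, lab2 (α i) (y i) (β i) (z i) ≤ x ^ 2) : ld w α y β z ≤ x := by
  apply le_of_sq_le_sq _ hx
  rw [ld_sq hw]; exact h

end lv

section ind

variable {I V : Type} [DecidableEq V]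

/-- indicator of the places where two lamp states differ -/
noncomputable def ind (s t : I → V) (b : I) : ℝ := if s b = t b then 0 else 1

theorem ind_nonneg (s t : I → V) (b : I) : 0 ≤ ind s t b := by
  unfold ind; split_ifs <;> norm_num

theorem ind_le (s t : I → V) (b : I) : ind s t b ≤ 1 := by
  unfold ind; split_ifs <;> norm_num

theorem ind_self (s : I → V) : ind s s = fun _ => 0 := by
  ext b; simp [ind]

theorem ind_symm (s t : I → V) : ind s t = ind t s := by
  ext b; simp only [ind, eq_comm]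

theorem ind_tri (s t u : I → V) (b : I) : ind s u b ≤ ind s t b + ind t u b := by
  have := ind_nonneg s t b
  have := ind_nonneg t u b
  by_cases h1 : s b = t b
  · have : ind s u b = ind t u b := by simp only [ind, h1]
    linarith
  · have h2 : ind s t b = 1 := by simp only [ind, if_neg h1]
    have := ind_le s u b
    linarith

/-- a test function -/
noncomputable def chi (s t : I → V) (b : I) (y : V) : ℝ :=
  if s b = t b then 0 else if y = s b then 1 / 2 else if y = t b then -(1 / 2) else 0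

theorem chi_lip (s t u v : I → V) (b : I) :
    |chi s t b (u b) - chi s t b (v b)| ≤ ind s t b * ind u v b := by
  unfold chi ind
  by_cases h1 : s b = t b
  · simp [h1]
  · by_cases h2 : u b = v b
    · simp [h2]
    · simp only [if_neg h1, if_neg h2]
      split_ifs <;> norm_num

end ind

section fr

/-- root of the fraction of the places in which two labellings differ -/
noncomputable def fr {B Y : Type} [Fintype B] [DecidableEq Y] (x y : B → Y) : ℝ :=
  N2 fun b => if x b = y b then 0 else 1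

variable {B Y : Type} [Fintype B] [DecidableEq Y]

theorem fr_nonneg (x y : B → Y) : 0 ≤ fr x y := N2_nonneg _

theorem fr_le_one [Nonempty B] (x y : B → Y) : fr x y ≤ 1 := by
  apply N2_le_const zero_le_one
  intro b; split_ifs <;> simp

theorem fr_sq (x y : B → Y) : fr x y ^ 2 = av fun b => if x b = y b then (0:ℝ) else 1 := by
  unfold fr
  rw [N2_sq]
  congr 1; ext b
  split_ifs <;> norm_num

theorem fr_self (x : B → Y) : fr x x = 0 := by
  have h := fr_sq x x
  simp only [if_true] at h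
  have : av (fun _ : B => (0:ℝ)) = 0 := by unfold av; simp
  rw [this] at h
  exact pow_eq_zero_iff two_ne_zero |>.mp h

end fr

end Pool.Agent.Lib.MP_caca3f_an.Sharp
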