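import Pool.Agent.Lib.MP_caca3f_an.Sharp.Med

/-! The embeddings of the next gadget. -/

namespace Pool.Agent.Lib.MP_caca3f_an.Sharp

open Finset

set_option linter.unusedSectionVars false

section kv

variable {I K Kp Q : Type} [Fintype I] [Fintype Q] [NormedAddCommGroup K] [InnerProductSpace ℝ K]
  [NormedAddCommGroup Kp] [InnerProductSpace ℝ Kp]

/-- the receiving Hilbert space -/
abbrev KK (I K Kp Q : Type) [Fintype I] [Fintype Q] [NormedAddCommGroup K]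
    [InnerProductSpace ℝ K] [NormedAddCommGroup Kp] [InnerProductSpace ℝ Kp] : Type :=
  WithLp 2 (PiLp 2 (fun _ : I => K) × WithLp 2 (Kp × EuclideanSpace ℝ Q))

open Classical in
/-- a vector assembled from components and a key -/
noncomputable def kv (x : I → K) (y : Kp) (k : Q) (z : ℝ) : KK I K Kp Q :=
  WithLp.toLp 2 (WithLp.toLp 2 x, WithLp.toLp 2 (y, EuclideanSpace.single k z))

theorem kk_norm_sq (A : PiLp 2 (fun _ : I => K)) (y : Kp) (b : EuclideanSpace ℝ Q) :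
    ‖(WithLp.toLp 2 (A, WithLp.toLp 2 (y, b)) : KK I K Kp Q)‖ ^ 2
      = ∑ i, ‖A i‖ ^ 2 + (‖y‖ ^ 2 + ‖b‖ ^ 2) := by
  rw [WithLp.prod_norm_sq_eq_of_L2]
  change ‖A‖ ^ 2 + ‖(WithLp.toLp 2 (y, b) : WithLp 2 (Kp × EuclideanSpace ℝ Q))‖ ^ 2 = _
  rw [PiLp.norm_sq_eq_of_L2, WithLp.prod_norm_sq_eq_of_L2]
  rfl

theorem kv_norm (x : I → K) (y : Kp) (k : Q) (z : ℝ) :
    ‖kv x y k z‖ ^ 2 = ∑ i, ‖x i‖ ^ 2 + (‖y‖ ^ 2 + z ^ 2) := by
  unfold kv
  rw [kk_norm_sq]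
  simp

theorem kv_sub_same (x x' : I → K) (y y' : Kp) (k : Q) (z : ℝ) :
    ‖kv x y k z - kv x' y' k z‖ ^ 2 = ∑ i, ‖x i - x' i‖ ^ 2 + ‖y - y'‖ ^ 2 := by
  unfold kv
  rw [← WithLp.toLp_sub, Prod.mk_sub_mk, ← WithLp.toLp_sub, ← WithLp.toLp_sub, Prod.mk_sub_mk,
    kk_norm_sq]
  simp

theorem kv_sub_diff (x x' : I → K) (y y' : Kp) (k k' : Q) (hk : k ≠ k') (z : ℝ) :
    ‖kv x y k z - kv x' y' k' z‖ ^ 2
      = ∑ i, ‖x i - x' i‖ ^ 2 + (‖y - y'‖ ^ 2 + 2 * z ^ 2) := by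
  classical
  unfold kv
  rw [← WithLp.toLp_sub, Prod.mk_sub_mk, ← WithLp.toLp_sub, ← WithLp.toLp_sub, Prod.mk_sub_mk,
    kk_norm_sq]
  congr 2
  rw [@norm_sub_sq_real, EuclideanSpace.inner_single_left]
  simp [hk]
  ring

end kv

section emb

variable {Sp Bp Y Λp S B Y' Λ Cl K Kp : Type} [Fintype Sp] [Fintype Bp] [DecidableEq Bp]
  [Nonempty Bp] [Fintype Y] [DecidableEq Y] [AddGroup Y] [Fintype S] [Fintype B] [Nonempty B]
  [Fintype Y'] [DecidableEq Y']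
  [NormedAddCommGroup K] [InnerProductSpace ℝ K] [NormedAddCommGroup Kp] [InnerProductSpace ℝ Kp]

/-- keys -/
abbrev KEY (Sp Bp Y S : Type) : Type := (Sp × (Bp × Y → Option S)) ⊕ (Bp × Y → S)

/-- the key of a point -/
def key (τp : Sp → Bp → Y) (x : Λ ⊕ Λp) (s : Pt Sp Bp Y S) : KEY Sp Bp Y S :=
  match x with
  | Sum.inl _ => Sum.inl (s.1, fun p => if p.2 = τp s.1 p.1 then none else some (s.2 p))
  | Sum.inr _ => Sum.inr s.2

variable {τp : Sp → Bp → Y}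

theorem key_inl {a a' : Λ} {s t : Pt Sp Bp Y S} :
    key (Λp := Λp) τp (Sum.inl a) s = key (Λp := Λp) τp (Sum.inl a') t ↔ SameA τp s t := by
  unfold key SameA
  simp only [Sum.inl.injEq, Prod.mk.injEq]
  constructor
  · rintro ⟨h1, h2⟩
    refine ⟨h1, fun p hp => ?_⟩
    have h3 := congrFun h2 p
    rw [h1] at hp
    simp only [h1, if_neg hp, Option.some.injEq] at h3
    exact h3
  · rintro ⟨h1, h2⟩
    refine ⟨h1, ?_⟩
    ext1 p
    rw [← h1]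
    by_cases hp : p.2 = τp s.1 p.1
    · rw [if_pos hp, if_pos hp]
    · rw [if_neg hp, if_neg hp, h2 p hp]

theorem key_inr {b b' : Λp} {s t : Pt Sp Bp Y S} :
    key (Λ := Λ) τp (Sum.inr b) s = key (Λ := Λ) τp (Sum.inr b') t ↔ s.2 = t.2 := by
  unfold key; simp only [Sum.inr.injEq]

theorem key_inl_inr {a : Λ} {b : Λp} {s t : Pt Sp Bp Y S} :
    key (Λp := Λp) τp (Sum.inl a) s ≠ key (Λ := Λ) τp (Sum.inr b) t := by
  unfold key; simp

variable {c : Λ → Cl} {cp : Λp → Cl} {ℓ ℓp : Cl → ℝ} {τ : S → B → Y'} {θ : Λ → S → B → ℝ}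
  {θp : Λp → Sp → Bp → ℝ} {κ : Λ → S → K} {κp : Λp → Sp → Kp} {ζ : ℝ}

/-- effective weights -/
noncomputable def om (c : Λ → Cl) (cp : Λp → Cl) (ℓ ℓp : Cl → ℝ) (τp : Sp → Bp → Y)
    (θ : Λ → S → B → ℝ) (θp : Λp → Sp → Bp → ℝ) (x : Λ ⊕ Λp) (s : Pt Sp Bp Y S)
    (i : Bp × Y × B) : ℝ :=
  match x with
  | Sum.inl a => if i.2.1 = τp s.1 i.1 then ℓ (c a) * θ a (own τp s i.1) i.2.2
      else ℓ (c a) + ℓp (c a)
  | Sum.inr b => if i.2.1 = τp s.1 i.1 then ℓ (cp b) + ℓp (cp b) - ℓp (cp b) * θp b s.1 i.1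
      else ℓ (cp b) + ℓp (cp b)

/-- the classes of the next gadget -/
def c' (c : Λ → Cl) (cp : Λp → Cl) : Λ ⊕ Λp → Cl := Sum.elim c cp

/-- the class lengths of the next gadget -/
noncomputable def ℓ' (Y : Type) [Fintype Y] (ℓ ℓp : Cl → ℝ) (l : Cl) : ℝ :=
  √(Fintype.card Y : ℝ) * (ℓ l + ℓp l)

/-- soft labels of the next gadget -/
noncomputable def θ' (c : Λ → Cl) (cp : Λp → Cl) (ℓ ℓp : Cl → ℝ) (τp : Sp → Bp → Y)
    (θ : Λ → S → B → ℝ) (θp : Λp → Sp → Bp → ℝ) (x : Λ ⊕ Λp) (s : Pt Sp Bp Y S)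
    (i : Bp × Y × B) : ℝ :=
  om c cp ℓ ℓp τp θ θp x s i / (ℓ (c' c cp x) + ℓp (c' c cp x))

/-- keys of the next gadget -/
noncomputable def κ' (τp : Sp → Bp → Y) (κ : Λ → S → K) (κp : Λp → Sp → Kp) (ζ : ℝ)
    (x : Λ ⊕ Λp) (s : Pt Sp Bp Y S) : KK Bp K Kp (KEY Sp Bp Y S) :=
  match x with
  | Sum.inl a => kv (fun b => (1 / √(Fintype.card Bp : ℝ)) • κ a (own τp s b)) 0
      (key (Λp := Λp) τp (Sum.inl a) s) (ζ / √2)
  | Sum.inr b => kv 0 (κp b s.1) (key (Λ := Λ) τp (Sum.inr b) s) (ζ / √2)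

/-- the soft label part of the distance -/
noncomputable def dT (c : Λ → Cl) (cp : Λp → Cl) (ℓ ℓp : Cl → ℝ) (τ : S → B → Y')
    (τp : Sp → Bp → Y) (θ : Λ → S → B → ℝ) (θp : Λp → Sp → Bp → ℝ) (x : Λ ⊕ Λp)
    (s : Pt Sp Bp Y S) (y : Λ ⊕ Λp) (t : Pt Sp Bp Y S) : ℝ :=
  ld (w0 Bp B) (fun i => om c cp ℓ ℓp τp θ θp x s i / √2) (τ' τ s)
    (fun i => om c cp ℓ ℓp τp θ θp y t i / √2) (τ' τ t)

theorem dT_nonneg (x : Λ ⊕ Λp) (s : Pt Sp Bp Y S) (y : Λ ⊕ Λp) (t : Pt Sp Bp Y S) :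
    0 ≤ dT c cp ℓ ℓp τ τp θ θp x s y t := ld_nonneg _ _ _ _ _

/-- the distance in the next gadget -/
theorem hd'_eq [Nonempty Y] (hpos : ∀ l, 0 < ℓ l + ℓp l) (x : Λ ⊕ Λp) (s : Pt Sp Bp Y S)
    (y : Λ ⊕ Λp) (t : Pt Sp Bp Y S) :
    hd (c' c cp) (ℓ' Y ℓ ℓp) (τ' τ) (θ' c cp ℓ ℓp τp θ θp) (κ' τp κ κp ζ) x s y t
      = hy (dT c cp ℓ ℓp τ τp θ θp x s y t) ‖κ' τp κ κp ζ x s - κ' τp κ κp ζ y t‖ := by
  have hB : (0:ℝ) < Fintype.card B := by exact_mod_cast Fintype.card_pos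
  have hBp : (0:ℝ) < Fintype.card Bp := by exact_mod_cast Fintype.card_pos
  have hY : (0:ℝ) < Fintype.card Y := by exact_mod_cast Fintype.card_pos
  unfold hd
  congr 1
  rw [← pow_left_inj₀ (ld_nonneg _ _ _ _ _) (dT_nonneg _ _ _ _) two_ne_zero]
  unfold dT
  rw [ld_sq (by positivity), ld_sq w0_nonneg]
  have e : ∀ (x : Λ ⊕ Λp) (s : Pt Sp Bp Y S) (i : Bp × Y × B),
      ℓ' Y ℓ ℓp (c' c cp x) / √2 * θ' c cp ℓ ℓp τp θ θp x s i
      = √(Fintype.card Y : ℝ) * (om c cp ℓ ℓp τp θ θp x s i / √2) := by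
    intro x s i
    have := hpos (c' c cp x)
    unfold ℓ' θ'
    field_simp
  simp only [e, lab2_mul, Real.sq_sqrt hY.le]
  rw [← Finset.mul_sum, ← mul_assoc]
  congr 1
  unfold w0
  rw [Fintype.card_prod, Fintype.card_prod]
  push_cast
  field_simp

theorem κ'_same {x y : Λ ⊕ Λp} {s t : Pt Sp Bp Y S} (hζ : 0 ≤ ζ) {E : ℝ}
    (h1 : ∀ a s, ‖κ a s‖ ≤ E) (h2 : ∀ a s, ‖κp a s‖ ≤ E) (hE : 0 ≤ E) :
    ‖κ' τp κ κp ζ x s - κ' τp κ κp ζ y t‖ ≤ ζ + 2 * E := by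
  have hBp : (0:ℝ) < Fintype.card Bp := by exact_mod_cast Fintype.card_pos
  have h22 : √2 ^ 2 = (2:ℝ) := Real.sq_sqrt (by norm_num)
  have hb : (1 / √(Fintype.card Bp : ℝ)) ^ 2 = 1 / (Fintype.card Bp : ℝ) := by
    rw [div_pow, one_pow, Real.sq_sqrt hBp.le]
  have e1 : ∀ (v : Bp → K) (M : ℝ), (∀ b, ‖v b‖ ≤ M) → 0 ≤ M →
      ∑ b, ‖(1 / √(Fintype.card Bp : ℝ)) • v b‖ ^ 2 ≤ M ^ 2 := by
    intro v M hv hM
    have : ∀ b, ‖(1 / √(Fintype.card Bp : ℝ)) • v b‖ ^ 2 ≤ 1 / (Fintype.card Bp : ℝ) * M ^ 2 := by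
      intro b
      rw [norm_smul, mul_pow, Real.norm_eq_abs, sq_abs, hb]
      exact mul_le_mul_of_nonneg_left (pow_le_pow_left₀ (norm_nonneg _) (hv b) 2) (by positivity)
    refine (Finset.sum_le_sum fun b _ => this b).trans (le_of_eq ?_)
    rw [Finset.sum_const, Finset.card_univ, nsmul_eq_mul]
    field_simp
  have hz : 2 * (ζ / √2) ^ 2 = ζ ^ 2 := by rw [div_pow, h22]; ring
  have hEE : ∀ (p q : K), ‖p‖ ≤ E → ‖q‖ ≤ E → ‖p - q‖ ≤ 2 * E := fun p q hp hq =>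
    (norm_sub_le p q).trans (by linarith)
  have hEE' : ∀ (p q : Kp), ‖p‖ ≤ E → ‖q‖ ≤ E → ‖p - q‖ ≤ 2 * E := fun p q hp hq =>
    (norm_sub_le p q).trans (by linarith)
  apply le_of_sq_le_sq _ (by positivity)
  have hfin : ∀ z : ℝ, z ≤ (2 * E) ^ 2 + ζ ^ 2 → z ≤ (ζ + 2 * E) ^ 2 := by
    intro z hz; nlinarith
  apply hfin
  rcases x with a | b <;> rcases y with a' | b'
  · have e2 : ∑ b, ‖(1 / √(Fintype.card Bp : ℝ)) • κ a (own τp s b)
        - (1 / √(Fintype.card Bp : ℝ)) • κ a' (own τp t b)‖ ^ 2 ≤ (2 * E) ^ 2 := by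
      simp only [← smul_sub]
      exact e1 _ _ (fun b => hEE _ _ (h1 _ _) (h1 _ _)) (by positivity)
    unfold κ'
    simp only
    by_cases hk : key (Λp := Λp) τp (Sum.inl a) s = key (Λp := Λp) τp (Sum.inl a') t
    · rw [hk, kv_sub_same, sub_self, norm_zero, zero_pow two_ne_zero, add_zero]
      nlinarith
    · rw [kv_sub_diff _ _ _ _ _ _ hk, sub_self, norm_zero, zero_pow two_ne_zero, zero_add, hz]
      linarith
  · unfold κ'
    simp only
    rw [kv_sub_diff _ _ _ _ _ _ key_inl_inr, hz, zero_sub, norm_neg]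
    have e2 : ∑ b, ‖(1 / √(Fintype.card Bp : ℝ)) • κ a (own τp s b) - (0 : Bp → K) b‖ ^ 2
        ≤ E ^ 2 := by
      simp only [Pi.zero_apply, sub_zero]
      exact e1 _ _ (fun b => h1 _ _) hE
    have e3 := pow_le_pow_left₀ (norm_nonneg _) (h2 b' t.1) 2
    nlinarith
  · unfold κ'
    simp only
    rw [kv_sub_diff _ _ _ _ _ _ (Ne.symm key_inl_inr), hz, sub_zero]
    have e2 : ∑ b, ‖(0 : Bp → K) b - (1 / √(Fintype.card Bp : ℝ)) • κ a' (own τp t b)‖ ^ 2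
        ≤ E ^ 2 := by
      simp only [Pi.zero_apply, zero_sub, norm_neg]
      exact e1 _ _ (fun b => h1 _ _) hE
    have e3 := pow_le_pow_left₀ (norm_nonneg _) (h2 b s.1) 2
    nlinarith
  · have e3 := pow_le_pow_left₀ (norm_nonneg _) (hEE' _ _ (h2 b s.1) (h2 b' t.1)) 2
    unfold κ'
    simp only
    by_cases hk : key (Λ := Λ) τp (Sum.inr b) s = key (Λ := Λ) τp (Sum.inr b') t
    · rw [hk, kv_sub_same]
      simp only [Pi.zero_apply, sub_self, norm_zero, ne_eq, OfNat.ofNat_ne_zero,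
        not_false_eq_true, zero_pow, Finset.sum_const_zero, zero_add]
      nlinarith
    · rw [kv_sub_diff _ _ _ _ _ _ hk, hz]
      simp only [Pi.zero_apply, sub_self, norm_zero, ne_eq, OfNat.ofNat_ne_zero,
        not_false_eq_true, zero_pow, Finset.sum_const_zero, zero_add]
      linarith

theorem κ'_diff {x y : Λ ⊕ Λp} {s t : Pt Sp Bp Y S}
    (hk : key τp x s ≠ key τp y t) : ζ ≤ ‖κ' τp κ κp ζ x s - κ' τp κ κp ζ y t‖ := by
  have h22 : √2 ^ 2 = (2:ℝ) := Real.sq_sqrt (by norm_num)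
  have hz : 2 * (ζ / √2) ^ 2 = ζ ^ 2 := by rw [div_pow, h22]; ring
  apply le_of_sq_le_sq _ (norm_nonneg _)
  rcases x with a | b <;> rcases y with a' | b' <;>
  · unfold κ'
    simp only
    rw [kv_sub_diff _ _ _ _ _ _ hk, hz]
    have e1 : ∀ f : Bp → ℝ, (∀ i, 0 ≤ f i) → 0 ≤ ∑ i, f i := fun f hf =>
      Finset.sum_nonneg fun i _ => hf i
    refine le_trans ?_ (add_le_add (e1 _ fun i => sq_nonneg _) (add_le_add (sq_nonneg _) le_rfl))
    linarith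

/-- own lamps: the distance is the average of the lower distances -/
theorem hd'_sameA [Nonempty Y] (hpos : ∀ l, 0 < ℓ l + ℓp l) {a a' : Λ} (hc : c a = c a')
    {s t : Pt Sp Bp Y S} (h : SameA τp s t) :
    hd (c' c cp) (ℓ' Y ℓ ℓp) (τ' τ) (θ' c cp ℓ ℓp τp θ θp) (κ' τp κ κp ζ)
      (Sum.inl a) s (Sum.inl a') t
      = N2 (fun b => hd c ℓ τ θ κ a (own τp s b) a' (own τp t b)) := by
  have hB : (0:ℝ) < Fintype.card B := by exact_mod_cast Fintype.card_pos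
  have hBp : (0:ℝ) < Fintype.card Bp := by exact_mod_cast Fintype.card_pos
  have h22 : √2 ^ 2 = (2:ℝ) := Real.sq_sqrt (by norm_num)
  rw [hd'_eq hpos, ← pow_left_inj₀ (hy_nonneg _ _) (N2_nonneg _) two_ne_zero, hy_sq, N2_sq]
  have hk : key (Λp := Λp) τp (Sum.inl a) s = key (Λp := Λp) τp (Sum.inl a') t := key_inl.mpr h
  have e1 : ‖κ' τp κ κp ζ (Sum.inl a) s - κ' τp κ κp ζ (Sum.inl a') t‖ ^ 2
      = av (fun b => ‖κ a (own τp s b) - κ a' (own τp t b)‖ ^ 2) := by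
    unfold κ'
    simp only
    rw [hk, kv_sub_same, sub_self, norm_zero, zero_pow two_ne_zero, add_zero]
    unfold av
    rw [Finset.sum_div]
    apply Finset.sum_congr rfl; intro b _
    rw [← smul_sub, norm_smul, mul_pow, Real.norm_eq_abs, sq_abs, div_pow, one_pow,
      Real.sq_sqrt hBp.le]
    ring
  have e2 : dT c cp ℓ ℓp τ τp θ θp (Sum.inl a) s (Sum.inl a') t ^ 2
      = av (fun b => ld (1 / (Fintype.card B : ℝ)) (fun i => ℓ (c a) / √2 * θ a (own τp s b) i)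
        (τ (own τp s b)) (fun i => ℓ (c a') / √2 * θ a' (own τp t b) i) (τ (own τp t b)) ^ 2) := by
    unfold dT
    rw [ld_sq w0_nonneg]
    have e3 : ∀ i : Bp × Y × B, lab2 (om c cp ℓ ℓp τp θ θp (Sum.inl a) s i / √2) (τ' τ s i)
        (om c cp ℓ ℓp τp θ θp (Sum.inl a') t i / √2) (τ' τ t i)
        = if i.2.1 = τp s.1 i.1 then lab2 (ℓ (c a) / √2 * θ a (own τp s i.1) i.2.2)
          (τ (own τp s i.1) i.2.2) (ℓ (c a') / √2 * θ a' (own τp t i.1) i.2.2)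
          (τ (own τp t i.1) i.2.2) else 0 := by
      intro i
      by_cases hi : i.2.1 = τp s.1 i.1
      · rw [if_pos hi]
        have hi' : i.2.1 = τp t.1 i.1 := by rw [← h.1]; exact hi
        unfold om τ'
        simp only
        rw [if_pos hi, if_pos hi']
        have g1 : s.2 (i.1, i.2.1) = own τp s i.1 := by unfold own; rw [← hi]
        have g2 : t.2 (i.1, i.2.1) = own τp t i.1 := by unfold own; rw [← hi']
        rw [g1, g2]
        congr 1 <;> ring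
      · rw [if_neg hi]
        have hi' : ¬ i.2.1 = τp t.1 i.1 := by rw [← h.1]; exact hi
        unfold om τ'
        simp only
        rw [if_neg hi, if_neg hi', h.2 (i.1, i.2.1) hi, lab2_same, hc, sub_self,
          zero_pow two_ne_zero]
    simp only [e3]
    rw [Fintype.sum_prod_type]
    have e4 : ∀ b : Bp, (∑ j : Y × B, if j.1 = τp s.1 b then
          lab2 (ℓ (c a) / √2 * θ a (own τp s b) j.2)
          (τ (own τp s b) j.2) (ℓ (c a') / √2 * θ a' (own τp t b) j.2)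
          (τ (own τp t b) j.2) else 0)
        = (Fintype.card B : ℝ) * ld (1 / (Fintype.card B : ℝ))
          (fun i => ℓ (c a) / √2 * θ a (own τp s b) i)
        (τ (own τp s b)) (fun i => ℓ (c a') / √2 * θ a' (own τp t b) i) (τ (own τp t b)) ^ 2 := by
      intro b
      rw [ld_sq (by positivity), Fintype.sum_prod_type, Finset.sum_eq_single (τp s.1 b)]
      · simp only [if_true]
        rw [← mul_assoc, mul_one_div_cancel hB.ne', one_mul]
      · intro y _ hy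
        simp only [if_neg hy, Finset.sum_const_zero]
      · intro h; exact absurd (Finset.mem_univ _) h
    simp only [e4]
    unfold av w0
    rw [← Finset.mul_sum]
    field_simp
  rw [e1, e2, ← av_add]
  congr 1; ext b
  unfold hd
  rw [hy_sq]

/-- positions: the distance is the distance of the positions -/
theorem hd'_sameB [Nonempty Y] (hpos : ∀ l, 0 < ℓ l + ℓp l) {b b' : Λp} (hc : cp b = cp b')
    {s t : Pt Sp Bp Y S} (h : s.2 = t.2) :
    hd (c' c cp) (ℓ' Y ℓ ℓp) (τ' τ) (θ' c cp ℓ ℓp τp θ θp) (κ' τp κ κp ζ)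
      (Sum.inr b) s (Sum.inr b') t = hd cp ℓp τp θp κp b s.1 b' t.1 := by
  have hB : (0:ℝ) < Fintype.card B := by exact_mod_cast Fintype.card_pos
  have hBp : (0:ℝ) < Fintype.card Bp := by exact_mod_cast Fintype.card_pos
  have h22 : √2 ^ 2 = (2:ℝ) := Real.sq_sqrt (by norm_num)
  rw [hd'_eq hpos]
  unfold hd
  congr 1
  · rw [← pow_left_inj₀ (dT_nonneg _ _ _ _) (ld_nonneg _ _ _ _ _) two_ne_zero]
    unfold dT
    rw [ld_sq w0_nonneg, ld_sq (by positivity)]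
    have e3 : ∀ i : Bp × Y × B, lab2 (om c cp ℓ ℓp τp θ θp (Sum.inr b) s i / √2) (τ' τ s i)
        (om c cp ℓ ℓp τp θ θp (Sum.inr b') t i / √2) (τ' τ t i)
        = ((if i.2.1 = τp s.1 i.1 then ℓp (cp b) / √2 * θp b s.1 i.1 else 0)
          - (if i.2.1 = τp t.1 i.1 then ℓp (cp b') / √2 * θp b' t.1 i.1 else 0)) ^ 2 := by
      intro i
      have g : τ' τ s i = τ' τ t i := by unfold τ'; rw [h]
      rw [g, lab2_same]
      unfold om
      simp only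
      rw [hc]
      split_ifs <;> ring
    simp only [e3]
    rw [Fintype.sum_prod_type]
    have e4 : ∀ β : Bp, (∑ j : Y × B, ((if j.1 = τp s.1 β then ℓp (cp b) / √2 * θp b s.1 β else 0)
          - (if j.1 = τp t.1 β then ℓp (cp b') / √2 * θp b' t.1 β else 0)) ^ 2)
        = (Fintype.card B : ℝ) * lab2 (ℓp (cp b) / √2 * θp b s.1 β) (τp s.1 β)
          (ℓp (cp b') / √2 * θp b' t.1 β) (τp t.1 β) := by
      intro β
      rw [Fintype.sum_prod_type]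
      have e5 : ∀ y : Y, (∑ _b0 : B, ((if y = τp s.1 β then ℓp (cp b) / √2 * θp b s.1 β else 0)
          - (if y = τp t.1 β then ℓp (cp b') / √2 * θp b' t.1 β else 0)) ^ 2)
          = (Fintype.card B : ℝ) * ((if y = τp s.1 β then ℓp (cp b) / √2 * θp b s.1 β else 0)
          - (if y = τp t.1 β then ℓp (cp b') / √2 * θp b' t.1 β else 0)) ^ 2 := by
        intro y
        rw [Finset.sum_const, Finset.card_univ, nsmul_eq_mul]
      simp only [e5]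
      rw [← Finset.mul_sum, sum_lv_sub_sq_one]
    simp only [e4]
    unfold w0
    rw [← Finset.mul_sum]
    field_simp
  · have hk : key (Λ := Λ) τp (Sum.inr b) s = key (Λ := Λ) τp (Sum.inr b') t := key_inr.mpr h
    rw [← pow_left_inj₀ (norm_nonneg _) (norm_nonneg _) two_ne_zero]
    unfold κ'
    simp only
    rw [hk, kv_sub_same]
    simp

end emb

end Pool.Agent.Lib.MP_caca3f_an.Sharp
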