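import Pool.Agent.Lib.MP_caca3f_an.Sharp.Basic

/-! Gadgets with merged classes: sheets, class lengths, soft labels. -/

namespace Pool.Agent.Lib.MP_caca3f_an.Sharp

open Finset

/-- the synchronous weighted Poincare inequality -/
def Poinc {S Λ : Type} [Fintype S] (ρ : S → Λ → S → Λ → ℝ) (η : ℝ) : Prop :=
  ∀ (O : Type) [Fintype O] [DecidableEq O] (c : O → ℝ), (∀ o, 0 ≤ c o) →
    ∀ (K : Type) [NormedAddCommGroup K] [InnerProductSpace ℝ K] (F : (O → S) → Λ → K),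
      (∀ s l t m, ‖F s l - F t m‖ ^ 2 ≤ ∑ o, c o * ρ (s o) l (t o) m ^ 2) →
      ∀ l, av (fun s => av fun t => ‖F s l - F t l‖ ^ 2) ≤ η ^ 2 * ∑ o, c o

/-- distance of the embedded points: soft labels and keys -/
noncomputable def hd {S B Y Λ Cl K : Type} [Fintype B] [Fintype Y] [DecidableEq Y]
    [NormedAddCommGroup K] [InnerProductSpace ℝ K] (c : Λ → Cl) (ℓ : Cl → ℝ) (τ : S → B → Y)
    (θ : Λ → S → B → ℝ) (κ : Λ → S → K) (a : Λ) (s : S) (b : Λ) (t : S) : ℝ :=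
  hy (ld (1 / (Fintype.card B : ℝ)) (fun i => ℓ (c a) / √2 * θ a s i) (τ s)
    (fun i => ℓ (c b) / √2 * θ b t i) (τ t)) ‖κ a s - κ b t‖

/-- the recursive data: `Λ` are the sheets, `Cl` the classes, `ℓ` the class lengths -/
structure IsG {S B Y Λ Cl K : Type} [Fintype S] [Fintype B] [Fintype Y] [DecidableEq Y]
    [AddGroup Y] [NormedAddCommGroup K] [InnerProductSpace ℝ K]
    (n a5 a6 : ℝ) (c : Λ → Cl) (ℓ : Cl → ℝ) (L R η : ℝ) (τ : S → B → Y) (σ : Y → S ≃ S)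
    (ρ : S → Λ → S → Λ → ℝ) (θ : Λ → S → B → ℝ) (κ : Λ → S → K) : Prop where
  flip : ∀ v s b, τ (σ v s) b = v + τ s b
  ρ_nonneg : ∀ s l t m, 0 ≤ ρ s l t m
  ρ_self : ∀ s l, ρ s l s l = 0
  ρ_symm : ∀ s l t m, ρ s l t m = ρ t m s l
  ρ_tri : ∀ s l t m u p, ρ s l u p ≤ ρ s l t m + ρ t m u p
  ρ_pos : ∀ s l t m, ρ s l t m = 0 → s = t ∧ l = m
  η_pos : 0 < η
  L_pos : 0 < L
  R_nonneg : 0 ≤ R
  L_le : ∀ l, L ≤ ℓ l
  le_nL : ∀ l, ℓ l ≤ n * L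
  L_att : ∃ l, ℓ l = L
  θ0 : ∀ a s b, 0 ≤ θ a s b
  θ1 : ∀ a s b, θ a s b ≤ 1
  θc : ∀ a s, ℓ (c a) * N2 (fun b => 1 - θ a s b) ≤ R
  κc : ∀ a s, ‖κ a s‖ ≤ R
  lab : ∀ s a t b, L * fr (τ s) (τ t) ≤ ρ s a t b + R
  up : ∀ a b s t, c a = c b → hd c ℓ τ θ κ a s b t ≤ a5 * ρ s a t b
  low : ∀ a b s t, c a = c b → ρ s a t b ≤ a6 * hd c ℓ τ θ κ a s b t
  po : Poinc ρ η

/-- there are gadgets with classes in `P`, class lengths `ℓ`, with minimum `L`, and Poincare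
constant `η` -/
def HasG {Cl : Type} (n : ℝ) (P : Finset Cl) (ℓ : Cl → ℝ) (L η : ℝ) : Prop :=
  ∀ (Y : Type) [Fintype Y] [DecidableEq Y] [AddGroup Y] (ε δ s : ℝ), 0 < ε → 0 < δ → 0 < s →
  ∃ (S B Λ K : Type) (_ : Fintype S) (_ : DecidableEq S) (_ : Nonempty S)
    (_ : Fintype B) (_ : DecidableEq B) (_ : Nonempty B)
    (_ : Fintype Λ) (_ : DecidableEq Λ) (_ : Nonempty Λ)
    (_ : NormedAddCommGroup K) (_ : InnerProductSpace ℝ K)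
    (c : Λ → Cl) (τ : S → B → Y) (σ : Y → S ≃ S) (ρ : S → Λ → S → Λ → ℝ)
    (θ : Λ → S → B → ℝ) (κ : Λ → S → K) (R : ℝ),
    (∀ a, c a ∈ P) ∧ R ≤ s * δ ∧
    IsG n (n * (1 + ε)) (1 + ε) c (fun l => s * ℓ l) (s * L) R (s * η) τ σ ρ θ κ

section pt

variable {Sp Bp Y S : Type}

/-- points of the next gadget: position, lamps -/
abbrev Pt (Sp Bp Y S : Type) := Sp × (Bp × Y → S)

/-- value of the own lamp -/
def own (τp : Sp → Bp → Y) (s : Pt Sp Bp Y S) (β : Bp) : S := s.2 (β, τp s.1 β)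

/-- equality of positions and of all lamps but the own ones -/
def SameA (τp : Sp → Bp → Y) (s t : Pt Sp Bp Y S) : Prop :=
  s.1 = t.1 ∧ ∀ p : Bp × Y, p.2 ≠ τp s.1 p.1 → s.2 p = t.2 p

end pt

end Pool.Agent.Lib.MP_caca3f_an.Sharp
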