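import Pool.Agent.Lib.MP_caca3f_an.Sharp.Iter

/-! Size of the gains `gg`. -/

namespace Pool.Agent.Lib.MP_caca3f_an.Sharp

open Finset Filter Topology

theorem gg_prod (D : ℝ) (m : ℕ) : gg D m = ∏ i ∈ range m, ((i : ℝ) + D) / ((i : ℝ) + 1) := by
  induction m with
  | zero => simp [gg]
  | succ m ih => rw [Finset.prod_range_succ, ← ih]; rfl

theorem gg_fact (D : ℝ) (m : ℕ) :
    ∏ j ∈ range (m + 1), (D + (j : ℝ)) = gg D m * (m.factorial : ℝ) * (D + m) := by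
  rw [Finset.prod_range_succ]
  congr 1
  induction m with
  | zero => simp [gg]
  | succ m ih =>
    rw [Finset.prod_range_succ, ih, Nat.factorial_succ,
      show gg D (m + 1) = gg D m * (((m : ℝ) + D) / ((m : ℝ) + 1)) from rfl]
    push_cast
    have : (m : ℝ) + 1 ≠ 0 := by positivity
    field_simp
    ring

theorem gg_ratio {D : ℝ} (hD : 1 ≤ D) (m : ℕ) (hm : 1 ≤ m) :
    gg D (m + 1) / ((m + 1 : ℕ) : ℝ) ^ (D - 1) ≤ gg D m / (m : ℝ) ^ (D - 1) := by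
  have hm0 : (0:ℝ) < m := by exact_mod_cast hm
  have hg := gg_pos hD m
  have hx : 0 ≤ D - 1 := by linarith
  have key : ((m : ℝ) + D) / ((m : ℝ) + 1) ≤ (((m : ℝ) + 1) / m) ^ (D - 1) := by
    have h1 : ((m : ℝ) + D) / ((m : ℝ) + 1) = 1 + (D - 1) / ((m : ℝ) + 1) := by
      field_simp; ring
    have h2 : 1 / ((m : ℝ) + 1) ≤ Real.log (((m : ℝ) + 1) / m) := by
      have h3 := Real.one_sub_inv_le_log_of_pos (x := ((m : ℝ) + 1) / m) (by positivity)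
      refine le_trans (le_of_eq ?_) h3
      field_simp
      ring
    rw [Real.rpow_def_of_pos (by positivity), h1]
    have h4 := Real.add_one_le_exp ((D - 1) / ((m : ℝ) + 1))
    have h5 : (D - 1) / ((m : ℝ) + 1) ≤ Real.log (((m : ℝ) + 1) / m) * (D - 1) := by
      calc (D - 1) / ((m : ℝ) + 1) = 1 / ((m : ℝ) + 1) * (D - 1) := by ring
        _ ≤ _ := mul_le_mul_of_nonneg_right h2 hx
    have h6 := Real.exp_le_exp.mpr h5
    linarith
  rw [Real.div_rpow (by positivity) hm0.le] at key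
  have e1 : gg D (m + 1) = gg D m * (((m : ℝ) + D) / ((m : ℝ) + 1)) := rfl
  rw [e1]
  push_cast
  rw [div_le_div_iff₀ (by positivity) (by positivity)]
  rw [le_div_iff₀ (by positivity)] at key
  calc gg D m * (((m : ℝ) + D) / ((m : ℝ) + 1)) * (m : ℝ) ^ (D - 1)
      = gg D m * (((m : ℝ) + D) / ((m : ℝ) + 1) * (m : ℝ) ^ (D - 1)) := by ring
    _ ≤ gg D m * ((m : ℝ) + 1) ^ (D - 1) := mul_le_mul_of_nonneg_left key hg.le

theorem gg_tendsto {D : ℝ} (hD : 1 ≤ D) :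
    Tendsto (fun m : ℕ => gg D (m + 1) / ((m + 1 : ℕ) : ℝ) ^ (D - 1)) atTop
      (𝓝 (1 / Real.Gamma D)) := by
  have hG : 0 < Real.Gamma D := Real.Gamma_pos_of_pos (by linarith)
  have h1 : Tendsto (fun m : ℕ => ((m : ℝ) / (D + m)) / Real.GammaSeq D m) atTop
      (𝓝 (1 / Real.Gamma D)) := by
    apply Tendsto.div _ (Real.GammaSeq_tendsto_Gamma D) hG.ne'
    have := tendsto_natCast_div_add_atTop (𝕜 := ℝ) D
    refine this.congr fun m => ?_
    rw [add_comm]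
  have h2 := (tendsto_add_atTop_iff_nat 1).mpr h1
  refine h2.congr fun m => ?_
  have hm0 : (0:ℝ) < ((m + 1 : ℕ) : ℝ) := by exact_mod_cast Nat.succ_pos m
  have hg := gg_pos hD (m + 1)
  have hf : (0:ℝ) < ((m + 1).factorial : ℝ) := by exact_mod_cast Nat.factorial_pos _
  unfold Real.GammaSeq
  rw [gg_fact D (m + 1)]
  have h3 : ((m + 1 : ℕ) : ℝ) ^ D = ((m + 1 : ℕ) : ℝ) ^ (D - 1) * ((m + 1 : ℕ) : ℝ) := by
    rw [← Real.rpow_add_one hm0.ne']; congr 1; ring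
  rw [h3]
  have h4 : (0:ℝ) < ((m + 1 : ℕ) : ℝ) ^ (D - 1) := Real.rpow_pos_of_pos hm0 _
  have h5 : 0 < D + ((m + 1 : ℕ) : ℝ) := by linarith
  field_simp

/-- `k^(D-1)/Γ(D) ≤ D (D+1)/2 … (D+k-1)/k` -/
theorem gg_ge {D : ℝ} (hD : 1 ≤ D) (k : ℕ) (hk : 1 ≤ k) :
    (k : ℝ) ^ (D - 1) / Real.Gamma D ≤ gg D k := by
  have hk0 : (0:ℝ) < k := by exact_mod_cast hk
  have hanti : Antitone (fun m : ℕ => gg D (m + 1) / ((m + 1 : ℕ) : ℝ) ^ (D - 1)) :=
    antitone_nat_of_succ_le fun m => gg_ratio hD (m + 1) (by omega)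
  have h1 := hanti.le_of_tendsto (gg_tendsto hD) (k - 1)
  simp only [Nat.sub_add_cancel hk] at h1
  rw [le_div_iff₀ (by positivity)] at h1
  calc (k : ℝ) ^ (D - 1) / Real.Gamma D = 1 / Real.Gamma D * (k : ℝ) ^ (D - 1) := by ring
    _ ≤ _ := h1

end Pool.Agent.Lib.MP_caca3f_an.Sharp
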