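import Pool.Agent.Lib.MP_caca3f_an.Sharp.Basic

/-! Gluing a cost inside the fibres with a coarse pseudometric. -/

namespace Pool.Agent.Lib.MP_caca3f_an.Sharp

open Finset

set_option linter.unusedSectionVars false

section glue

variable {P κ : Type} [Finite P] {key : P → κ} {cc dd : P → P → ℝ} {E ζ : ℝ}

/-- what is needed for the gluing -/
structure GH (key : P → κ) (cc dd : P → P → ℝ) (E : ℝ) : Prop where
  c0 : ∀ p q, 0 ≤ cc p q
  cs : ∀ p, cc p p = 0
  cy : ∀ p q, key p = key q → cc p q = cc q p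
  ct : ∀ p q r, key p = key q → key q = key r → cc p r ≤ cc p q + cc q r
  d0 : ∀ p q, 0 ≤ dd p q
  ds : ∀ p, dd p p = 0
  dy : ∀ p q, dd p q = dd q p
  dt : ∀ p q r, dd p r ≤ dd p q + dd q r
  E0 : 0 ≤ E
  dE : ∀ p q, key p = key q → dd p q ≤ cc p q + E

/-- pairs of points in given fibres -/
abbrev Fib (key : P → κ) (p q : P) : Type := {z : P × P // key z.1 = key p ∧ key z.2 = key q}

/-- the coarse pseudometric made Lipschitz along the fibres -/
noncomputable def dtl (key : P → κ) (cc dd : P → P → ℝ) (p q : P) : ℝ :=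
  ⨅ z : Fib key p q, (cc p z.1.1 + dd z.1.1 z.1.2 + cc z.1.2 q)

theorem dtl_bdd (G : GH key cc dd E) (p q : P) :
    BddBelow (Set.range fun z : Fib key p q => (cc p z.1.1 + dd z.1.1 z.1.2 + cc z.1.2 q)) := by
  refine ⟨0, ?_⟩
  rintro _ ⟨z, rfl⟩
  have h1 := G.c0 p z.1.1
  have h2 := G.d0 z.1.1 z.1.2
  have h3 := G.c0 z.1.2 q
  simp only
  linarith

theorem dtl_le (G : GH key cc dd E) {p q p' q' : P} (hp : key p' = key p) (hq : key q' = key q) :
    dtl key cc dd p q ≤ cc p p' + dd p' q' + cc q' q :=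
  ciInf_le (dtl_bdd G p q) ⟨(p', q'), hp, hq⟩

theorem dtl_att (p q : P) : ∃ p' q', key p' = key p ∧ key q' = key q ∧
    dtl key cc dd p q = cc p p' + dd p' q' + cc q' q := by
  have : Nonempty (Fib key p q) := ⟨⟨(p, q), rfl, rfl⟩⟩
  obtain ⟨z, hz⟩ := exists_eq_ciInf_of_finite
    (f := fun z : Fib key p q => (cc p z.1.1 + dd z.1.1 z.1.2 + cc z.1.2 q))
  exact ⟨z.1.1, z.1.2, z.2.1, z.2.2, hz.symm⟩

theorem dtl_le_dd (G : GH key cc dd E) (p q : P) : dtl key cc dd p q ≤ dd p q := by
  have := dtl_le G (p := p) (q := q) (p' := p) (q' := q) rfl rfl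
  rw [G.cs, G.cs] at this
  linarith

theorem dd_le_dtl (G : GH key cc dd E) (p q : P) : dd p q ≤ dtl key cc dd p q + 2 * E := by
  obtain ⟨p', q', hp, hq, h⟩ := dtl_att (key := key) (cc := cc) (dd := dd) p q
  rw [h]
  have h1 := G.dE p p' hp.symm
  have h2 := G.dE q' q hq
  have h3 := G.dt p p' q
  have h4 := G.dt p' q' q
  linarith

theorem dtl_nonneg (G : GH key cc dd E) (p q : P) : 0 ≤ dtl key cc dd p q := by
  obtain ⟨p', q', hp, hq, h⟩ := dtl_att (key := key) (cc := cc) (dd := dd) p q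
  rw [h]
  have h1 := G.c0 p p'
  have h2 := G.d0 p' q'
  have h3 := G.c0 q' q
  linarith

theorem dtl_symm_le (G : GH key cc dd E) (p q : P) : dtl key cc dd p q ≤ dtl key cc dd q p := by
  obtain ⟨q', p', hq, hp, h⟩ := dtl_att (key := key) (cc := cc) (dd := dd) q p
  rw [h]
  refine (dtl_le G hp hq).trans ?_
  rw [G.cy p p' hp.symm, G.cy q' q hq, G.dy p' q']
  linarith

theorem dtl_symm (G : GH key cc dd E) (p q : P) : dtl key cc dd p q = dtl key cc dd q p :=
  le_antisymm (dtl_symm_le G p q) (dtl_symm_le G q p)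

theorem dtl_lip (G : GH key cc dd E) {p p' : P} (hp : key p = key p') (q : P) :
    dtl key cc dd p q ≤ cc p p' + dtl key cc dd p' q := by
  obtain ⟨p1, q1, hp1, hq1, h⟩ := dtl_att (key := key) (cc := cc) (dd := dd) p' q
  rw [h]
  have h1 := dtl_le G (p := p) (q := q) (hp1.trans hp.symm) hq1
  have h2 := G.ct p p' p1 hp hp1.symm
  linarith

theorem dtl_tri (G : GH key cc dd E) (p q r : P) :
    dtl key cc dd p r ≤ dtl key cc dd p q + dtl key cc dd q r + 4 * E := by
  have h1 := dtl_le_dd G p r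
  have h2 := G.dt p q r
  have h3 := dd_le_dtl G p q
  have h4 := dd_le_dtl G q r
  linarith

/-- the distance of points in different fibres -/
noncomputable def bb (key : P → κ) (cc dd : P → P → ℝ) (E ζ : ℝ) (p q : P) : ℝ :=
  hy ζ (dtl key cc dd p q) + 4 * E

open Classical in
/-- the glued metric -/
noncomputable def gl (key : P → κ) (cc dd : P → P → ℝ) (E ζ : ℝ) (p q : P) : ℝ :=
  if key p = key q then min (cc p q) (bb key cc dd E ζ p q) else bb key cc dd E ζ p q

theorem gl_same {p q : P} (h : key p = key q) :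
    gl key cc dd E ζ p q = min (cc p q) (bb key cc dd E ζ p q) := by
  unfold gl; rw [if_pos h]

theorem gl_diff {p q : P} (h : key p ≠ key q) : gl key cc dd E ζ p q = bb key cc dd E ζ p q := by
  unfold gl; rw [if_neg h]

theorem gl_le_bb (p q : P) : gl key cc dd E ζ p q ≤ bb key cc dd E ζ p q := by
  unfold gl; split_ifs
  · exact min_le_right _ _
  · exact le_rfl

theorem gl_le_cost {p q : P} (h : key p = key q) : gl key cc dd E ζ p q ≤ cc p q := by
  rw [gl_same h]; exact min_le_left _ _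

theorem bb_le (G : GH key cc dd E) (p q : P) : bb key cc dd E ζ p q ≤ hy ζ (dd p q) + 4 * E := by
  unfold bb
  have := hy_mono_right (a := ζ) (dtl_nonneg G p q) (dtl_le_dd G p q)
  linarith

theorem gl_le (G : GH key cc dd E) (p q : P) : gl key cc dd E ζ p q ≤ hy ζ (dd p q) + 4 * E :=
  (gl_le_bb p q).trans (bb_le G p q)

theorem bb_ge (G : GH key cc dd E) (p q : P) : dd p q ≤ bb key cc dd E ζ p q + 2 * E := by
  have h1 := dd_le_dtl G p q
  have h2 : dtl key cc dd p q ≤ hy ζ (dtl key cc dd p q) := right_le_hy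
  have h3 := G.E0
  unfold bb
  linarith

theorem dd_le_gl (G : GH key cc dd E) (p q : P) : dd p q ≤ gl key cc dd E ζ p q + 2 * E := by
  have h1 := bb_ge (ζ := ζ) G p q
  have h3 := G.E0
  by_cases h : key p = key q
  · rw [gl_same h]
    have h2 := G.dE p q h
    rcases min_cases (cc p q) (bb key cc dd E ζ p q) with ⟨e1, _⟩ | ⟨e1, _⟩ <;> rw [e1] <;> linarith
  · rw [gl_diff h]; exact h1

theorem bb_nonneg (G : GH key cc dd E) (p q : P) : 0 ≤ bb key cc dd E ζ p q := by
  unfold bb
  have h1 := hy_nonneg ζ (dtl key cc dd p q)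
  have h3 := G.E0
  linarith

theorem bb_pos (G : GH key cc dd E) (hζ : 0 < ζ) (p q : P) : 0 < bb key cc dd E ζ p q := by
  unfold bb
  have h1 : ζ ≤ hy ζ (dtl key cc dd p q) := left_le_hy
  have h3 := G.E0
  linarith

theorem gl_nonneg (G : GH key cc dd E) (p q : P) : 0 ≤ gl key cc dd E ζ p q := by
  by_cases h : key p = key q
  · rw [gl_same h]; exact le_min (G.c0 _ _) (bb_nonneg G _ _)
  · rw [gl_diff h]; exact bb_nonneg G _ _

theorem gl_self (G : GH key cc dd E) (p : P) : gl key cc dd E ζ p p = 0 := by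
  rw [gl_same rfl, G.cs, min_eq_left (bb_nonneg G _ _)]

theorem bb_symm (G : GH key cc dd E) (p q : P) :
    bb key cc dd E ζ p q = bb key cc dd E ζ q p := by
  unfold bb; rw [dtl_symm G]

theorem gl_symm (G : GH key cc dd E) (p q : P) :
    gl key cc dd E ζ p q = gl key cc dd E ζ q p := by
  by_cases h : key p = key q
  · rw [gl_same h, gl_same h.symm, G.cy p q h, bb_symm G]
  · rw [gl_diff h, gl_diff (Ne.symm h), bb_symm G]

theorem bb_tri (G : GH key cc dd E) (p q r : P) :
    bb key cc dd E ζ p r ≤ bb key cc dd E ζ p q + bb key cc dd E ζ q r := by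
  unfold bb
  have h1 := dtl_tri G p q r
  have h2 := hy_mono_right (a := ζ) (dtl_nonneg G p r) h1
  have hE := G.E0
  have h3 := hy_add_right (a := ζ) (b := dtl key cc dd p q + dtl key cc dd q r)
    (b' := 4 * E) (by linarith)
  have h4 := hy_add_right (a := ζ) (b := dtl key cc dd p q) (dtl_nonneg G q r)
  have h5 : dtl key cc dd q r ≤ hy ζ (dtl key cc dd q r) := right_le_hy
  linarith

theorem bb_lip (G : GH key cc dd E) {p q : P} (h : key p = key q) (r : P) :
    bb key cc dd E ζ p r ≤ cc p q + bb key cc dd E ζ q r := by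
  unfold bb
  have h1 := dtl_lip G h r
  have h2 := hy_mono_right (a := ζ) (dtl_nonneg G p r) h1
  have h3 := hy_add_right (a := ζ) (b := dtl key cc dd q r) (G.c0 p q)
  rw [add_comm (dtl key cc dd q r)] at h3
  linarith

theorem bb_lip' (G : GH key cc dd E) (p : P) {q r : P} (h : key q = key r) :
    bb key cc dd E ζ p r ≤ bb key cc dd E ζ p q + cc q r := by
  have := bb_lip (ζ := ζ) G h.symm p
  rw [bb_symm G p r, bb_symm G p q, G.cy q r h]
  linarith

theorem gl_tri (G : GH key cc dd E) (p q r : P) :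
    gl key cc dd E ζ p r ≤ gl key cc dd E ζ p q + gl key cc dd E ζ q r := by
  have h0 := gl_le_bb (key := key) (cc := cc) (dd := dd) (E := E) (ζ := ζ) p r
  have h1 := bb_tri (ζ := ζ) G p q r
  by_cases hpq : key p = key q
  · have h2 := bb_lip (ζ := ζ) G hpq r
    by_cases hqr : key q = key r
    · have h3 := bb_lip' (ζ := ζ) G p hqr
      have h4 := G.ct p q r hpq hqr
      have h5 := gl_le_cost (cc := cc) (dd := dd) (E := E) (ζ := ζ) (hpq.trans hqr)
      rw [gl_same hpq, gl_same hqr]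
      rcases min_cases (cc p q) (bb key cc dd E ζ p q) with ⟨e1, _⟩ | ⟨e1, _⟩ <;>
      rcases min_cases (cc q r) (bb key cc dd E ζ q r) with ⟨e2, _⟩ | ⟨e2, _⟩ <;>
      rw [e1, e2] <;> linarith
    · rw [gl_same hpq, gl_diff hqr]
      rcases min_cases (cc p q) (bb key cc dd E ζ p q) with ⟨e1, _⟩ | ⟨e1, _⟩ <;> rw [e1] <;>
        linarith
  · rw [gl_diff hpq]
    by_cases hqr : key q = key r
    · have h3 := bb_lip' (ζ := ζ) G p hqr
      rw [gl_same hqr]
      rcases min_cases (cc q r) (bb key cc dd E ζ q r) with ⟨e1, _⟩ | ⟨e1, _⟩ <;> rw [e1] <;>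
        linarith
    · rw [gl_diff hqr]; linarith

theorem gl_pos (G : GH key cc dd E) (hζ : 0 < ζ)
    (hc : ∀ p q, key p = key q → cc p q = 0 → p = q) (p q : P)
    (h : gl key cc dd E ζ p q = 0) : p = q := by
  have h0 := bb_pos G hζ p q
  by_cases hk : key p = key q
  · rw [gl_same hk] at h
    rcases min_cases (cc p q) (bb key cc dd E ζ p q) with ⟨e1, _⟩ | ⟨e1, _⟩
    · rw [e1] at h; exact hc p q hk h
    · rw [e1] at h; linarith
  · rw [gl_diff hk] at h; linarith

end glue

end Pool.Agent.Lib.MP_caca3f_an.Sharp
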