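import Pool.Agent.Lib.MP_caca3f_an.Sharp.StepG
import Pool.Agent.Lib.MP_caca3f_an.Sharp.Base

/-! Existence of gadgets: sums, scaling, and the induction on the number of classes. -/

namespace Pool.Agent.Lib.MP_caca3f_an.Sharp

open Finset

set_option linter.unusedSectionVars false

/-- the step for the existence of gadgets -/
theorem HasG.step {Cl : Type} [DecidableEq Cl] {n : ℝ} {P P1 : Finset Cl} {ℓ ℓp : Cl → ℝ}
    {L Lp η ηp lam η' : ℝ} (hn : 1 ≤ n) (hL : 0 < L) (hLp : 0 < Lp)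
    (h1 : HasG n P ℓ L η) (h2 : HasG n P1 ℓp Lp ηp)
    (hL1 : ∀ l, L ≤ ℓ l) (hL2 : ∀ l, Lp ≤ ℓp l)
    (hlam : ∀ l, lam ≤ ℓ l + ℓp l) (hatt : ∃ l, ℓ l + ℓp l = lam)
    (hle : ∀ l, ℓ l + ℓp l ≤ n * lam) (hη' : η + ηp < η') :
    HasG n (P ∪ P1) (fun l => ℓ l + ℓp l) lam η' := by
  intro Y' _ _ _ ε δ s hε hδ hs
  have hCl : Nonempty Cl := ⟨hatt.choose⟩
  have hlam0 : 0 < lam := by
    obtain ⟨l, hl⟩ := hatt
    have := hL1 l
    have := hL2 l
    linarith
  set gap := η' - (η + ηp) with hgap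
  have hgap0 : 0 < gap := by rw [hgap]; linarith
  obtain ⟨m, hm1, -⟩ := exists_M (max (2 * (√2 * lam ^ 2 / L) / δ)
    (max (n * lam / δ) (2 * (√2 * ηp) / gap))) 0
  have hcard : (Fintype.card (ZMod (m + 1)) : ℝ) = ((m + 1 : ℕ) : ℝ) := by
    rw [ZMod.card]
  set μ := √((m + 1 : ℕ) : ℝ) with hμ
  have hμ0 : 0 < μ := by
    apply Real.sqrt_pos.mpr
    exact_mod_cast Nat.succ_pos m
  have hm2 := (le_max_left _ _).trans hm1
  have hm3 := (le_max_left _ _).trans ((le_max_right _ _).trans hm1)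
  have hm4 := (le_max_right _ _).trans ((le_max_right _ _).trans hm1)
  rw [div_le_iff₀ hδ] at hm2 hm3
  rw [div_le_iff₀ hgap0] at hm4
  set s0 := s / μ with hs0
  have hs00 : 0 < s0 := by positivity
  have hsμ : μ * s0 = s := by rw [hs0]; field_simp
  set ζ := min (s * δ / 4) (s * gap / (8 * (2 * μ + 6))) with hζ
  have hζ0 : 0 < ζ := by
    rw [hζ]; apply lt_min <;> positivity
  have hζ1 : ζ ≤ s * δ / 4 := min_le_left _ _
  have hζ2 : ζ * (8 * (2 * μ + 6)) ≤ s * gap := by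
    rw [← le_div_iff₀ (by positivity)]; exact min_le_right _ _
  set e := min (ε * ζ / 6) (ζ / 4) with he
  have he0 : 0 < e := by rw [he]; apply lt_min <;> positivity
  have he1 : e ≤ ε * ζ / 6 := min_le_left _ _
  have he2 : e ≤ ζ / 4 := min_le_right _ _
  obtain ⟨S, B, Λ, K, _, _, _, _, _, _, _, _, _, _, _, c, τ, σ, ρ, θ, κ, R, hP, hR, G⟩ :=
    h1 Y' ε (e / (2 * s0)) s0 hε (by positivity) hs00
  obtain ⟨Sp, Bp, Λp, Kp, _, _, _, _, _, _, _, _, _, _, _, cp, τp, σp, ρp, θp, κp, Rp, hPp, hRp,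
    Gp⟩ := h2 (ZMod (m + 1)) ε (e / (2 * s0)) s0 hε (by positivity) hs00
  have hR' : R ≤ e / 2 := by
    have : s0 * (e / (2 * s0)) = e / 2 := by field_simp
    linarith
  have hRp' : Rp ≤ e / 2 := by
    have : s0 * (e / (2 * s0)) = e / 2 := by field_simp
    linarith
  have hR0 := G.R_nonneg
  have hRp0 := Gp.R_nonneg
  have hE : R + Rp ≤ e := by linarith
  have N : Num n ε ζ R Rp := ⟨hn, hε, hζ0, by linarith⟩
  have hsc : ∀ l, s0 * ℓ l + s0 * ℓp l = s0 * (ℓ l + ℓp l) := fun l => by ring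
  have key := step_gadget (lam := s0 * lam) (R' := s * δ) (η' := s * η') G Gp N
    (fun l => by rw [hsc]; exact mul_le_mul_of_nonneg_left (hlam l) hs00.le)
    (by
      obtain ⟨l, hl⟩ := hatt
      exact ⟨l, by rw [hsc, hl]⟩)
    (fun l => by
      rw [hsc]
      have := mul_le_mul_of_nonneg_left (hle l) hs00.le
      linarith)
    (by
      have e1 : √2 * (s0 * lam) ^ 2 / (s0 * L) = s0 * (√2 * lam ^ 2 / L) := by
        field_simp
      rw [e1]
      have e2 : s0 * (2 * (√2 * lam ^ 2 / L)) ≤ s0 * (μ * δ) :=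
        mul_le_mul_of_nonneg_left hm2 hs00.le
      have e3 : s0 * (μ * δ) = s * δ := by rw [← hsμ]; ring
      rw [e3] at e2
      have e4 : 0 < s * δ := by positivity
      linarith)
    (by
      have e2 : s0 * (n * lam) ≤ s0 * (μ * δ) :=
        mul_le_mul_of_nonneg_left hm3 hs00.le
      have e3 : s0 * (μ * δ) = s * δ := by rw [← hsμ]; ring
      rw [e3] at e2
      linarith)
    (by
      have e4 : 0 < s * δ := by positivity
      linarith)
    (by
      rw [hcard, ← hμ]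
      set Z := ζ + 4 * (R + Rp) with hZ
      have hZ0 : 0 ≤ Z := by positivity
      have hZ1 : Z ≤ 2 * ζ := by linarith
      have h22 : √2 ≤ 2 := by
        rw [show (2:ℝ) = √4 by rw [show (4:ℝ) = 2 ^ 2 by norm_num, Real.sqrt_sq (by norm_num)]]
        apply Real.sqrt_le_sqrt
        rw [show √4 = 2 by rw [show (4:ℝ) = 2 ^ 2 by norm_num, Real.sqrt_sq (by norm_num)]]
        norm_num
      have e1 : μ * (s0 * η + (s0 * ηp + 2 * Z)) = s * (η + ηp) + 2 * μ * Z := by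
        rw [← hsμ]; ring
      have e2 : √2 * (s0 * ηp + 2 * Z) ≤ √2 * (s0 * ηp) + 4 * Z := by
        have : √2 * (2 * Z) ≤ 2 * (2 * Z) := mul_le_mul_of_nonneg_right h22 (by positivity)
        linarith
      have e3 : s0 * (2 * (√2 * ηp)) ≤ s0 * (μ * gap) := mul_le_mul_of_nonneg_left hm4 hs00.le
      have e4 : s0 * (μ * gap) = s * gap := by rw [← hsμ]; ring
      have e5 : Z * (2 * μ + 6) ≤ 2 * ζ * (2 * μ + 6) :=
        mul_le_mul_of_nonneg_right hZ1 (by positivity)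
      have e6 : s * η' = s * (η + ηp) + s * gap := by rw [hgap]; ring
      rw [e1, e6]
      rw [e4] at e3
      have e7 : 0 < s * gap := by positivity
      have e8 : √2 * (s0 * ηp) ≤ s * gap / 2 := by linarith
      nlinarith)
    (Classical.arbitrary Λ) (Classical.arbitrary Λp)
  have hℓ : ℓ' (ZMod (m + 1)) (fun l => s0 * ℓ l) (fun l => s0 * ℓp l)
      = fun l => s * (ℓ l + ℓp l) := by
    ext l
    unfold ℓ'
    rw [hcard, ← hμ, hsc, ← mul_assoc, hsμ]
  have hlam' : √(Fintype.card (ZMod (m + 1)) : ℝ) * (s0 * lam) = s * lam := by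
    rw [hcard, ← hμ, ← mul_assoc, hsμ]
  rw [hℓ, hlam'] at key
  refine ⟨Pt Sp Bp (ZMod (m + 1)) S, Bp × ZMod (m + 1) × B, Λ ⊕ Λp,
      KK Bp K Kp (KEY Sp Bp (ZMod (m + 1)) S), inferInstance, Classical.decEq _,
      inferInstance, inferInstance, inferInstance, inferInstance, inferInstance, inferInstance,
      inferInstance, inferInstance, inferInstance, c' c cp, _, _, _, _, _, _, ?_, le_rfl, key⟩
  rintro (a | b)
  · exact Finset.mem_union_left _ (hP a)
  · exact Finset.mem_union_right _ (hPp b)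

theorem HasG.scale {Cl : Type} {n : ℝ} {P : Finset Cl} {ℓ : Cl → ℝ} {L η t : ℝ} (ht : 0 < t)
    (h : HasG n P ℓ L η) : HasG n P (fun l => t * ℓ l) (t * L) (t * η) := by
  intro Y _ _ _ ε δ s hε hδ hs
  obtain ⟨S, B, Λ, K, i1, i2, i3, i4, i5, i6, i7, i8, i9, i10, i11, c, τ, σ, ρ, θ, κ, R, hP, hR,
    G⟩ := h Y ε (δ / t) (s * t) hε (by positivity) (by positivity)
  refine ⟨S, B, Λ, K, i1, i2, i3, i4, i5, i6, i7, i8, i9, i10, i11, c, τ, σ, ρ, θ, κ, R, hP, ?_, ?_⟩
  · have : s * t * (δ / t) = s * δ := by field_simp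
    linarith
  · have e1 : (fun l => s * (t * ℓ l)) = fun l => s * t * ℓ l := by ext l; ring
    have e2 : s * (t * L) = s * t * L := by ring
    have e3 : s * (t * η) = s * t * η := by ring
    rw [e1, e2, e3]; exact G

theorem HasG.raise {Cl : Type} {n : ℝ} {P : Finset Cl} {ℓ ℓ1 : Cl → ℝ} {L η : ℝ}
    (h : HasG n P ℓ L η) (h1 : ∀ l ∈ P, ℓ1 l = ℓ l) (h2 : ∀ l, L ≤ ℓ1 l) (h3 : ∀ l, ℓ1 l ≤ n * L)
    (h4 : ∃ l, ℓ1 l = L) : HasG n P ℓ1 L η := by
  intro Y _ _ _ ε δ s hε hδ hs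
  obtain ⟨S, B, Λ, K, i1, i2, i3, i4, i5, i6, i7, i8, i9, i10, i11, c, τ, σ, ρ, θ, κ, R, hP, hR,
    G⟩ := h Y ε δ s hε hδ hs
  refine ⟨S, B, Λ, K, i1, i2, i3, i4, i5, i6, i7, i8, i9, i10, i11, c, τ, σ, ρ, θ, κ, R, hP, hR,
    ?_⟩
  have hc : ∀ a, ℓ1 (c a) = ℓ (c a) := fun a => h1 _ (hP a)
  have hhd : ∀ a s' b t, hd c (fun l => s * ℓ1 l) τ θ κ a s' b t
      = hd c (fun l => s * ℓ l) τ θ κ a s' b t := by
    intro a s' b t
    unfold hd
    simp only [hc]
  exact { G with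
    L_le := fun l => mul_le_mul_of_nonneg_left (h2 l) hs.le
    le_nL := fun l => by
      have := mul_le_mul_of_nonneg_left (h3 l) hs.le
      linarith
    L_att := by
      obtain ⟨l, hl⟩ := h4
      exact ⟨l, by simp only [hl]⟩
    θc := fun a s' => by
      have := G.θc a s'
      simp only [hc]
      exact this
    up := fun a b s' t hab => by rw [hhd]; exact G.up a b s' t hab
    low := fun a b s' t hab => by rw [hhd]; exact G.low a b s' t hab }

theorem Poinc.mono {S Λ : Type} [Fintype S] {ρ : S → Λ → S → Λ → ℝ} {η η' : ℝ} (hη : 0 ≤ η)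
    (h : η ≤ η') (hp : Poinc ρ η) : Poinc ρ η' := by
  intro O _ _ c hc K _ _ F hF l
  refine (hp O c hc K F hF l).trans ?_
  apply mul_le_mul_of_nonneg_right _ (Finset.sum_nonneg fun o _ => hc o)
  exact pow_le_pow_left₀ hη h 2

theorem HasG.mono_η {Cl : Type} {n : ℝ} {P : Finset Cl} {ℓ : Cl → ℝ} {L η η' : ℝ}
    (hη : η ≤ η') (h : HasG n P ℓ L η) : HasG n P ℓ L η' := by
  intro Y _ _ _ ε δ s hε hδ hs
  obtain ⟨S, B, Λ, K, i1, i2, i3, i4, i5, i6, i7, i8, i9, i10, i11, c, τ, σ, ρ, θ, κ, R, hP, hR,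
    G⟩ := h Y ε δ s hε hδ hs
  refine ⟨S, B, Λ, K, i1, i2, i3, i4, i5, i6, i7, i8, i9, i10, i11, c, τ, σ, ρ, θ, κ, R, hP, hR,
    ?_⟩
  have h1 := G.η_pos
  have h2 : s * η ≤ s * η' := mul_le_mul_of_nonneg_left hη hs.le
  exact { G with
    η_pos := h1.trans_le h2
    po := G.po.mono h1.le h2 }

theorem HasG.mono_P {Cl : Type} {n : ℝ} {P P' : Finset Cl} {ℓ : Cl → ℝ} {L η : ℝ}
    (hP' : P ⊆ P') (h : HasG n P ℓ L η) : HasG n P' ℓ L η := by
  intro Y _ _ _ ε δ s hε hδ hs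
  obtain ⟨S, B, Λ, K, i1, i2, i3, i4, i5, i6, i7, i8, i9, i10, i11, c, τ, σ, ρ, θ, κ, R, hP, hR,
    G⟩ := h Y ε δ s hε hδ hs
  exact ⟨S, B, Λ, K, i1, i2, i3, i4, i5, i6, i7, i8, i9, i10, i11, c, τ, σ, ρ, θ, κ, R,
    fun a => hP' (hP a), hR, G⟩

/-- robust existence of gadgets -/
structure Good {Cl : Type} (n : ℝ) (P : Finset Cl) (ℓ : Cl → ℝ) (L η : ℝ) : Prop where
  L0 : 0 < L
  η0 : 0 < η
  Lle : ∀ l, L ≤ ℓ l
  len : ∀ l, ℓ l ≤ n * L
  att : ∃ l, ℓ l = L
  has : ∀ η', η < η' → HasG n P ℓ L η'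

theorem Good.add {Cl : Type} [DecidableEq Cl] [Finite Cl] {n : ℝ} {P P1 : Finset Cl}
    {ℓ ℓp : Cl → ℝ} {L Lp η ηp : ℝ} (hn : 1 ≤ n) (h : Good n P ℓ L η) (h1 : Good n P1 ℓp Lp ηp) :
    ∃ L', Good n (P ∪ P1) (fun l => ℓ l + ℓp l) L' (η + ηp) := by
  have hCl : Nonempty Cl := ⟨h.att.choose⟩
  obtain ⟨l0, hl0⟩ := Finite.exists_min (fun l => ℓ l + ℓp l)
  have hL := h.L0
  have hLp := h1.L0
  have a1 := h.Lle l0
  have a2 := h1.Lle l0
  have hle : ∀ l, ℓ l + ℓp l ≤ n * (ℓ l0 + ℓp l0) := fun l => by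
    have := h.len l
    have := h1.len l
    have h2 : n * (L + Lp) ≤ n * (ℓ l0 + ℓp l0) :=
      mul_le_mul_of_nonneg_left (by linarith) (by linarith)
    linarith
  refine ⟨ℓ l0 + ℓp l0, by linarith, add_pos h.η0 h1.η0, hl0, hle, ⟨l0, rfl⟩, ?_⟩
  intro η' hη'
  have hη := h.η0
  have hηp := h1.η0
  exact HasG.step (η := η + (η' - (η + ηp)) / 4) (ηp := ηp + (η' - (η + ηp)) / 4) hn
    hL hLp (h.has _ (by linarith)) (h1.has _ (by linarith))
    h.Lle h1.Lle hl0 ⟨l0, rfl⟩ hle (by linarith)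

theorem Good.scale {Cl : Type} {n : ℝ} {P : Finset Cl} {ℓ : Cl → ℝ} {L η t : ℝ} (ht : 0 < t)
    (h : Good n P ℓ L η) : Good n P (fun l => t * ℓ l) (t * L) (t * η) := by
  have hL := h.L0
  have hη := h.η0
  refine ⟨by positivity, by positivity, fun l => mul_le_mul_of_nonneg_left (h.Lle l) ht.le,
    fun l => ?_, ?_, ?_⟩
  · have := mul_le_mul_of_nonneg_left (h.len l) ht.le
    linarith
  · obtain ⟨l, hl⟩ := h.att
    exact ⟨l, by simp only [hl]⟩
  · intro η' hη'
    have h1 : η < η' / t := by rw [lt_div_iff₀ ht]; linarith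
    have := (h.has _ h1).scale ht
    rwa [show t * (η' / t) = η' by field_simp] at this

theorem Good.sum {Cl ι : Type} [DecidableEq Cl] [DecidableEq ι] [Finite Cl] {n : ℝ} (hn : 1 ≤ n)
    (J : Finset ι) (hJ : J.Nonempty) (P : ι → Finset Cl) (ℓ : ι → Cl → ℝ) (L η : ι → ℝ)
    (h : ∀ j ∈ J, Good n (P j) (ℓ j) (L j) (η j)) :
    ∃ L', Good n (J.biUnion P) (fun l => ∑ j ∈ J, ℓ j l) L' (∑ j ∈ J, η j) := by
  induction hJ using Finset.Nonempty.cons_induction with
  | singleton a =>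
    refine ⟨L a, ?_⟩
    have := h a (Finset.mem_singleton_self a)
    simpa using this
  | cons a s ha hs ih =>
    obtain ⟨L', hL'⟩ := ih (fun j hj => h j (Finset.mem_cons_of_mem hj))
    have h1 := h a (Finset.mem_cons_self a s)
    obtain ⟨L'', hL''⟩ := h1.add hn hL'
    refine ⟨L'', ?_⟩
    simp only [Finset.sum_cons]
    have : (Finset.cons a s ha).biUnion P = P a ∪ s.biUnion P := by
      rw [Finset.cons_eq_insert, Finset.biUnion_insert]
    rw [this]
    exact hL''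

/-- the gains: `gg n m = n (n+1)/2 … (n+m-1)/m` -/
noncomputable def gg (n : ℝ) : ℕ → ℝ
  | 0 => 1
  | m + 1 => gg n m * (((m : ℝ) + n) / ((m : ℝ) + 1))

theorem gg_pos {n : ℝ} (hn : 1 ≤ n) (m : ℕ) : 0 < gg n m := by
  induction m with
  | zero => simp [gg]
  | succ m ih =>
    unfold gg
    have : (0:ℝ) ≤ m := Nat.cast_nonneg m
    positivity

theorem gg_one (n : ℝ) : gg n 1 = n := by simp [gg]

theorem gg_le_succ {n : ℝ} (hn : 1 ≤ n) (m : ℕ) : gg n m ≤ gg n (m + 1) := by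
  have h := gg_pos hn m
  have : (0:ℝ) ≤ m := Nat.cast_nonneg m
  have h1 : 1 ≤ ((m : ℝ) + n) / ((m : ℝ) + 1) := by
    rw [le_div_iff₀ (by positivity)]; linarith
  calc gg n m = gg n m * 1 := (mul_one _).symm
    _ ≤ gg n m * (((m : ℝ) + n) / ((m : ℝ) + 1)) := mul_le_mul_of_nonneg_left h1 h.le

theorem gg_succ_le {n : ℝ} (hn : 1 ≤ n) (m : ℕ) : gg n (m + 1) ≤ n * gg n m := by
  have h := gg_pos hn m
  have h0 : (0:ℝ) ≤ m := Nat.cast_nonneg m
  have h1 : ((m : ℝ) + n) / ((m : ℝ) + 1) ≤ n := by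
    rw [div_le_iff₀ (by positivity)]; nlinarith
  calc gg n m * (((m : ℝ) + n) / ((m : ℝ) + 1)) ≤ gg n m * n :=
        mul_le_mul_of_nonneg_left h1 h.le
    _ = _ := mul_comm _ _

/-- the main induction -/
theorem good_prof {Cl : Type} [DecidableEq Cl] [Finite Cl] {n : ℝ} (hn : 1 ≤ n) (m : ℕ) :
    ∀ P : Finset Cl, P.card = m + 1 →
      Good n P (fun l => if l ∈ P then gg n (m + 1) else n * gg n (m + 1)) (gg n (m + 1)) 1 := by
  have hn0 : 0 < n := by linarith
  induction m with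
  | zero =>
    intro P hP
    obtain ⟨j, rfl⟩ := Finset.card_eq_one.mp hP
    simp only [zero_add, gg_one]
    have e1 : ∀ l, n ≤ (if l ∈ ({j} : Finset Cl) then n else n * n) := by
      intro l
      split_ifs
      · exact le_rfl
      · nlinarith
    have e2 : ∀ l, (if l ∈ ({j} : Finset Cl) then n else n * n) ≤ n * n := by
      intro l
      split_ifs
      · nlinarith
      · exact le_rfl
    refine ⟨hn0, one_pos, e1, e2, ⟨j, by simp⟩, ?_⟩
    intro η' hη'
    have h0 := hasG_base n hn j (fun l => if l ∈ ({j} : Finset Cl) then n else n * n) 1 one_pos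
      (fun l => by rw [mul_one]; exact e1 l) (fun l => by rw [mul_one]; exact e2 l) (by simp)
    rw [mul_one] at h0
    exact h0.mono_η hη'.le
  | succ m ih =>
    intro P hP
    set g := gg n (m + 1) with hg
    set g' := gg n (m + 1 + 1) with hg'
    have hg0 : 0 < g := gg_pos hn _
    have hg'0 : 0 < g' := gg_pos hn _
    have hm0 : (0:ℝ) ≤ m := Nat.cast_nonneg m
    have hPc : (P.card : ℝ) = (m : ℝ) + 2 := by rw [hP]; push_cast; ring
    have hgg' : g' = g * (((m : ℝ) + 1 + n) / ((m : ℝ) + 2)) := by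
      rw [hg', hg]
      conv_lhs => unfold gg
      push_cast
      ring
    have hle1 : g ≤ g' := gg_le_succ hn _
    have hle2 : g' ≤ n * g := gg_succ_le hn _
    have hPne : P.Nonempty := by rw [← Finset.card_pos, hP]; omega
    obtain ⟨L', h1⟩ := Good.sum hn P hPne (fun j => P.erase j)
      (fun j l => (1 / ((m : ℝ) + 2)) * (if l ∈ P.erase j then g else n * g))
      (fun _ => (1 / ((m : ℝ) + 2)) * g) (fun _ => (1 / ((m : ℝ) + 2)) * 1)
      (by
        intro j hj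
        exact (ih (P.erase j) (by rw [Finset.card_erase_of_mem hj, hP]; rfl)).scale
          (by positivity))
    have hη : ∑ _j ∈ P, (1 / ((m : ℝ) + 2)) * 1 = 1 := by
      rw [Finset.sum_const, nsmul_eq_mul, hPc]; field_simp
    have hin : ∀ l ∈ P, ∑ j ∈ P, (1 / ((m : ℝ) + 2)) * (if l ∈ P.erase j then g else n * g)
        = g' := by
      intro l hl
      have h2 : ∀ j ∈ P, (if l ∈ P.erase j then g else n * g)
          = g + (if l = j then (n - 1) * g else 0) := by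
        intro j hj
        by_cases hlj : l = j
        · rw [if_neg (by rw [hlj]; exact Finset.notMem_erase j P), if_pos hlj]; ring
        · rw [if_pos (Finset.mem_erase.mpr ⟨hlj, hl⟩), if_neg hlj]; ring
      rw [← Finset.mul_sum, Finset.sum_congr rfl h2, Finset.sum_add_distrib, Finset.sum_const,
        nsmul_eq_mul, hPc, Finset.sum_ite_eq, if_pos hl, hgg']
      field_simp
      ring
    have hout : ∀ l ∉ P, ∑ j ∈ P, (1 / ((m : ℝ) + 2)) * (if l ∈ P.erase j then g else n * g)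
        = n * g := by
      intro l hl
      have h2 : ∀ j ∈ P, (1 / ((m : ℝ) + 2)) * (if l ∈ P.erase j then g else n * g)
          = (1 / ((m : ℝ) + 2)) * (n * g) := by
        intro j _
        rw [if_neg (fun h => hl (Finset.mem_of_mem_erase h))]
      rw [Finset.sum_congr rfl h2, Finset.sum_const, nsmul_eq_mul, hPc]
      field_simp
    have hL' : L' = g' := by
      obtain ⟨l, hl⟩ := hPne
      have h3 := h1.Lle l
      rw [hin l hl] at h3
      obtain ⟨l', hl'⟩ := h1.att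
      apply le_antisymm h3
      by_cases hl'P : l' ∈ P
      · rw [hin l' hl'P] at hl'; exact hl'.le
      · rw [hout l' hl'P] at hl'; linarith
    rw [hη, hL'] at h1
    obtain ⟨l0, hl0⟩ := hPne
    refine ⟨hg'0, one_pos, ?_, ?_, ⟨l0, by rw [if_pos hl0]⟩, ?_⟩
    · intro l
      split_ifs
      · exact le_rfl
      · nlinarith
    · intro l
      split_ifs
      · nlinarith
      · exact le_rfl
    · intro η' hη'
      have h4 := h1.has η' hη'
      have hsub : P.biUnion (fun j => P.erase j) ⊆ P :=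
        Finset.biUnion_subset.mpr fun j _ => Finset.erase_subset _ _
      refine (h4.raise (ℓ1 := fun l => if l ∈ P then g' else n * g') ?_ ?_ ?_ ?_).mono_P hsub
      · intro l hl
        rw [if_pos (hsub hl), hin l (hsub hl)]
      · intro l
        split_ifs
        · exact le_rfl
        · nlinarith
      · intro l
        split_ifs
        · nlinarith
        · exact le_rfl
      · exact ⟨l0, by rw [if_pos hl0]⟩

/-- gadgets with `k` classes: gain `n (n+1)/2 … (n+k-1)/k` -/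
theorem good_univ {n : ℝ} (hn : 1 ≤ n) (k : ℕ) (hk : 1 ≤ k) (η' : ℝ) (hη' : 1 < η') :
    HasG (Cl := Fin k) n Finset.univ (fun _ => gg n k) (gg n k) η' := by
  obtain ⟨m, rfl⟩ : ∃ m, k = m + 1 := ⟨k - 1, by omega⟩
  have h := good_prof (Cl := Fin (m + 1)) hn m Finset.univ (by simp)
  have h2 := h.has η' hη'
  simpa using h2

end Pool.Agent.Lib.MP_caca3f_an.Sharp
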