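import Pool.Agent.Lib.MP_caca3f_an.Sharp.Gadget
import Pool.Agent.Lib.MP_caca3f_an.Sharp.Base

/-! The medium scale metric of the next gadget. -/

namespace Pool.Agent.Lib.MP_caca3f_an.Sharp

open Finset

set_option linter.unusedSectionVars false

section med

variable {Sp Bp Y S B Y' Cl : Type} [Fintype Bp] [DecidableEq Bp] [Nonempty Bp] [Fintype Y]
  [DecidableEq Y] [Fintype B] [Nonempty B] [Fintype Y'] [DecidableEq Y']

variable {A C A' C' n : ℝ} {τ : S → B → Y'} {τp : Sp → Bp → Y}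

/-- labels of the next gadget -/
def τ' (τ : S → B → Y') (s : Pt Sp Bp Y S) (b : Bp × Y × B) : Y' := τ (s.2 (b.1, b.2.1)) b.2.2

/-- normalisation -/
noncomputable def w0 (Bp B : Type) [Fintype Bp] [Fintype B] : ℝ :=
  1 / ((Fintype.card Bp : ℝ) * (Fintype.card B : ℝ))

theorem w0_nonneg : 0 ≤ w0 Bp B := by unfold w0; positivity

theorem w0_pos : 0 < w0 Bp B := by
  have h1 : (0:ℝ) < Fintype.card Bp := by exact_mod_cast Fintype.card_pos
  have h2 : (0:ℝ) < Fintype.card B := by exact_mod_cast Fintype.card_pos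
  unfold w0; positivity

/-- ideal weights -/
noncomputable def iw (A C : ℝ) (τp : Sp → Bp → Y) (s : Pt Sp Bp Y S) (i : Bp × Y × B) : ℝ :=
  if i.2.1 = τp s.1 i.1 then A else A + C

/-- places with different labels -/
noncomputable def ne (τ : S → B → Y') (s t : Pt Sp Bp Y S) (i : Bp × Y × B) : ℝ :=
  ind (τ' τ s) (τ' τ t) i

theorem ne_nonneg (s t : Pt Sp Bp Y S) (i : Bp × Y × B) : 0 ≤ ne τ s t i := ind_nonneg _ _ _

theorem ne_le (s t : Pt Sp Bp Y S) (i : Bp × Y × B) : ne τ s t i ≤ 1 := ind_le _ _ _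

/-- distance of the ideal embedding -/
noncomputable def qg (A C : ℝ) (τ : S → B → Y') (τp : Sp → Bp → Y) (s t : Pt Sp Bp Y S) : ℝ :=
  ld (w0 Bp B) (fun i => iw A C τp s i / √2) (τ' τ s) (fun i => iw A C τp t i / √2) (τ' τ t)

theorem qg_nonneg (s t : Pt Sp Bp Y S) : 0 ≤ qg A C τ τp s t := ld_nonneg _ _ _ _ _

theorem lab2_div (α β : ℝ) (y z : Y') :
    lab2 (α / √2) y (β / √2) z = (α - β) ^ 2 / 2 + α * β * (if y = z then 0 else 1) := by
  have h2 : √2 ^ 2 = (2:ℝ) := Real.sq_sqrt (by norm_num)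
  unfold lab2
  split_ifs
  · rw [← sub_div, div_pow, h2]; ring
  · rw [div_pow, div_pow, h2]; ring

theorem qg_sq (s t : Pt Sp Bp Y S) : qg A C τ τp s t ^ 2
    = w0 Bp B * ∑ i, ((iw A C τp s i - iw A C τp t i) ^ 2 / 2
      + iw A C τp s i * iw A C τp t i * ne τ s t i) := by
  unfold qg
  rw [ld_sq w0_nonneg]
  congr 1
  apply Finset.sum_congr rfl; intro i _
  rw [lab2_div]
  rfl

theorem qg_symm (s t : Pt Sp Bp Y S) : qg A C τ τp s t = qg A C τ τp t s :=
  ld_symm w0_nonneg _ _ _ _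

theorem qg_tri (s t u : Pt Sp Bp Y S) :
    qg A C τ τp s u ≤ qg A C τ τp s t + qg A C τ τp t u := ld_tri w0_nonneg _ _ _ _ _ _

theorem qg_self (s : Pt Sp Bp Y S) : qg A C τ τp s s = 0 := ld_self w0_nonneg _ _

theorem iw_nonneg (hA : 0 ≤ A) (hC : 0 ≤ C) (s : Pt Sp Bp Y S) (i : Bp × Y × B) :
    0 ≤ iw A C τp s i := by
  unfold iw; split_ifs <;> linarith

theorem iw_mono (hA' : A ≤ A') (hC' : C ≤ C') (s : Pt Sp Bp Y S)
    (i : Bp × Y × B) : iw A C τp s i ≤ iw A' C' τp s i := by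
  unfold iw; split_ifs <;> linarith

theorem qg_mono (hA : 0 ≤ A) (hC : 0 ≤ C) (hA' : A ≤ A') (hC' : C ≤ C') (s t : Pt Sp Bp Y S) :
    qg A C τ τp s t ≤ qg A' C' τ τp s t := by
  apply le_of_sq_le_sq _ (qg_nonneg s t)
  rw [qg_sq, qg_sq]
  apply mul_le_mul_of_nonneg_left _ w0_nonneg
  apply Finset.sum_le_sum; intro i _
  apply add_le_add
  · apply div_le_div_of_nonneg_right _ (by norm_num)
    unfold iw
    have hC2 : C ^ 2 ≤ C' ^ 2 := pow_le_pow_left₀ hC hC' 2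
    split_ifs
    · simp
    · have e1 : (A - (A + C)) ^ 2 = C ^ 2 := by ring
      have e2 : (A' - (A' + C')) ^ 2 = C' ^ 2 := by ring
      rw [e1, e2]; exact hC2
    · have e1 : (A + C - A) ^ 2 = C ^ 2 := by ring
      have e2 : (A' + C' - A') ^ 2 = C' ^ 2 := by ring
      rw [e1, e2]; exact hC2
    · simp
  · apply mul_le_mul_of_nonneg_right _ (ne_nonneg _ _ _)
    exact mul_le_mul (iw_mono hA' hC' _ _) (iw_mono hA' hC' _ _) (iw_nonneg hA hC _ _)
      ((iw_nonneg hA hC _ _).trans (iw_mono hA' hC' _ _))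

theorem qg_smul (hn : 0 ≤ n) (s t : Pt Sp Bp Y S) :
    qg (n * A) (n * C) τ τp s t = n * qg A C τ τp s t := by
  rw [← pow_left_inj₀ (qg_nonneg s t) (mul_nonneg hn (qg_nonneg s t)) two_ne_zero, mul_pow, qg_sq,
    qg_sq]
  have h : ∀ (u : Pt Sp Bp Y S) (i : Bp × Y × B),
      iw (n * A) (n * C) τp u i = n * iw A C τp u i := by
    intro u i; unfold iw; split_ifs <;> ring
  simp only [h]
  have h' : (∑ i, ((n * iw A C τp s i - n * iw A C τp t i) ^ 2 / 2
      + n * iw A C τp s i * (n * iw A C τp t i) * ne τ s t i))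
      = n ^ 2 * ∑ i, ((iw A C τp s i - iw A C τp t i) ^ 2 / 2
      + iw A C τp s i * iw A C τp t i * ne τ s t i) := by
    rw [Finset.mul_sum]
    apply Finset.sum_congr rfl; intro i _
    ring
  rw [h']; ring

/-- own lamps only -/
theorem qg_sameA (hA : 0 ≤ A) {s t : Pt Sp Bp Y S} (h : SameA τp s t) :
    qg A C τ τp s t = A * N2 (fun b => fr (τ (own τp s b)) (τ (own τp t b))) := by
  obtain ⟨h1, h2⟩ := h
  have hB : (Fintype.card B : ℝ) ≠ 0 := by exact_mod_cast Fintype.card_ne_zero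
  have hBp : (Fintype.card Bp : ℝ) ≠ 0 := by exact_mod_cast Fintype.card_ne_zero
  rw [← pow_left_inj₀ (qg_nonneg s t) (mul_nonneg hA (N2_nonneg _)) two_ne_zero, mul_pow, qg_sq,
    N2_sq]
  simp only [fr_sq]
  have e1 : ∀ i : Bp × Y × B, ((iw A C τp s i - iw A C τp t i) ^ 2 / 2
      + iw A C τp s i * iw A C τp t i * ne τ s t i)
      = if i.2.1 = τp s.1 i.1 then
          A ^ 2 * (if τ (own τp s i.1) i.2.2 = τ (own τp t i.1) i.2.2 then 0 else 1) else 0 := by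
    intro i
    have e2 : iw A C τp t i = iw A C τp s i := by unfold iw; rw [h1]
    rw [e2, sub_self, zero_pow two_ne_zero, zero_div, zero_add]
    by_cases hi : i.2.1 = τp s.1 i.1
    · rw [if_pos hi]
      unfold iw ne ind τ' own
      rw [if_pos hi, ← h1, hi]
      ring
    · rw [if_neg hi]
      unfold ne ind τ'
      rw [h2 (i.1, i.2.1) hi, if_pos rfl, mul_zero]
  simp only [e1]
  rw [Fintype.sum_prod_type]
  have e3 : ∀ b : Bp, (∑ j : Y × B, if j.1 = τp s.1 b then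
      A ^ 2 * (if τ (own τp s b) j.2 = τ (own τp t b) j.2 then (0:ℝ) else 1) else 0)
      = A ^ 2 * ∑ b0 : B, (if τ (own τp s b) b0 = τ (own τp t b) b0 then (0:ℝ) else 1) := by
    intro b
    rw [Fintype.sum_prod_type, Finset.sum_eq_single (τp s.1 b)]
    · simp only [if_true, Finset.mul_sum]
    · intro y _ hy
      simp only [if_neg hy, Finset.sum_const_zero]
    · intro h; exact absurd (Finset.mem_univ _) h
  simp only [e3]
  unfold av w0
  rw [← Finset.mul_sum, ← Finset.sum_div]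
  field_simp

/-- position only -/
theorem qg_sameB (hC : 0 ≤ C) {s t : Pt Sp Bp Y S} (h : s.2 = t.2) :
    qg A C τ τp s t = C * fr (τp s.1) (τp t.1) := by
  have hB : (Fintype.card B : ℝ) ≠ 0 := by exact_mod_cast Fintype.card_ne_zero
  have hBp : (Fintype.card Bp : ℝ) ≠ 0 := by exact_mod_cast Fintype.card_ne_zero
  rw [← pow_left_inj₀ (qg_nonneg s t) (mul_nonneg hC (fr_nonneg _ _)) two_ne_zero, mul_pow, qg_sq,
    fr_sq]
  have e1 : ∀ i : Bp × Y × B, ((iw A C τp s i - iw A C τp t i) ^ 2 / 2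
      + iw A C τp s i * iw A C τp t i * ne τ s t i)
      = C ^ 2 / 2 * ((if i.2.1 = τp s.1 i.1 then (1:ℝ) else 0)
        - (if i.2.1 = τp t.1 i.1 then (1:ℝ) else 0)) ^ 2 := by
    intro i
    have e2 : ne τ s t i = 0 := by
      unfold ne ind τ'
      rw [h, if_pos rfl]
    rw [e2, mul_zero, add_zero]
    unfold iw
    split_ifs <;> ring
  simp only [e1]
  rw [Fintype.sum_prod_type]
  have e3 : ∀ b : Bp, (∑ j : Y × B, C ^ 2 / 2 * ((if j.1 = τp s.1 b then (1:ℝ) else 0)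
        - (if j.1 = τp t.1 b then (1:ℝ) else 0)) ^ 2)
      = (Fintype.card B : ℝ) * (C ^ 2 * (if τp s.1 b = τp t.1 b then (0:ℝ) else 1)) := by
    intro b
    rw [Fintype.sum_prod_type]
    have e4 : ∀ y : Y, (∑ _b0 : B, C ^ 2 / 2 * ((if y = τp s.1 b then (1:ℝ) else 0)
        - (if y = τp t.1 b then (1:ℝ) else 0)) ^ 2)
        = (Fintype.card B : ℝ) * (C ^ 2 / 2) * ((if y = τp s.1 b then (1:ℝ) else 0)
        - (if y = τp t.1 b then (1:ℝ) else 0)) ^ 2 := by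
      intro y
      rw [Finset.sum_const, Finset.card_univ, nsmul_eq_mul]; ring
    simp only [e4]
    rw [← Finset.mul_sum, sum_lv_sub_sq_one]
    unfold lab2
    split_ifs <;> ring
  simp only [e3]
  unfold av w0
  rw [← Finset.mul_sum, ← Finset.mul_sum]
  field_simp

theorem sum_own (s : Pt Sp Bp Y S) :
    ∑ i : Bp × Y × B, (if i.2.1 = τp s.1 i.1 then (1:ℝ) else 0)
      = (Fintype.card Bp : ℝ) * (Fintype.card B : ℝ) := by
  rw [Fintype.sum_prod_type]
  have e : ∀ b : Bp, (∑ j : Y × B, if j.1 = τp s.1 b then (1:ℝ) else 0)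
      = (Fintype.card B : ℝ) := by
    intro b
    rw [Fintype.sum_prod_type, Finset.sum_eq_single (τp s.1 b)]
    · simp
    · intro y _ hy; simp [hy]
    · intro h; exact absurd (Finset.mem_univ _) h
  simp only [e, Finset.sum_const, Finset.card_univ, nsmul_eq_mul]

variable {ℓ ℓp : Cl → ℝ} {L Lp lam : ℝ}

/-- the medium scale metric -/
noncomputable def dh (ℓ ℓp : Cl → ℝ) (τ : S → B → Y') (τp : Sp → Bp → Y) (s t : Pt Sp Bp Y S) : ℝ :=
  pm (fun l : Cl => qg (ℓ l) (ℓp l) τ τp) s t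

theorem dh_nonneg (s t : Pt Sp Bp Y S) : 0 ≤ dh ℓ ℓp τ τp s t := pm_nonneg _ _

theorem dh_self (s : Pt Sp Bp Y S) : dh ℓ ℓp τ τp s s = 0 := pm_self _

theorem dh_symm (s t : Pt Sp Bp Y S) : dh ℓ ℓp τ τp s t = dh ℓ ℓp τ τp t s := pm_symm _ _

theorem dh_tri [Nonempty Cl] (s t u : Pt Sp Bp Y S) :
    dh ℓ ℓp τ τp s u ≤ dh ℓ ℓp τ τp s t + dh ℓ ℓp τ τp t u :=
  pm_tri (Classical.arbitrary Cl) _ _ _

theorem dh_le (l : Cl) (s t : Pt Sp Bp Y S) : dh ℓ ℓp τ τp s t ≤ qg (ℓ l) (ℓp l) τ τp s t :=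
  pm_le (q := fun l : Cl => qg (ℓ l) (ℓp l) τ τp) (fun _ _ _ => qg_nonneg _ _) l s t

theorem qg_le_dh [Nonempty Cl] (hL : 0 ≤ L) (hLp : 0 ≤ Lp) (h1 : ∀ l, L ≤ ℓ l)
    (h2 : ∀ l, Lp ≤ ℓp l) (s t : Pt Sp Bp Y S) : qg L Lp τ τp s t ≤ dh ℓ ℓp τ τp s t := by
  have hΦ : LipAll (fun l : Cl => qg (ℓ l) (ℓp l) τ τp)
      (fun z : Pt Sp Bp Y S => qg L Lp τ τp z t) := by
    intro l u v
    refine le_trans ?_ (qg_mono hL hLp (h1 l) (h2 l) u v)
    have e1 := qg_tri (A := L) (C := Lp) (τ := τ) (τp := τp) u v t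
    have e2 := qg_tri (A := L) (C := Lp) (τ := τ) (τp := τp) v u t
    rw [qg_symm v u] at e2
    rw [abs_le]; constructor <;> linarith
  have := le_pm (Classical.arbitrary Cl) hΦ s t
  simp only [qg_self, sub_zero, abs_of_nonneg (qg_nonneg _ _)] at this
  exact this

/-- the ideal embeddings are mutually comparable -/
theorem qg_le_n_dh [Nonempty Cl] (hn : 0 ≤ n) (hL : 0 ≤ L) (hLp : 0 ≤ Lp) (h1 : ∀ l, L ≤ ℓ l)
    (h2 : ∀ l, Lp ≤ ℓp l) (h3 : ∀ l, ℓ l ≤ n * L) (h4 : ∀ l, ℓp l ≤ n * Lp) (l : Cl)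
    (s t : Pt Sp Bp Y S) : qg (ℓ l) (ℓp l) τ τp s t ≤ n * dh ℓ ℓp τ τp s t := by
  refine (qg_mono (hL.trans (h1 l)) (hLp.trans (h2 l)) (h3 l) (h4 l) s t).trans ?_
  rw [qg_smul hn]
  exact mul_le_mul_of_nonneg_left (qg_le_dh hL hLp h1 h2 s t) hn

theorem num_aux {X K Z : ℝ} (hX : 0 ≤ X) (hK : 0 ≤ K) (hZ : 0 ≤ Z) (h : Z ^ 2 = X ^ 2 + K ^ 2) :
    (X - K) * Z ≤ X ^ 2 := by
  by_cases hXK : X ≤ K
  · have h1 : (X - K) * Z ≤ 0 := mul_nonpos_of_nonpos_of_nonneg (by linarith) hZ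
    exact h1.trans (sq_nonneg X)
  · push Not at hXK
    have h10 : Z ≤ X + K := by
      apply le_of_sq_le_sq _ (by positivity)
      rw [h]; nlinarith
    have h11 : (X - K) * Z ≤ (X - K) * (X + K) := mul_le_mul_of_nonneg_left h10 (by linarith)
    have h12 : (X - K) * (X + K) = X ^ 2 - K ^ 2 := by ring
    have h13 := sq_nonneg K
    linarith

/-- coarse lower bound -/
theorem fr_le_dh [Nonempty Cl] [Nonempty Y] (hL : 0 < L) (hlam : 0 < lam) (h1 : ∀ l, L ≤ ℓ l)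
    (h2 : ∀ l, 0 ≤ ℓp l) (h3 : ∀ l, lam ≤ ℓ l + ℓp l) (s t : Pt Sp Bp Y S) :
    √(Fintype.card Y : ℝ) * lam * fr (τ' τ s) (τ' τ t)
      ≤ dh ℓ ℓp τ τp s t + √2 * lam ^ 2 / L := by
  have hB : (0:ℝ) < Fintype.card B := by exact_mod_cast Fintype.card_pos
  have hBp : (0:ℝ) < Fintype.card Bp := by exact_mod_cast Fintype.card_pos
  have hY : (0:ℝ) < Fintype.card Y := by exact_mod_cast Fintype.card_pos
  have hw := w0_pos (Bp := Bp) (B := B)
  set X := √(Fintype.card Y : ℝ) * lam * fr (τ' τ s) (τ' τ t) with hX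
  set K := √2 * lam ^ 2 / L with hK
  have hX0 : 0 ≤ X := mul_nonneg (by positivity) (fr_nonneg _ _)
  have hK0 : 0 < K := by positivity
  have hX2 : X ^ 2 = w0 Bp B * lam ^ 2 * ∑ i, ne τ s t i := by
    rw [hX, mul_pow, mul_pow, Real.sq_sqrt hY.le, fr_sq]
    unfold av w0 ne ind
    rw [Fintype.card_prod, Fintype.card_prod]
    push_cast
    field_simp
  have hK2 : K ^ 2 = 2 * lam ^ 4 / L ^ 2 := by
    rw [hK, div_pow, mul_pow, Real.sq_sqrt (by norm_num)]; ring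
  set Z := √(X ^ 2 + K ^ 2) with hZ
  have hZ2 : Z ^ 2 = X ^ 2 + K ^ 2 := Real.sq_sqrt (by positivity)
  have hZ0 : 0 < Z := Real.sqrt_pos.mpr (by positivity)
  have hΦ : LipAll (fun l : Cl => qg (ℓ l) (ℓp l) τ τp)
      (fun z : Pt Sp Bp Y S => w0 Bp B * lam ^ 2 / Z * ∑ i, chi (τ' τ s) (τ' τ t) i (τ' τ z i)) := by
    intro l u v
    have hAl : L ≤ ℓ l := h1 l
    have hl0 : 0 < ℓ l := by linarith
    have e1 : |w0 Bp B * lam ^ 2 / Z * (∑ i, chi (τ' τ s) (τ' τ t) i (τ' τ u i))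
        - w0 Bp B * lam ^ 2 / Z * (∑ i, chi (τ' τ s) (τ' τ t) i (τ' τ v i))|
        ≤ w0 Bp B * lam ^ 2 / Z * ∑ i, ne τ s t i * ne τ u v i := by
      rw [← mul_sub, ← Finset.sum_sub_distrib, abs_mul, abs_of_pos (by positivity)]
      apply mul_le_mul_of_nonneg_left _ (by positivity)
      refine (Finset.abs_sum_le_sum_abs _ _).trans (Finset.sum_le_sum fun b _ => ?_)
      exact chi_lip _ _ _ _ _
    refine e1.trans ?_
    apply le_of_sq_le_sq _ (qg_nonneg _ _)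
    set r : Bp × Y × B → ℝ := fun i => iw (ℓ l) (ℓp l) τp u i * iw (ℓ l) (ℓp l) τp v i with hr
    have hw1 : ∀ (z : Pt Sp Bp Y S) (i : Bp × Y × B), ℓ l ≤ iw (ℓ l) (ℓp l) τp z i := by
      intro z i; unfold iw
      have := h2 l
      split_ifs <;> linarith
    have hr0 : ∀ i, 0 < r i := fun i =>
      mul_pos (hl0.trans_le (hw1 u i)) (hl0.trans_le (hw1 v i))
    have hrb : ∀ i, lam ^ 2 / r i ≤ 1 + lam ^ 2 / L ^ 2
        * ((if i.2.1 = τp u.1 i.1 then (1:ℝ) else 0) + (if i.2.1 = τp v.1 i.1 then (1:ℝ) else 0)) := by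
      intro i
      have hb : lam ^ 2 / r i ≤ lam ^ 2 / L ^ 2 := by
        apply div_le_div_of_nonneg_left (by positivity) (by positivity)
        have : L * L ≤ r i := mul_le_mul (hAl.trans (hw1 u i)) (hAl.trans (hw1 v i)) hL.le
          (hl0.le.trans (hw1 u i))
        nlinarith
      have hp : 0 ≤ lam ^ 2 / L ^ 2 := by positivity
      by_cases hu : i.2.1 = τp u.1 i.1
      · rw [if_pos hu]
        have : (0:ℝ) ≤ (if i.2.1 = τp v.1 i.1 then (1:ℝ) else 0) := by split_ifs <;> norm_num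
        nlinarith
      · by_cases hv : i.2.1 = τp v.1 i.1
        · rw [if_neg hu, if_pos hv]; linarith
        · rw [if_neg hu, if_neg hv]
          have : r i = (ℓ l + ℓp l) * (ℓ l + ℓp l) := by
            simp only [hr, iw, if_neg hu, if_neg hv]
          rw [this, add_zero, mul_zero, add_zero]
          have h3l := h3 l
          rw [div_le_one (mul_pos (by linarith) (by linarith))]
          nlinarith
    have hsum : lam ^ 2 * ∑ i, ne τ s t i ^ 2 / r i ≤ (∑ i, ne τ s t i)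
        + lam ^ 2 / L ^ 2 * (2 * ((Fintype.card Bp : ℝ) * (Fintype.card B : ℝ))) := by
      have e2 : 2 * ((Fintype.card Bp : ℝ) * (Fintype.card B : ℝ))
          = ∑ i : Bp × Y × B, ((if i.2.1 = τp u.1 i.1 then (1:ℝ) else 0)
            + (if i.2.1 = τp v.1 i.1 then (1:ℝ) else 0)) := by
        rw [Finset.sum_add_distrib, sum_own, sum_own]; ring
      rw [e2, Finset.mul_sum, Finset.mul_sum, ← Finset.sum_add_distrib]
      apply Finset.sum_le_sum; intro i _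
      have g1 := hrb i
      have g2 := ne_nonneg (τ := τ) s t i
      have g3 := ne_le (τ := τ) s t i
      have g4 : 0 ≤ lam ^ 2 / L ^ 2
        * ((if i.2.1 = τp u.1 i.1 then (1:ℝ) else 0) + (if i.2.1 = τp v.1 i.1 then (1:ℝ) else 0)) := by
        apply mul_nonneg (by positivity)
        split_ifs <;> norm_num
      have g5 : ne τ s t i ^ 2 = ne τ s t i := by
        unfold ne ind; split_ifs <;> norm_num
      calc lam ^ 2 * (ne τ s t i ^ 2 / r i) = ne τ s t i * (lam ^ 2 / r i) := by rw [g5]; ring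
        _ ≤ ne τ s t i * (1 + lam ^ 2 / L ^ 2 * ((if i.2.1 = τp u.1 i.1 then (1:ℝ) else 0)
            + (if i.2.1 = τp v.1 i.1 then (1:ℝ) else 0))) := mul_le_mul_of_nonneg_left g1 g2
        _ ≤ _ := by nlinarith
    have hcs : (∑ i, ne τ s t i * ne τ u v i) ^ 2
        ≤ (∑ i, ne τ s t i ^ 2 / r i) * ∑ i, r i * ne τ u v i := by
      have e3 : ∀ i, ne τ s t i * ne τ u v i
          = (ne τ s t i / √(r i)) * (√(r i) * ne τ u v i) := by
        intro i
        have := Real.sqrt_pos.mpr (hr0 i)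
        field_simp
      simp only [e3]
      refine (Finset.sum_mul_sq_le_sq_mul_sq _ _ _).trans (le_of_eq ?_)
      congr 1
      · apply Finset.sum_congr rfl; intro i _
        rw [div_pow, Real.sq_sqrt (hr0 i).le]
      · apply Finset.sum_congr rfl; intro i _
        rw [mul_pow, Real.sq_sqrt (hr0 i).le]
        have : ne τ u v i ^ 2 = ne τ u v i := by
          unfold ne ind; split_ifs <;> norm_num
        rw [this]
    have hq : w0 Bp B * ∑ i, r i * ne τ u v i ≤ qg (ℓ l) (ℓp l) τ τp u v ^ 2 := by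
      rw [qg_sq]
      apply mul_le_mul_of_nonneg_left _ hw.le
      apply Finset.sum_le_sum; intro i _
      have : 0 ≤ (iw (ℓ l) (ℓp l) τp u i - iw (ℓ l) (ℓp l) τp v i) ^ 2 / 2 := by positivity
      simp only [hr]
      linarith
    have hS0 : 0 ≤ ∑ i, r i * ne τ u v i :=
      Finset.sum_nonneg fun i _ => mul_nonneg (hr0 i).le (ne_nonneg _ _ _)
    have hT0 : 0 ≤ ∑ i, ne τ s t i ^ 2 / r i :=
      Finset.sum_nonneg fun i _ => div_nonneg (sq_nonneg _) (hr0 i).le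
    -- assemble
    have hmain : w0 Bp B * lam ^ 4 * (∑ i, ne τ s t i ^ 2 / r i) ≤ Z ^ 2 := by
      rw [hZ2, hX2, hK2]
      have := mul_le_mul_of_nonneg_left hsum (by positivity : 0 ≤ w0 Bp B * lam ^ 2)
      refine le_trans (le_of_eq (by ring)) (this.trans (le_of_eq ?_))
      unfold w0
      field_simp
    calc (w0 Bp B * lam ^ 2 / Z * ∑ i, ne τ s t i * ne τ u v i) ^ 2
        = (w0 Bp B * lam ^ 2 / Z) ^ 2 * (∑ i, ne τ s t i * ne τ u v i) ^ 2 := by ring
      _ ≤ (w0 Bp B * lam ^ 2 / Z) ^ 2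
          * ((∑ i, ne τ s t i ^ 2 / r i) * ∑ i, r i * ne τ u v i) :=
          mul_le_mul_of_nonneg_left hcs (sq_nonneg _)
      _ = (w0 Bp B * lam ^ 4 * (∑ i, ne τ s t i ^ 2 / r i)) / Z ^ 2
          * (w0 Bp B * ∑ i, r i * ne τ u v i) := by ring
      _ ≤ 1 * (w0 Bp B * ∑ i, r i * ne τ u v i) := by
          apply mul_le_mul_of_nonneg_right _ (mul_nonneg hw.le hS0)
          rw [div_le_one (by positivity)]; exact hmain
      _ ≤ qg (ℓ l) (ℓp l) τ τp u v ^ 2 := by rw [one_mul]; exact hq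
  have h5 := le_pm (Classical.arbitrary Cl) hΦ s t
  have h6 : ∑ i, chi (τ' τ s) (τ' τ t) i (τ' τ s i) = (∑ i, ne τ s t i) / 2 := by
    rw [Finset.sum_div]
    apply Finset.sum_congr rfl; intro b _
    unfold chi ne ind
    by_cases h1 : τ' τ s b = τ' τ t b <;> simp [h1]
  have h7 : ∑ i, chi (τ' τ s) (τ' τ t) i (τ' τ t i) = -((∑ i, ne τ s t i) / 2) := by
    rw [Finset.sum_div, ← Finset.sum_neg_distrib]
    apply Finset.sum_congr rfl; intro b _
    unfold chi ne ind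
    by_cases h1 : τ' τ s b = τ' τ t b
    · simp [h1]
    · have : ¬ τ' τ t b = τ' τ s b := fun h => h1 h.symm
      simp [h1, this]
  have h8 : w0 Bp B * lam ^ 2 / Z * (∑ i, chi (τ' τ s) (τ' τ t) i (τ' τ s i))
      - w0 Bp B * lam ^ 2 / Z * (∑ i, chi (τ' τ s) (τ' τ t) i (τ' τ t i)) = X ^ 2 / Z := by
    rw [h6, h7, hX2]; ring
  rw [h8, abs_of_nonneg (by positivity)] at h5
  have h9 : X - K ≤ X ^ 2 / Z := by
    rw [le_div_iff₀ hZ0]
    exact num_aux hX0 hK0.le hZ0.le hZ2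
  have h12 : X ^ 2 / Z ≤ dh ℓ ℓp τ τp s t := h5
  linarith

end med

end Pool.Agent.Lib.MP_caca3f_an.Sharp
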