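import Pool.Agent.Lib.MP_caca3f_an.Sharp.Prob
import Pool.Agent.Lib.MP_caca3f_an.Sharp.Gadget

/-! The Poincare inequality of the next sharp gadget. -/

namespace Pool.Agent.Lib.MP_caca3f_an.Sharp

open Finset

set_option linter.unusedSectionVars false

section poinc

variable {Sp Bp Y Λp S Λ : Type} [Fintype Sp] [Nonempty Sp] [Fintype Bp] [DecidableEq Bp]
  [Nonempty Bp] [Fintype Y] [DecidableEq Y] [AddGroup Y] [Fintype S] [Nonempty S]
  {O : Type} [Fintype O] [DecidableEq O]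
  {K : Type} [NormedAddCommGroup K] [InnerProductSpace ℝ K]

variable {ζ η ηp : ℝ} {ρ : S → Λ → S → Λ → ℝ}
  {τp : Sp → Bp → Y} {σp : Y → Sp ≃ Sp} {ρp : Sp → Λp → Sp → Λp → ℝ}
  {RR : Pt Sp Bp Y S → (Λ ⊕ Λp) → Pt Sp Bp Y S → (Λ ⊕ Λp) → ℝ}

/-- assemble a family of points -/
def mk (u : O → Sp) (f : (O × Bp) × Y → S) : O → Pt Sp Bp Y S :=
  fun o => (u o, fun p => f ((o, p.1), p.2))

/-- families of points as pairs -/
def mkE : ((O → Sp) × ((O × Bp) × Y → S)) ≃ (O → Pt Sp Bp Y S) where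
  toFun p := mk p.1 p.2
  invFun s := (fun o => (s o).1, fun z => (s z.1.1).2 (z.1.2, z.2))
  left_inv _ := rfl
  right_inv _ := rfl

/-- the hypothesis on the map -/
def Hyp (RR : Pt Sp Bp Y S → (Λ ⊕ Λp) → Pt Sp Bp Y S → (Λ ⊕ Λp) → ℝ)
    (c : O → ℝ) (F : (O → Pt Sp Bp Y S) → (Λ ⊕ Λp) → K) : Prop :=
  ∀ s l t m, ‖F s l - F t m‖ ^ 2 ≤ ∑ o, c o * RR (s o) l (t o) m ^ 2

/-- what is needed from the two lower gadgets -/
structure PH (RR : Pt Sp Bp Y S → (Λ ⊕ Λp) → Pt Sp Bp Y S → (Λ ⊕ Λp) → ℝ)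
    (ρ : S → Λ → S → Λ → ℝ) (τp : Sp → Bp → Y) (σp : Y → Sp ≃ Sp)
    (ρp : Sp → Λp → Sp → Λp → ℝ) (η ηp ζ : ℝ) : Prop where
  flip : ∀ v s b, τp (σp v s) b = v + τp s b
  R0 : ∀ s l t m, 0 ≤ RR s l t m
  Rsw : ∀ s l m, RR s l s m ≤ ζ
  Rin : ∀ s t l m, SameA τp s t →
    RR s (Sum.inl l) t (Sum.inl m) ≤ N2 (fun β => ρ (own τp s β) l (own τp t β) m)
  Rpo : ∀ s t l m, s.2 = t.2 → RR s (Sum.inr l) t (Sum.inr m) ≤ ρp s.1 l t.1 m
  η0 : 0 ≤ η
  ηp0 : 0 ≤ ηp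
  ζ0 : 0 ≤ ζ
  po : Poinc ρ η
  pop : Poinc ρp ηp

variable {c : O → ℝ} {F : (O → Pt Sp Bp Y S) → (Λ ⊕ Λp) → K}

/-- P1: change of label -/
theorem P1 (G : PH RR ρ τp σp ρp η ηp ζ) (hc : ∀ o, 0 ≤ c o)
    (hF : Hyp RR c F) (s : O → Pt Sp Bp Y S) (l l' : Λ ⊕ Λp) :
    ‖F s l - F s l'‖ ≤ ζ * √(∑ o, c o) := by
  have hζ := G.ζ0
  have hC : 0 ≤ ∑ o, c o := Finset.sum_nonneg fun o _ => hc o
  apply le_of_sq_le_sq _ (by positivity)
  refine (hF _ _ _ _).trans ?_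
  rw [mul_pow, Real.sq_sqrt hC, Finset.mul_sum]
  apply Finset.sum_le_sum; intro o _
  rw [mul_comm]
  apply mul_le_mul_of_nonneg_right _ (hc o)
  apply pow_le_pow_left₀ (G.R0 _ _ _ _)
  exact G.Rsw _ _ _

/-- P2: positions in position mode -/
theorem P2 (G : PH RR ρ τp σp ρp η ηp ζ) (hc : ∀ o, 0 ≤ c o)
    (hF : Hyp RR c F) (f : (O × Bp) × Y → S) (l : Λp) :
    av (fun u : O → Sp => av fun u' : O → Sp =>
      ‖F (mk u f) (Sum.inr l) - F (mk u' f) (Sum.inr l)‖ ^ 2) ≤ ηp ^ 2 * ∑ o, c o := by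
  apply G.pop O c hc K (fun u m => F (mk u f) (Sum.inr m))
  intro v m v' m'
  refine (hF _ _ _ _).trans ?_
  apply Finset.sum_le_sum; intro o _
  apply mul_le_mul_of_nonneg_left _ (hc o)
  apply pow_le_pow_left₀ (G.R0 _ _ _ _)
  exact G.Rpo _ _ m m' rfl

/-- labels of own lamps -/
def yy (τp : Sp → Bp → Y) (u : O → Sp) (j : O × Bp) : Y := τp (u j.1) j.2

/-- replace own lamps -/
def setOwn (τp : Sp → Bp → Y) (u : O → Sp) (f : (O × Bp) × Y → S) (v : O × Bp → S) :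
    (O × Bp) × Y → S :=
  fun z => if z.2 = yy τp u z.1 then v z.1 else f z

/-- P3: own lamps -/
theorem P3 (G : PH RR ρ τp σp ρp η ηp ζ) (hc : ∀ o, 0 ≤ c o)
    (hF : Hyp RR c F) (u : O → Sp) (f : (O × Bp) × Y → S) (l : Λ) :
    av (fun v : O × Bp → S => av fun v' : O × Bp → S =>
      ‖F (mk u (setOwn τp u f v)) (Sum.inl l) - F (mk u (setOwn τp u f v')) (Sum.inl l)‖ ^ 2)
      ≤ η ^ 2 * ∑ o, c o := by
  have hB : (Fintype.card Bp : ℝ) ≠ 0 := by exact_mod_cast Fintype.card_ne_zero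
  have hsum : ∑ p : O × Bp, c p.1 / (Fintype.card Bp : ℝ) = ∑ o, c o := by
    rw [Fintype.sum_prod_type]
    apply Finset.sum_congr rfl; intro o _
    simp only [Finset.sum_const, Finset.card_univ, nsmul_eq_mul]
    field_simp
  rw [← hsum]
  apply G.po (O × Bp) (fun p => c p.1 / (Fintype.card Bp : ℝ))
    (fun p => div_nonneg (hc _) (Nat.cast_nonneg _)) K
    (fun v m => F (mk u (setOwn τp u f v)) (Sum.inl m))
  intro v m v' m'
  refine (hF _ _ _ _).trans ?_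
  rw [Fintype.sum_prod_type]
  apply Finset.sum_le_sum; intro o _
  have h1 : RR (mk u (setOwn τp u f v) o) (Sum.inl m)
      (mk u (setOwn τp u f v') o) (Sum.inl m') ≤ N2 (fun b => ρ (v (o, b)) m (v' (o, b)) m') := by
    refine (G.Rin _ _ m m' ?_).trans (le_of_eq ?_)
    · refine ⟨rfl, fun p hp => ?_⟩
      have hp' : ¬ p.2 = τp (u o) p.1 := hp
      simp only [mk, setOwn, yy]
      exact (if_neg hp').trans (if_neg hp').symm
    · simp [mk, own, setOwn, yy]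
  have h2 := pow_le_pow_left₀ (G.R0 _ _ _ _) h1 2
  rw [N2_sq] at h2
  refine (mul_le_mul_of_nonneg_left h2 (hc o)).trans (le_of_eq ?_)
  unfold av
  rw [Finset.sum_div, Finset.mul_sum]
  apply Finset.sum_congr rfl; intro b _
  ring

/-- the own set -/
def T0 (τp : Sp → Bp → Y) (u : O → Sp) : Finset ((O × Bp) × Y) :=
  Finset.univ.filter fun z => z.2 = yy τp u z.1

theorem mem_T0 (u : O → Sp) (z : (O × Bp) × Y) : z ∈ T0 τp u ↔ z.2 = yy τp u z.1 := by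
  simp [T0]

/-- lamps from reindexed lamps -/
def fG (τp : Sp → Bp → Y) (u : O → Sp) (g : Y → (O × Bp → S)) : (O × Bp) × Y → S :=
  fun z => g (z.2 - yy τp u z.1) z.1

/-- the reindexing equivalence -/
def fGE (τp : Sp → Bp → Y) (u : O → Sp) : (Y → (O × Bp → S)) ≃ ((O × Bp) × Y → S) where
  toFun g := fG τp u g
  invFun f := fun y j => f (j, y + yy τp u j)
  left_inv g := by
    ext y j
    simp [fG]
  right_inv f := by
    ext z
    simp [fG]

theorem fG_update (u : O → Sp) (g : Y → (O × Bp → S)) (v : O × Bp → S) :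
    fG τp u (Function.update g 0 v) = setOwn τp u (fG τp u g) v := by
  ext z
  simp only [fG, setOwn]
  by_cases hp : z.2 = yy τp u z.1
  · rw [if_pos hp, hp, sub_self]
    simp
  · rw [if_neg hp]
    have : z.2 - yy τp u z.1 ≠ 0 := fun h => hp (sub_eq_zero.mp h)
    rw [Function.update_of_ne this]

theorem mix_T0 (u : O → Sp) (g g' : Y → (O × Bp → S)) :
    mix (T0 τp u) (fG τp u g) (fG τp u g') = fG τp u (Function.update g 0 (g' 0)) := by
  rw [fG_update]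
  ext z
  simp only [mix, mem_T0, setOwn]
  by_cases hp : z.2 = yy τp u z.1
  · rw [if_pos hp, if_pos hp]
    simp only [fG, hp, sub_self]
  · rw [if_neg hp, if_neg hp]

/-- resampling the own lamps -/
theorem P4 (G : PH RR ρ τp σp ρp η ηp ζ) (hc : ∀ o, 0 ≤ c o)
    (hF : Hyp RR c F) (u : O → Sp) (l : Λ) :
    R2 (fun f => F (mk u f) (Sum.inl l)) (T0 τp u) ≤ η ^ 2 * ∑ o, c o := by
  unfold R2
  rw [← av_comp_equiv (fGE τp u)]
  have h1 : ∀ g : Y → (O × Bp → S), (av fun f' : (O × Bp) × Y → S =>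
      ‖F (mk u ((fGE τp u) g)) (Sum.inl l)
        - F (mk u (mix (T0 τp u) ((fGE τp u) g) f')) (Sum.inl l)‖ ^ 2)
      = av fun v : O × Bp → S => ‖F (mk u (fG τp u g)) (Sum.inl l)
        - F (mk u (fG τp u (Function.update g 0 v))) (Sum.inl l)‖ ^ 2 := by
    intro g
    rw [← av_comp_equiv (fGE τp u)]
    have h2 : ∀ g' : Y → (O × Bp → S), mix (T0 τp u) ((fGE τp u) g) ((fGE τp u) g')
        = fG τp u (Function.update g 0 (g' 0)) := fun g' => mix_T0 u g g'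
    simp only [h2]
    exact av_eval (0 : Y) (fun v : O × Bp → S => ‖F (mk u (fG τp u g)) (Sum.inl l)
        - F (mk u (fG τp u (Function.update g 0 v))) (Sum.inl l)‖ ^ 2)
  simp only [h1]
  rw [← av_update (0 : Y)]
  apply av_le_const
  intro g
  simp only [Function.update_idem]
  have h5 := P3 G hc hF u (fG τp u g) l
  simp only [fG_update]
  exact h5

/-- translates of the position family -/
def shU (σp : Y → Sp ≃ Sp) (v : Y) : (O → Sp) ≃ (O → Sp) :=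
  Equiv.arrowCongr (Equiv.refl O) (σp v)

theorem yy_shU (hf : ∀ v s b, τp (σp v s) b = v + τp s b) (v : Y) (u : O → Sp) (j : O × Bp) :
    yy τp (shU σp v u) j = v + yy τp u j := by
  simp only [yy, shU, Equiv.arrowCongr_apply, Function.comp]
  exact hf _ _ _

theorem T0_disj (hf : ∀ v s b, τp (σp v s) b = v + τp s b) (u : O → Sp) (v w : Y) (hvw : v ≠ w) :
    Disjoint (T0 τp (shU σp v u)) (T0 τp (shU σp w u)) := by
  rw [Finset.disjoint_left]
  intro z h h'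
  rw [mem_T0, yy_shU hf] at h h'
  exact hvw (add_right_cancel (h.symm.trans h'))

theorem T0_cover (hf : ∀ v s b, τp (σp v s) b = v + τp s b) (u : O → Sp) :
    Finset.univ.biUnion (fun v => T0 τp (shU σp v u)) = Finset.univ := by
  ext z
  simp only [Finset.mem_biUnion, Finset.mem_univ, true_and, iff_true]
  refine ⟨z.2 - yy τp u z.1, ?_⟩
  rw [mem_T0, yy_shU hf, sub_add_cancel]

/-- all lamps from own lamps, for a map that does not depend on the positions -/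
theorem all_le (hf : ∀ v s b, τp (σp v s) b = v + τp s b) (m : ((O × Bp) × Y → S) → K) :
    R2 m Finset.univ ≤ (Fintype.card Y : ℝ) * av (fun u : O → Sp => R2 m (T0 τp u)) := by
  have h1 : ∀ u : O → Sp, R2 m Finset.univ ≤ ∑ v : Y, R2 m (T0 τp (shU σp v u)) := by
    intro u
    rw [← T0_cover hf u]
    exact R2_biUnion m _ _ (fun i j hij => T0_disj hf u i j hij)
  have h2 : R2 m Finset.univ ≤ av (fun u : O → Sp => ∑ v : Y, R2 m (T0 τp (shU σp v u))) := by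
    rw [← av_const (α := O → Sp) (R2 m Finset.univ)]
    exact av_mono h1
  rw [av_sum] at h2
  have h3 : ∀ v : Y, av (fun u : O → Sp => R2 m (T0 τp (shU σp v u)))
      = av (fun u : O → Sp => R2 m (T0 τp u)) := fun v =>
    av_comp_equiv (shU σp v) (fun u => R2 m (T0 τp u))
  simp only [h3, Finset.sum_const, Finset.card_univ, nsmul_eq_mul] at h2
  exact h2

/-- position average in lamp mode -/
theorem P5 (G : PH RR ρ τp σp ρp η ηp ζ) (hc : ∀ o, 0 ≤ c o)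
    (hF : Hyp RR c F) (f : (O × Bp) × Y → S) (l : Λ) (l1 : Λp) :
    av (fun u : O → Sp => av fun u' : O → Sp =>
      ‖F (mk u f) (Sum.inl l) - F (mk u' f) (Sum.inl l)‖ ^ 2)
      ≤ ((ηp + 2 * ζ) * √(∑ o, c o)) ^ 2 := by
  have hC : 0 ≤ ∑ o, c o := Finset.sum_nonneg fun o _ => hc o
  have hζ := G.ζ0
  have hηp := G.ηp0
  set κ := √(∑ o, c o) with hκ
  have hκ0 : 0 ≤ κ := Real.sqrt_nonneg _
  have hκ2 : κ ^ 2 = ∑ o, c o := Real.sq_sqrt hC
  have h1 : N2 (fun p : (O → Sp) × (O → Sp) =>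
      ‖F (mk p.1 f) (Sum.inl l) - F (mk p.2 f) (Sum.inl l)‖)
      ≤ N2 (fun _ : (O → Sp) × (O → Sp) => ζ * κ)
        + N2 (fun p : (O → Sp) × (O → Sp) =>
          ‖F (mk p.1 f) (Sum.inr l1) - F (mk p.2 f) (Sum.inr l1)‖)
        + N2 (fun _ : (O → Sp) × (O → Sp) => ζ * κ) := by
    apply N2_tri3
    rintro ⟨u, u'⟩
    rw [abs_of_nonneg (norm_nonneg _)]
    simp only
    have e1 := P1 G hc hF (mk u f) (Sum.inl l) (Sum.inr l1)
    have e2 := P1 G hc hF (mk u' f) (Sum.inr l1) (Sum.inl l)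
    have e3 := norm_sub_le_norm_sub_add_norm_sub (F (mk u f) (Sum.inl l))
      (F (mk u f) (Sum.inr l1)) (F (mk u' f) (Sum.inl l))
    have e4 := norm_sub_le_norm_sub_add_norm_sub (F (mk u f) (Sum.inr l1))
      (F (mk u' f) (Sum.inr l1)) (F (mk u' f) (Sum.inl l))
    linarith
  have h2 : N2 (fun p : (O → Sp) × (O → Sp) =>
          ‖F (mk p.1 f) (Sum.inr l1) - F (mk p.2 f) (Sum.inr l1)‖) ≤ ηp * κ := by
    apply N2_le_of_sq (by positivity)
    rw [mul_pow, hκ2, av_prod]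
    exact P2 G hc hF f l1
  rw [N2_const (by positivity)] at h1
  have h3 : N2 (fun p : (O → Sp) × (O → Sp) =>
      ‖F (mk p.1 f) (Sum.inl l) - F (mk p.2 f) (Sum.inl l)‖) ≤ (ηp + 2 * ζ) * κ := by linarith
  have h4 := pow_le_pow_left₀ (N2_nonneg _) h3 2
  rw [N2_sq, av_prod] at h4
  exact h4

/-- main estimate in lamp mode -/
theorem P6 (G : PH RR ρ τp σp ρp η ηp ζ) (hc : ∀ o, 0 ≤ c o)
    (hF : Hyp RR c F) (l : Λ) (l1 : Λp) :
    N2 (fun p : ((O → Sp) × ((O × Bp) × Y → S)) × ((O → Sp) × ((O × Bp) × Y → S)) =>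
      ‖F (mk p.1.1 p.1.2) (Sum.inl l) - F (mk p.2.1 p.2.2) (Sum.inl l)‖)
      ≤ (√(Fintype.card Y : ℝ) * (η + (ηp + 2 * ζ)) + √2 * (ηp + 2 * ζ)) * √(∑ o, c o) := by
  have hC : 0 ≤ ∑ o, c o := Finset.sum_nonneg fun o _ => hc o
  have hζ := G.ζ0
  have hη := G.η0
  have hηp := G.ηp0
  set κ := √(∑ o, c o) with hκ
  have hκ0 : 0 ≤ κ := Real.sqrt_nonneg _
  have hκ2 : κ ^ 2 = ∑ o, c o := Real.sq_sqrt hC
  set φ := (ηp + 2 * ζ) * κ with hφ
  have hφ0 : 0 ≤ φ := by positivity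
  set Fm : (O → Sp) → ((O × Bp) × Y → S) → K := fun u f => F (mk u f) (Sum.inl l) with hFm
  set m : ((O × Bp) × Y → S) → K := fun f => vm (fun u => Fm u f) with hm
  have hvar : ∀ f, 2 * av (fun u => ‖Fm u f - m f‖ ^ 2) ≤ φ ^ 2 := by
    intro f
    rw [hm, two_var_eq]
    exact P5 G hc hF f l l1
  have hV : 2 * av (fun u => av fun f => ‖Fm u f - m f‖ ^ 2) ≤ φ ^ 2 := by
    rw [av_comm, ← av_mul_left]
    exact av_le_const hvar
  -- own lamps for `m`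
  have h1 : av (fun u : O → Sp => R2 m (T0 τp u)) ≤ (η * κ + φ) ^ 2 := by
    have e1 : N2 (fun ω : (O → Sp) × ((O × Bp) × Y → S) × ((O × Bp) × Y → S) =>
        ‖m ω.2.1 - m (mix (T0 τp ω.1) ω.2.1 ω.2.2)‖)
        ≤ N2 (fun ω : (O → Sp) × ((O × Bp) × Y → S) × ((O × Bp) × Y → S) =>
          ‖Fm ω.1 ω.2.1 - Fm ω.1 (mix (T0 τp ω.1) ω.2.1 ω.2.2)‖)
        + N2 (fun ω : (O → Sp) × ((O × Bp) × Y → S) × ((O × Bp) × Y → S) =>
          ‖(m ω.2.1 - Fm ω.1 ω.2.1) - (m (mix (T0 τp ω.1) ω.2.1 ω.2.2)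
            - Fm ω.1 (mix (T0 τp ω.1) ω.2.1 ω.2.2))‖) := by
      apply N2_tri
      rintro ⟨u, f, f'⟩
      rw [abs_of_nonneg (norm_nonneg _)]
      simp only
      refine le_trans (le_of_eq ?_) (norm_add_le _ _)
      congr 1; abel
    have e2 : N2 (fun ω : (O → Sp) × ((O × Bp) × Y → S) × ((O × Bp) × Y → S) =>
          ‖Fm ω.1 ω.2.1 - Fm ω.1 (mix (T0 τp ω.1) ω.2.1 ω.2.2)‖) ≤ η * κ := by
      apply N2_le_of_sq (by positivity)
      rw [mul_pow, hκ2, av_prod]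
      apply av_le_const; intro u
      rw [av_prod]
      exact P4 G hc hF u l
    have e3 : N2 (fun ω : (O → Sp) × ((O × Bp) × Y → S) × ((O × Bp) × Y → S) =>
          ‖(m ω.2.1 - Fm ω.1 ω.2.1) - (m (mix (T0 τp ω.1) ω.2.1 ω.2.2)
            - Fm ω.1 (mix (T0 τp ω.1) ω.2.1 ω.2.2))‖) ≤ φ := by
      apply N2_le_of_sq hφ0
      refine le_trans ?_ hV
      rw [av_prod, ← av_mul_left]
      apply av_mono; intro u
      rw [av_prod]
      have := R2_le_var (fun f => m f - Fm u f) (T0 τp u)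
      refine this.trans (le_of_eq ?_)
      congr 2; ext f
      rw [norm_sub_rev]
    have e4 := pow_le_pow_left₀ (N2_nonneg _) (e1.trans (add_le_add e2 e3)) 2
    rw [N2_sq, av_prod] at e4
    refine le_trans (le_of_eq ?_) e4
    congr 1; ext u
    unfold R2
    rw [av_prod]
  have h2 := all_le G.flip m
  rw [R2_univ] at h2
  have hY : (0:ℝ) ≤ Fintype.card Y := Nat.cast_nonneg _
  -- total
  have h3 : N2 (fun p : ((O → Sp) × ((O × Bp) × Y → S)) × ((O → Sp) × ((O × Bp) × Y → S)) =>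
      ‖Fm p.1.1 p.1.2 - Fm p.2.1 p.2.2‖)
      ≤ N2 (fun p : ((O → Sp) × ((O × Bp) × Y → S)) × ((O → Sp) × ((O × Bp) × Y → S)) =>
        ‖Fm p.1.1 p.1.2 - m p.1.2‖)
      + N2 (fun p : ((O → Sp) × ((O × Bp) × Y → S)) × ((O → Sp) × ((O × Bp) × Y → S)) =>
        ‖m p.1.2 - m p.2.2‖)
      + N2 (fun p : ((O → Sp) × ((O × Bp) × Y → S)) × ((O → Sp) × ((O × Bp) × Y → S)) =>
        ‖Fm p.2.1 p.2.2 - m p.2.2‖) := by
    apply N2_tri3
    rintro ⟨⟨u, f⟩, ⟨u', f'⟩⟩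
    rw [abs_of_nonneg (norm_nonneg _)]
    simp only
    have e3 := norm_sub_le_norm_sub_add_norm_sub (Fm u f) (m f) (Fm u' f')
    have e4 := norm_sub_le_norm_sub_add_norm_sub (m f) (m f') (Fm u' f')
    rw [norm_sub_rev (m f') (Fm u' f')] at e4
    linarith
  have hs2 : 0 < √2 := Real.sqrt_pos.mpr (by norm_num)
  have hs22 : √2 ^ 2 = (2:ℝ) := Real.sq_sqrt (by norm_num)
  have h4 : ∀ (i : Bool), N2 (fun p : ((O → Sp) × ((O × Bp) × Y → S))
      × ((O → Sp) × ((O × Bp) × Y → S)) =>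
        if i then ‖Fm p.1.1 p.1.2 - m p.1.2‖ else ‖Fm p.2.1 p.2.2 - m p.2.2‖) ≤ φ / √2 := by
    intro i
    have hVV : av (fun u => av fun f => ‖Fm u f - m f‖ ^ 2) ≤ (φ / √2) ^ 2 := by
      rw [div_pow, hs22]; linarith
    apply N2_le_of_sq (by positivity)
    cases i with
    | true =>
      simp only [if_true]
      rw [av_prod]
      simp only [av_const]
      rw [av_prod]
      exact hVV
    | false =>
      simp only [Bool.false_eq_true, if_false]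
      rw [av_prod]
      apply av_le_const; rintro ⟨u, f⟩
      rw [av_prod]
      exact hVV
  have h5 : N2 (fun p : ((O → Sp) × ((O × Bp) × Y → S)) × ((O → Sp) × ((O × Bp) × Y → S)) =>
        ‖m p.1.2 - m p.2.2‖) ≤ √(Fintype.card Y : ℝ) * (η * κ + φ) := by
    apply N2_le_of_sq (by positivity)
    rw [mul_pow, Real.sq_sqrt hY]
    refine le_trans (le_of_eq ?_) (h2.trans (mul_le_mul_of_nonneg_left h1 hY))
    rw [av_prod, av_prod]
    simp only [av_prod (α := O → Sp), av_const]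
  have h6 := h4 true
  have h7 := h4 false
  simp only [if_true] at h6
  simp only [Bool.false_eq_true, if_false] at h7
  have h8 : φ / √2 + φ / √2 = √2 * φ := by
    field_simp
    rw [hs22]; ring
  have h9 : (√(Fintype.card Y : ℝ) * (η + (ηp + 2 * ζ)) + √2 * (ηp + 2 * ζ)) * κ
      = √(Fintype.card Y : ℝ) * (η * κ + φ) + √2 * φ := by rw [hφ]; ring
  rw [h9]
  linarith

/-- the Poincare inequality of the next gadget -/
theorem step_g7 (G : PH RR ρ τp σp ρp η ηp ζ) (l0 : Λ) (l1 : Λp) (η' : ℝ)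
    (hη' : √(Fintype.card Y : ℝ) * (η + (ηp + 2 * ζ)) + √2 * (ηp + 2 * ζ) + 2 * ζ ≤ η') :
    Poinc (S := Pt Sp Bp Y S) (Λ := Λ ⊕ Λp) RR η' := by
  intro O _ _ c hc K _ _ F hF l
  have hC : 0 ≤ ∑ o, c o := Finset.sum_nonneg fun o _ => hc o
  have hζ := G.ζ0
  have hη := G.η0
  have hηp := G.ηp0
  set κ := √(∑ o, c o) with hκ
  have hκ0 : 0 ≤ κ := Real.sqrt_nonneg _
  have hκ2 : κ ^ 2 = ∑ o, c o := Real.sq_sqrt hC
  have h1 : av (fun s => av fun t => ‖F s l - F t l‖ ^ 2)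
      = N2 (fun p : ((O → Sp) × ((O × Bp) × Y → S)) × ((O → Sp) × ((O × Bp) × Y → S)) =>
        ‖F (mk p.1.1 p.1.2) l - F (mk p.2.1 p.2.2) l‖) ^ 2 := by
    rw [N2_sq, av_prod, ← av_comp_equiv (mkE (Sp := Sp) (Bp := Bp) (Y := Y) (S := S) (O := O))]
    congr 1; ext p
    rw [← av_comp_equiv (mkE (Sp := Sp) (Bp := Bp) (Y := Y) (S := S) (O := O))]
    rfl
  rw [h1]
  have h2 : N2 (fun p : ((O → Sp) × ((O × Bp) × Y → S)) × ((O → Sp) × ((O × Bp) × Y → S)) =>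
        ‖F (mk p.1.1 p.1.2) l - F (mk p.2.1 p.2.2) l‖)
      ≤ N2 (fun p : ((O → Sp) × ((O × Bp) × Y → S)) × ((O → Sp) × ((O × Bp) × Y → S)) =>
        ‖F (mk p.1.1 p.1.2) (Sum.inl l0) - F (mk p.2.1 p.2.2) (Sum.inl l0)‖)
      + N2 (fun _ : ((O → Sp) × ((O × Bp) × Y → S)) × ((O → Sp) × ((O × Bp) × Y → S)) =>
        2 * (ζ * κ)) := by
    apply N2_tri
    rintro ⟨⟨u, f⟩, ⟨u', f'⟩⟩
    rw [abs_of_nonneg (norm_nonneg _)]
    simp only
    have e1 := P1 G hc hF (mk u f) l (Sum.inl l0)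
    have e2 := P1 G hc hF (mk u' f') (Sum.inl l0) l
    have e3 := norm_sub_le_norm_sub_add_norm_sub (F (mk u f) l)
      (F (mk u f) (Sum.inl l0)) (F (mk u' f') l)
    have e4 := norm_sub_le_norm_sub_add_norm_sub (F (mk u f) (Sum.inl l0))
      (F (mk u' f') (Sum.inl l0)) (F (mk u' f') l)
    linarith
  rw [N2_const (by positivity)] at h2
  have h3 := P6 G hc hF l0 l1
  have h4 : N2 (fun p : ((O → Sp) × ((O × Bp) × Y → S)) × ((O → Sp) × ((O × Bp) × Y → S)) =>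
        ‖F (mk p.1.1 p.1.2) l - F (mk p.2.1 p.2.2) l‖) ≤ η' * κ := by
    have e5 : (√(Fintype.card Y : ℝ) * (η + (ηp + 2 * ζ)) + √2 * (ηp + 2 * ζ) + 2 * ζ) * κ
        ≤ η' * κ := mul_le_mul_of_nonneg_right hη' hκ0
    have e6 : (√(Fintype.card Y : ℝ) * (η + (ηp + 2 * ζ)) + √2 * (ηp + 2 * ζ) + 2 * ζ) * κ
        = (√(Fintype.card Y : ℝ) * (η + (ηp + 2 * ζ)) + √2 * (ηp + 2 * ζ)) * κ + 2 * (ζ * κ) := by
      ring
    linarith
  have h5 := pow_le_pow_left₀ (N2_nonneg _) h4 2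
  rw [mul_pow, hκ2] at h5
  exact h5

end poinc

end Pool.Agent.Lib.MP_caca3f_an.Sharp
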