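import Pool.Agent.Lib.MP_caca3f_an.Sharp.Emb
import Pool.Agent.Lib.MP_caca3f_an.Sharp.Glue
import Pool.Agent.Lib.MP_caca3f_an.Sharp.Poinc

/-! The next gadget. -/

namespace Pool.Agent.Lib.MP_caca3f_an.Sharp

open Finset

set_option linter.unusedSectionVars false

section step

variable {Sp Bp Y Λp S B Y' Λ Cl K Kp : Type} [Fintype Sp] [Nonempty Sp] [Fintype Bp]
  [DecidableEq Bp]
  [Nonempty Bp] [Fintype Y] [DecidableEq Y] [AddGroup Y] [Fintype S] [Nonempty S] [Fintype B]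
  [Nonempty B]
  [Fintype Y'] [DecidableEq Y'] [AddGroup Y'] [Finite Λ] [Finite Λp] [Nonempty Cl]
  [NormedAddCommGroup K] [InnerProductSpace ℝ K] [NormedAddCommGroup Kp] [InnerProductSpace ℝ Kp]

variable {n a5 a6 ε ζ L R η Lp Rp ηp lam : ℝ} {c : Λ → Cl} {cp : Λp → Cl} {ℓ ℓp : Cl → ℝ}
  {τ : S → B → Y'} {σ : Y' → S ≃ S} {ρ : S → Λ → S → Λ → ℝ} {θ : Λ → S → B → ℝ} {κ : Λ → S → K}
  {τp : Sp → Bp → Y} {σp : Y → Sp ≃ Sp} {ρp : Sp → Λp → Sp → Λp → ℝ} {θp : Λp → Sp → Bp → ℝ}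
  {κp : Λp → Sp → Kp}

/-- flips of the next gadget -/
def σ' (σ : Y' → S ≃ S) (v : Y') : Pt Sp Bp Y S ≃ Pt Sp Bp Y S :=
  Equiv.prodCongr (Equiv.refl Sp) (Equiv.arrowCongr (Equiv.refl (Bp × Y)) (σ v))

theorem τ'_flip (hf : ∀ v s b, τ (σ v s) b = v + τ s b) (v : Y') (s : Pt Sp Bp Y S)
    (b : Bp × Y × B) : τ' τ (σ' σ v s) b = v + τ' τ s b := by
  simp only [τ', σ', Equiv.prodCongr_apply, Prod.map, Equiv.arrowCongr_apply, Function.comp]
  exact hf _ _ _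

/-- keys of points with sheets -/
def keyP (τp : Sp → Bp → Y) (p : Pt Sp Bp Y S × (Λ ⊕ Λp)) : KEY Sp Bp Y S := key τp p.2 p.1

/-- cost inside a fibre -/
noncomputable def cost (τp : Sp → Bp → Y) (ρ : S → Λ → S → Λ → ℝ) (ρp : Sp → Λp → Sp → Λp → ℝ)
    (p q : Pt Sp Bp Y S × (Λ ⊕ Λp)) : ℝ :=
  match p.2, q.2 with
  | Sum.inl a, Sum.inl b => N2 (fun β => ρ (own τp p.1 β) a (own τp q.1 β) b)
  | Sum.inr a, Sum.inr b => ρp p.1.1 a q.1.1 b
  | _, _ => 0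

/-- the metric of the next gadget -/
noncomputable def ρ' (ℓ ℓp : Cl → ℝ) (τ : S → B → Y') (τp : Sp → Bp → Y)
    (ρ : S → Λ → S → Λ → ℝ) (ρp : Sp → Λp → Sp → Λp → ℝ) (E ζ : ℝ)
    (s : Pt Sp Bp Y S) (x : Λ ⊕ Λp) (t : Pt Sp Bp Y S) (y : Λ ⊕ Λp) : ℝ :=
  gl (keyP τp) (cost τp ρ ρp) (fun p q => dh ℓ ℓp τ τp p.1 q.1) E ζ (s, x) (t, y)

theorem gh (G : IsG n a5 a6 c ℓ L R η τ σ ρ θ κ) (Gp : IsG n a5 a6 cp ℓp Lp Rp ηp τp σp ρp θp κp) :
    GH (keyP (Λ := Λ) (Λp := Λp) τp) (cost τp ρ ρp)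
      (fun p q : Pt Sp Bp Y S × (Λ ⊕ Λp) => dh ℓ ℓp τ τp p.1 q.1) (R + Rp) := by
  have hR := G.R_nonneg
  have hRp := Gp.R_nonneg
  constructor
  · rintro ⟨s, a | b⟩ ⟨t, a' | b'⟩
    · exact N2_nonneg _
    · exact le_rfl
    · exact le_rfl
    · exact Gp.ρ_nonneg _ _ _ _
  · rintro ⟨s, a | b⟩
    · simp only [cost, G.ρ_self]; exact N2_const le_rfl
    · simp only [cost, Gp.ρ_self]
  · rintro ⟨s, a | b⟩ ⟨t, a' | b'⟩ _
    · simp only [cost]; congr 1; ext β; exact G.ρ_symm _ _ _ _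
    · rfl
    · rfl
    · simp only [cost]; exact Gp.ρ_symm _ _ _ _
  · rintro ⟨s, a | b⟩ ⟨t, a' | b'⟩ ⟨u, a'' | b''⟩ h1 h2
    · simp only [cost]
      apply N2_tri
      intro β
      rw [abs_of_nonneg (G.ρ_nonneg _ _ _ _)]
      exact G.ρ_tri _ _ _ _ _ _
    · exact absurd h2 key_inl_inr
    · exact absurd h1 key_inl_inr
    · exact absurd h1 key_inl_inr
    · exact absurd h1.symm key_inl_inr
    · exact absurd h1.symm key_inl_inr
    · exact absurd h2.symm key_inl_inr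
    · simp only [cost]
      exact Gp.ρ_tri _ _ _ _ _ _
  · intro p q; exact dh_nonneg _ _
  · intro p; exact dh_self _
  · intro p q; exact dh_symm _ _
  · intro p q r; exact dh_tri _ _ _
  · exact add_nonneg hR hRp
  · rintro ⟨s, a | b⟩ ⟨t, a' | b'⟩ hk
    · have hs : SameA τp s t := key_inl.mp hk
      obtain ⟨l, hl⟩ := G.L_att
      simp only [cost]
      refine (dh_le l s t).trans ?_
      rw [hl, qg_sameA G.L_pos.le hs, ← N2_smul G.L_pos.le]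
      have h1 : N2 (fun β => L * fr (τ (own τp s β)) (τ (own τp t β)))
          ≤ N2 (fun β => ρ (own τp s β) a (own τp t β) a') + N2 (fun _ : Bp => R) := by
        apply N2_tri
        intro β
        rw [abs_of_nonneg (mul_nonneg G.L_pos.le (fr_nonneg _ _))]
        exact G.lab _ _ _ _
      rw [N2_const hR] at h1
      linarith
    · exact absurd hk key_inl_inr
    · exact absurd hk.symm key_inl_inr
    · have hs : s.2 = t.2 := key_inr.mp hk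
      obtain ⟨l, hl⟩ := Gp.L_att
      simp only [cost]
      refine (dh_le l s t).trans ?_
      rw [hl, qg_sameB Gp.L_pos.le hs]
      have := Gp.lab s.1 b t.1 b'
      linarith

theorem om_sub_iw (x : Λ ⊕ Λp) (s : Pt Sp Bp Y S) (i : Bp × Y × B) :
    om c cp ℓ ℓp τp θ θp x s i - iw (ℓ (c' c cp x)) (ℓp (c' c cp x)) τp s i
      = if i.2.1 = τp s.1 i.1 then
        (match x with
        | Sum.inl a => -(ℓ (c a) * (1 - θ a (own τp s i.1) i.2.2))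
        | Sum.inr b => ℓp (cp b) * (1 - θp b s.1 i.1)) else 0 := by
  rcases x with a | b
  · unfold om iw c'
    simp only [Sum.elim_inl]
    split_ifs <;> ring
  · unfold om iw c'
    simp only [Sum.elim_inr]
    split_ifs <;> ring

theorem T_err (G : IsG n a5 a6 c ℓ L R η τ σ ρ θ κ)
    (Gp : IsG n a5 a6 cp ℓp Lp Rp ηp τp σp ρp θp κp) (x : Λ ⊕ Λp) (s : Pt Sp Bp Y S) :
    ld (w0 Bp B) (fun i => om c cp ℓ ℓp τp θ θp x s i / √2) (τ' τ s)
      (fun i => iw (ℓ (c' c cp x)) (ℓp (c' c cp x)) τp s i / √2) (τ' τ s) ≤ R + Rp := by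
  have hB : (0:ℝ) < Fintype.card B := by exact_mod_cast Fintype.card_pos
  have hBp : (0:ℝ) < Fintype.card Bp := by exact_mod_cast Fintype.card_pos
  have hR := G.R_nonneg
  have hRp := Gp.R_nonneg
  have h22 : √2 ^ 2 = (2:ℝ) := Real.sq_sqrt (by norm_num)
  apply ld_le_of_sq w0_nonneg (add_nonneg hR hRp)
  have e1 : ∀ i : Bp × Y × B, lab2 (om c cp ℓ ℓp τp θ θp x s i / √2) (τ' τ s i)
      (iw (ℓ (c' c cp x)) (ℓp (c' c cp x)) τp s i / √2) (τ' τ s i)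
      = (om c cp ℓ ℓp τp θ θp x s i - iw (ℓ (c' c cp x)) (ℓp (c' c cp x)) τp s i) ^ 2 / 2 := by
    intro i
    rw [lab2_same, ← sub_div, div_pow, h22]
  simp only [e1, om_sub_iw]
  rw [Fintype.sum_prod_type]
  rcases x with a | b
  · simp only
    have e2 : ∀ β : Bp, (∑ j : Y × B, (if j.1 = τp s.1 β then
        -(ℓ (c a) * (1 - θ a (own τp s β) j.2)) else 0) ^ 2 / 2)
        = (Fintype.card B : ℝ) * ((ℓ (c a) * N2 (fun b0 => 1 - θ a (own τp s β) b0)) ^ 2 / 2) := by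
      intro β
      rw [Fintype.sum_prod_type, Finset.sum_eq_single (τp s.1 β)]
      · simp only [if_true]
        rw [mul_pow, N2_sq]
        unfold av
        rw [Finset.sum_div, Finset.mul_sum, Finset.sum_div, Finset.mul_sum]
        apply Finset.sum_congr rfl; intro b0 _
        field_simp
      · intro y _ hy
        apply Finset.sum_eq_zero; intro b0 _
        rw [if_neg hy]; simp
      · intro h; exact absurd (Finset.mem_univ _) h
    simp only [e2]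
    have e3 : ∀ β : Bp, (Fintype.card B : ℝ)
        * ((ℓ (c a) * N2 (fun b0 => 1 - θ a (own τp s β) b0)) ^ 2 / 2)
        ≤ (Fintype.card B : ℝ) * (R ^ 2 / 2) := by
      intro β
      apply mul_le_mul_of_nonneg_left _ hB.le
      apply div_le_div_of_nonneg_right _ (by norm_num)
      apply pow_le_pow_left₀ _ (G.θc a _)
      exact mul_nonneg (G.L_pos.le.trans (G.L_le _)) (N2_nonneg _)
    have e4 := Finset.sum_le_sum fun β (_ : β ∈ (Finset.univ : Finset Bp)) => e3 β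
    refine (mul_le_mul_of_nonneg_left e4 w0_nonneg).trans ?_
    rw [Finset.sum_const, Finset.card_univ, nsmul_eq_mul]
    unfold w0
    have : 1 / ((Fintype.card Bp : ℝ) * (Fintype.card B : ℝ))
        * ((Fintype.card Bp : ℝ) * ((Fintype.card B : ℝ) * (R ^ 2 / 2))) = R ^ 2 / 2 := by
      field_simp
    rw [this]
    nlinarith
  · simp only
    have e2 : ∀ β : Bp, (∑ j : Y × B, (if j.1 = τp s.1 β then
        (ℓp (cp b) * (1 - θp b s.1 β)) else 0) ^ 2 / 2)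
        = (Fintype.card B : ℝ) * ((ℓp (cp b)) ^ 2 / 2 * (1 - θp b s.1 β) ^ 2) := by
      intro β
      rw [Fintype.sum_prod_type, Finset.sum_eq_single (τp s.1 β)]
      · simp only [if_true]
        rw [Finset.sum_const, Finset.card_univ, nsmul_eq_mul]
        ring
      · intro y _ hy
        apply Finset.sum_eq_zero; intro b0 _
        rw [if_neg hy]; simp
      · intro h; exact absurd (Finset.mem_univ _) h
    simp only [e2]
    have e3 : w0 Bp B * ∑ β : Bp, (Fintype.card B : ℝ)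
        * ((ℓp (cp b)) ^ 2 / 2 * (1 - θp b s.1 β) ^ 2)
        = (ℓp (cp b) * N2 (fun β => 1 - θp b s.1 β)) ^ 2 / 2 := by
      rw [mul_pow, N2_sq, ← Finset.mul_sum, ← Finset.mul_sum]
      unfold av w0
      field_simp
    rw [e3]
    have e5 := pow_le_pow_left₀ (mul_nonneg (Gp.L_pos.le.trans (Gp.L_le (cp b))) (N2_nonneg _))
      (Gp.θc b s.1) 2
    nlinarith

theorem dT_le (G : IsG n a5 a6 c ℓ L R η τ σ ρ θ κ)
    (Gp : IsG n a5 a6 cp ℓp Lp Rp ηp τp σp ρp θp κp) {x y : Λ ⊕ Λp} (hxy : c' c cp x = c' c cp y)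
    (s t : Pt Sp Bp Y S) : dT c cp ℓ ℓp τ τp θ θp x s y t
      ≤ qg (ℓ (c' c cp x)) (ℓp (c' c cp x)) τ τp s t + 2 * (R + Rp) := by
  have h1 := T_err G Gp x s
  have h2 := T_err G Gp y t
  rw [ld_symm w0_nonneg, ← hxy] at h2
  unfold dT
  have h3 := ld_tri (w0_nonneg (Bp := Bp) (B := B)) (fun i => om c cp ℓ ℓp τp θ θp x s i / √2)
    (fun i => iw (ℓ (c' c cp x)) (ℓp (c' c cp x)) τp s i / √2)
    (fun i => om c cp ℓ ℓp τp θ θp y t i / √2) (τ' τ s) (τ' τ s) (τ' τ t)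
  have h4 := ld_tri (w0_nonneg (Bp := Bp) (B := B)) (fun i => iw (ℓ (c' c cp x)) (ℓp (c' c cp x)) τp s i / √2)
    (fun i => iw (ℓ (c' c cp x)) (ℓp (c' c cp x)) τp t i / √2)
    (fun i => om c cp ℓ ℓp τp θ θp y t i / √2) (τ' τ s) (τ' τ t) (τ' τ t)
  have h5 : ld (w0 Bp B) (fun i => iw (ℓ (c' c cp x)) (ℓp (c' c cp x)) τp s i / √2) (τ' τ s)
    (fun i => iw (ℓ (c' c cp x)) (ℓp (c' c cp x)) τp t i / √2) (τ' τ t)
    = qg (ℓ (c' c cp x)) (ℓp (c' c cp x)) τ τp s t := rfl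
  linarith

theorem le_dT (G : IsG n a5 a6 c ℓ L R η τ σ ρ θ κ)
    (Gp : IsG n a5 a6 cp ℓp Lp Rp ηp τp σp ρp θp κp) {x y : Λ ⊕ Λp} (hxy : c' c cp x = c' c cp y)
    (s t : Pt Sp Bp Y S) : qg (ℓ (c' c cp x)) (ℓp (c' c cp x)) τ τp s t
      ≤ dT c cp ℓ ℓp τ τp θ θp x s y t + 2 * (R + Rp) := by
  have h1 := T_err G Gp x s
  have h2 := T_err G Gp y t
  rw [ld_symm w0_nonneg] at h1
  rw [← hxy] at h2
  unfold dT
  have h3 := ld_tri (w0_nonneg (Bp := Bp) (B := B)) (fun i => iw (ℓ (c' c cp x)) (ℓp (c' c cp x)) τp s i / √2)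
    (fun i => om c cp ℓ ℓp τp θ θp x s i / √2)
    (fun i => iw (ℓ (c' c cp x)) (ℓp (c' c cp x)) τp t i / √2) (τ' τ s) (τ' τ s) (τ' τ t)
  have h4 := ld_tri (w0_nonneg (Bp := Bp) (B := B)) (fun i => om c cp ℓ ℓp τp θ θp x s i / √2)
    (fun i => om c cp ℓ ℓp τp θ θp y t i / √2)
    (fun i => iw (ℓ (c' c cp x)) (ℓp (c' c cp x)) τp t i / √2) (τ' τ s) (τ' τ t) (τ' τ t)
  have h5 : ld (w0 Bp B) (fun i => iw (ℓ (c' c cp x)) (ℓp (c' c cp x)) τp s i / √2) (τ' τ s)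
    (fun i => iw (ℓ (c' c cp x)) (ℓp (c' c cp x)) τp t i / √2) (τ' τ t)
    = qg (ℓ (c' c cp x)) (ℓp (c' c cp x)) τ τp s t := rfl
  linarith

/-- numerical conditions -/
structure Num (n ε ζ R Rp : ℝ) : Prop where
  hn : 1 ≤ n
  ε0 : 0 < ε
  ζ0 : 0 < ζ
  small : 6 * (R + Rp) ≤ ε * ζ

theorem hd'_le (G : IsG n a5 a6 c ℓ L R η τ σ ρ θ κ)
    (Gp : IsG n a5 a6 cp ℓp Lp Rp ηp τp σp ρp θp κp) (hζ : 0 < ζ) {x y : Λ ⊕ Λp}
    (hxy : c' c cp x = c' c cp y) (s t : Pt Sp Bp Y S) :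
    hd (c' c cp) (ℓ' Y ℓ ℓp) (τ' τ) (θ' c cp ℓ ℓp τp θ θp) (κ' τp κ κp ζ) x s y t
      ≤ hy ζ (qg (ℓ (c' c cp x)) (ℓp (c' c cp x)) τ τp s t) + 4 * (R + Rp) := by
  have hR := G.R_nonneg
  have hRp := Gp.R_nonneg
  have hY : Nonempty Y := ⟨0⟩
  have hpos : ∀ l, 0 < ℓ l + ℓp l := fun l => by
    have := G.L_pos.trans_le (G.L_le l)
    have := Gp.L_pos.trans_le (Gp.L_le l)
    linarith
  rw [hd'_eq hpos]
  have h1 := dT_le G Gp hxy s t
  have h2 : ‖κ' τp κ κp ζ x s - κ' τp κ κp ζ y t‖ ≤ ζ + 2 * (R + Rp) :=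
    κ'_same hζ.le (fun a s => (G.κc a s).trans (by linarith))
      (fun a s => (Gp.κc a s).trans (by linarith)) (by linarith)
  refine (hy_mono (dT_nonneg _ _ _ _) (norm_nonneg _) h1 h2).trans ?_
  refine (hy_add_right (by linarith)).trans ?_
  have h3 := hy_add_left (a := qg (ℓ (c' c cp x)) (ℓp (c' c cp x)) τ τp s t) (b := ζ)
    (a' := 2 * (R + Rp)) (by linarith)
  rw [hy_comm ζ]
  linarith

theorem hd'_ge (G : IsG n a5 a6 c ℓ L R η τ σ ρ θ κ)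
    (Gp : IsG n a5 a6 cp ℓp Lp Rp ηp τp σp ρp θp κp) (hζ : 0 < ζ) {x y : Λ ⊕ Λp}
    (hxy : c' c cp x = c' c cp y) (s t : Pt Sp Bp Y S) (hk : key τp x s ≠ key τp y t) :
    hy ζ (qg (ℓ (c' c cp x)) (ℓp (c' c cp x)) τ τp s t)
      ≤ hd (c' c cp) (ℓ' Y ℓ ℓp) (τ' τ) (θ' c cp ℓ ℓp τp θ θp) (κ' τp κ κp ζ) x s y t
        + 2 * (R + Rp) ∧
    ζ ≤ hd (c' c cp) (ℓ' Y ℓ ℓp) (τ' τ) (θ' c cp ℓ ℓp τp θ θp) (κ' τp κ κp ζ) x s y t := by
  have hR := G.R_nonneg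
  have hRp := Gp.R_nonneg
  have hY : Nonempty Y := ⟨0⟩
  have hpos : ∀ l, 0 < ℓ l + ℓp l := fun l => by
    have := G.L_pos.trans_le (G.L_le l)
    have := Gp.L_pos.trans_le (Gp.L_le l)
    linarith
  rw [hd'_eq hpos]
  have h1 := le_dT G Gp hxy s t
  have h2 : ζ ≤ ‖κ' τp κ κp ζ x s - κ' τp κ κp ζ y t‖ := κ'_diff hk
  constructor
  · rw [hy_comm ζ]
    refine (hy_mono_left (qg_nonneg _ _) h1).trans ?_
    refine (hy_add_left (by linarith)).trans ?_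
    have h3 := hy_mono_right (a := dT c cp ℓ ℓp τ τp θ θp x s y t) hζ.le h2
    linarith
  · exact h2.trans right_le_hy

theorem step_up (G : IsG n (n * (1 + ε)) (1 + ε) c ℓ L R η τ σ ρ θ κ)
    (Gp : IsG n (n * (1 + ε)) (1 + ε) cp ℓp Lp Rp ηp τp σp ρp θp κp) (N : Num n ε ζ R Rp)
    (x y : Λ ⊕ Λp) (s t : Pt Sp Bp Y S) (hxy : c' c cp x = c' c cp y) :
    hd (c' c cp) (ℓ' Y ℓ ℓp) (τ' τ) (θ' c cp ℓ ℓp τp θ θp) (κ' τp κ κp ζ) x s y t
      ≤ n * (1 + ε) * ρ' ℓ ℓp τ τp ρ ρp (R + Rp) ζ s x t y := by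
  have hR := G.R_nonneg
  have hRp := Gp.R_nonneg
  have hn := N.hn
  have hε := N.ε0
  have hζ := N.ζ0
  have hsm := N.small
  have hn0 : 0 < n := by linarith
  have ha : 0 ≤ n * (1 + ε) := by positivity
  have hpos : ∀ l, 0 < ℓ l + ℓp l := fun l => by
    have := G.L_pos.trans_le (G.L_le l)
    have := Gp.L_pos.trans_le (Gp.L_le l)
    linarith
  have H := gh G Gp
  set E := R + Rp with hE
  have hE0 : 0 ≤ E := add_nonneg hR hRp
  -- the coarse bound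
  have h1 : hd (c' c cp) (ℓ' Y ℓ ℓp) (τ' τ) (θ' c cp ℓ ℓp τp θ θp) (κ' τp κ κp ζ) x s y t
      ≤ n * (1 + ε) * bb (keyP τp) (cost τp ρ ρp)
        (fun p q : Pt Sp Bp Y S × (Λ ⊕ Λp) => dh ℓ ℓp τ τp p.1 q.1) E ζ (s, x) (t, y) := by
    refine (hd'_le G Gp hζ hxy s t).trans ?_
    set D := dtl (keyP τp) (cost τp ρ ρp)
        (fun p q : Pt Sp Bp Y S × (Λ ⊕ Λp) => dh ℓ ℓp τ τp p.1 q.1) (s, x) (t, y) with hD
    have hD0 : 0 ≤ D := dtl_nonneg H _ _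
    have e1 := qg_le_n_dh (τ := τ) (τp := τp) hn0.le G.L_pos.le Gp.L_pos.le G.L_le Gp.L_le G.le_nL
      Gp.le_nL (c' c cp x) s t
    have e2 : dh ℓ ℓp τ τp s t ≤ D + 2 * E := dd_le_dtl H (s, x) (t, y)
    have e3 : qg (ℓ (c' c cp x)) (ℓp (c' c cp x)) τ τp s t ≤ n * D + n * (2 * E) := by
      have := mul_le_mul_of_nonneg_left e2 hn0.le
      linarith
    have e4 : hy ζ (qg (ℓ (c' c cp x)) (ℓp (c' c cp x)) τ τp s t) ≤ hy ζ (n * D) + n * (2 * E) :=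
      (hy_mono_right (qg_nonneg _ _) e3).trans (hy_add_right (by positivity))
    have e5 : hy ζ (n * D) ≤ n * hy ζ D := by
      rw [← hy_smul hn0.le]
      exact hy_mono_left hζ.le (by nlinarith)
    have e6 : ζ ≤ hy ζ D := left_le_hy
    unfold bb
    rw [← hD]
    have e7 : n * (2 * E) + 4 * E ≤ n * (ε * hy ζ D) := by
      have : 6 * E ≤ ε * hy ζ D := hsm.trans (mul_le_mul_of_nonneg_left e6 hε.le)
      have h' := mul_le_mul_of_nonneg_left this hn0.le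
      nlinarith
    have e8 : 0 ≤ n * (1 + ε) * (4 * E) := by positivity
    calc hy ζ (qg (ℓ (c' c cp x)) (ℓp (c' c cp x)) τ τp s t) + 4 * E
        ≤ n * hy ζ D + (n * (2 * E) + 4 * E) := by linarith
      _ ≤ n * hy ζ D + n * (ε * hy ζ D) := by linarith
      _ ≤ n * (1 + ε) * (hy ζ D + 4 * E) := by linarith
  unfold ρ'
  by_cases hk : keyP τp (s, x) = keyP τp (t, y)
  · rw [gl_same hk]
    have h2 : hd (c' c cp) (ℓ' Y ℓ ℓp) (τ' τ) (θ' c cp ℓ ℓp τp θ θp) (κ' τp κ κp ζ) x s y t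
        ≤ n * (1 + ε) * cost τp ρ ρp (s, x) (t, y) := by
      rcases x with a | b <;> rcases y with a' | b'
      · rw [hd'_sameA hpos (show c a = c a' from hxy) (show SameA τp s t from key_inl.mp hk)]
        simp only [cost]
        rw [← N2_smul ha]
        apply N2_mono; intro β
        rw [abs_of_nonneg (show 0 ≤ hd c ℓ τ θ κ a (own τp s β) a' (own τp t β) from hy_nonneg _ _)]
        exact G.up a a' _ _ (show c a = c a' from hxy)
      · exact absurd hk key_inl_inr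
      · exact absurd hk.symm key_inl_inr
      · rw [hd'_sameB hpos (show cp b = cp b' from hxy) (show s.2 = t.2 from key_inr.mp hk)]
        exact Gp.up b b' _ _ (show cp b = cp b' from hxy)
    rcases min_cases (cost τp ρ ρp (s, x) (t, y)) (bb (keyP τp) (cost τp ρ ρp)
        (fun p q : Pt Sp Bp Y S × (Λ ⊕ Λp) => dh ℓ ℓp τ τp p.1 q.1) E ζ (s, x) (t, y))
        with ⟨e, _⟩ | ⟨e, _⟩ <;> rw [e]
    · exact h2
    · exact h1
  · rw [gl_diff hk]; exact h1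

theorem step_low (G : IsG n (n * (1 + ε)) (1 + ε) c ℓ L R η τ σ ρ θ κ)
    (Gp : IsG n (n * (1 + ε)) (1 + ε) cp ℓp Lp Rp ηp τp σp ρp θp κp) (N : Num n ε ζ R Rp)
    (x y : Λ ⊕ Λp) (s t : Pt Sp Bp Y S) (hxy : c' c cp x = c' c cp y) :
    ρ' ℓ ℓp τ τp ρ ρp (R + Rp) ζ s x t y ≤ (1 + ε) *
    hd (c' c cp) (ℓ' Y ℓ ℓp) (τ' τ) (θ' c cp ℓ ℓp τp θ θp) (κ' τp κ κp ζ) x s y t := by
  have hR := G.R_nonneg
  have hRp := Gp.R_nonneg
  have hε := N.ε0
  have hζ := N.ζ0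
  have hsm := N.small
  have ha : 0 ≤ 1 + ε := by positivity
  have hpos : ∀ l, 0 < ℓ l + ℓp l := fun l => by
    have := G.L_pos.trans_le (G.L_le l)
    have := Gp.L_pos.trans_le (Gp.L_le l)
    linarith
  have H := gh G Gp
  unfold ρ'
  by_cases hk : keyP τp (s, x) = keyP τp (t, y)
  · refine (gl_le_cost hk).trans ?_
    rcases x with a | b <;> rcases y with a' | b'
    · rw [hd'_sameA hpos (show c a = c a' from hxy) (show SameA τp s t from key_inl.mp hk)]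
      simp only [cost]
      rw [← N2_smul ha]
      apply N2_mono; intro β
      rw [abs_of_nonneg (G.ρ_nonneg _ _ _ _)]
      exact G.low a a' _ _ (show c a = c a' from hxy)
    · exact absurd hk key_inl_inr
    · exact absurd hk.symm key_inl_inr
    · rw [hd'_sameB hpos (show cp b = cp b' from hxy) (show s.2 = t.2 from key_inr.mp hk)]
      exact Gp.low b b' _ _ (show cp b = cp b' from hxy)
  · rw [gl_diff hk]
    refine (bb_le H _ _).trans ?_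
    obtain ⟨h1, h2⟩ := hd'_ge (κ := κ) (κp := κp) G Gp hζ hxy s t hk
    have h3 := hy_mono_right (a := ζ) (dh_nonneg s t)
      (dh_le (ℓ := ℓ) (ℓp := ℓp) (τ := τ) (τp := τp) (c' c cp x) s t)
    have h4 : 6 * (R + Rp) ≤ ε * hd (c' c cp) (ℓ' Y ℓ ℓp) (τ' τ) (θ' c cp ℓ ℓp τp θ θp)
        (κ' τp κ κp ζ) x s y t := hsm.trans (mul_le_mul_of_nonneg_left h2 hε.le)
    simp only
    linarith

end step

end Pool.Agent.Lib.MP_caca3f_an.Sharp
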