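import Pool.Agent.Lib.MP_caca3f_an.Sharp.Step

/-! Assembly of the next gadget. -/

namespace Pool.Agent.Lib.MP_caca3f_an.Sharp

open Finset

set_option linter.unusedSectionVars false

section step

variable {Sp Bp Y Λp S B Y' Λ Cl K Kp : Type} [Fintype Sp] [Nonempty Sp] [Fintype Bp]
  [DecidableEq Bp]
  [Nonempty Bp] [Fintype Y] [DecidableEq Y] [AddGroup Y] [Fintype S] [Nonempty S] [Fintype B]
  [Nonempty B]
  [Fintype Y'] [DecidableEq Y'] [AddGroup Y'] [Finite Λ] [Finite Λp] [Nonempty Cl]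
  [NormedAddCommGroup K] [InnerProductSpace ℝ K] [NormedAddCommGroup Kp] [InnerProductSpace ℝ Kp]

variable {n a5 a6 ε ζ L R η Lp Rp ηp lam : ℝ} {c : Λ → Cl} {cp : Λp → Cl} {ℓ ℓp : Cl → ℝ}
  {τ : S → B → Y'} {σ : Y' → S ≃ S} {ρ : S → Λ → S → Λ → ℝ} {θ : Λ → S → B → ℝ} {κ : Λ → S → K}
  {τp : Sp → Bp → Y} {σp : Y → Sp ≃ Sp} {ρp : Sp → Λp → Sp → Λp → ℝ} {θp : Λp → Sp → Bp → ℝ}
  {κp : Λp → Sp → Kp}

theorem om_bounds (G : IsG n a5 a6 c ℓ L R η τ σ ρ θ κ)
    (Gp : IsG n a5 a6 cp ℓp Lp Rp ηp τp σp ρp θp κp) (x : Λ ⊕ Λp) (s : Pt Sp Bp Y S)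
    (i : Bp × Y × B) : 0 ≤ om c cp ℓ ℓp τp θ θp x s i ∧
      om c cp ℓ ℓp τp θ θp x s i ≤ ℓ (c' c cp x) + ℓp (c' c cp x) := by
  have hl : ∀ l, 0 < ℓ l := fun l => G.L_pos.trans_le (G.L_le l)
  have hlp : ∀ l, 0 < ℓp l := fun l => Gp.L_pos.trans_le (Gp.L_le l)
  rcases x with a | b
  · have h1 := hl (c a)
    have h2 := hlp (c a)
    simp only [om, c', Sum.elim_inl]
    split_ifs with h
    · have h3 := G.θ0 a (own τp s i.1) i.2.2
      have h4 := G.θ1 a (own τp s i.1) i.2.2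
      constructor
      · positivity
      · nlinarith
    · constructor <;> linarith
  · have h1 := hl (cp b)
    have h2 := hlp (cp b)
    simp only [om, c', Sum.elim_inr]
    split_ifs with h
    · have h3 := Gp.θ0 b s.1 i.1
      have h4 := Gp.θ1 b s.1 i.1
      have h5 : 0 ≤ ℓp (cp b) * θp b s.1 i.1 := by positivity
      constructor
      · nlinarith
      · linarith
    · constructor <;> linarith

theorem om_far (x : Λ ⊕ Λp) (s : Pt Sp Bp Y S) (i : Bp × Y × B) (h : i.2.1 ≠ τp s.1 i.1) :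
    om c cp ℓ ℓp τp θ θp x s i = ℓ (c' c cp x) + ℓp (c' c cp x) := by
  rcases x with a | b
  · simp only [om, c', Sum.elim_inl, if_neg h]
  · simp only [om, c', Sum.elim_inr, if_neg h]

/-- few labels are soft -/
theorem θ'_conc (G : IsG n a5 a6 c ℓ L R η τ σ ρ θ κ)
    (Gp : IsG n a5 a6 cp ℓp Lp Rp ηp τp σp ρp θp κp) (x : Λ ⊕ Λp) (s : Pt Sp Bp Y S) :
    √(Fintype.card Y : ℝ) * N2 (fun i => 1 - θ' c cp ℓ ℓp τp θ θp x s i) ≤ 1 := by
  have hYn : Nonempty Y := ⟨0⟩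
  have hB : (0:ℝ) < Fintype.card B := by exact_mod_cast Fintype.card_pos
  have hBp : (0:ℝ) < Fintype.card Bp := by exact_mod_cast Fintype.card_pos
  have hY : (0:ℝ) < Fintype.card Y := by exact_mod_cast Fintype.card_pos
  have hpos : ∀ l, 0 < ℓ l + ℓp l := fun l => by
    have := G.L_pos.trans_le (G.L_le l)
    have := Gp.L_pos.trans_le (Gp.L_le l)
    linarith
  have h1 : ∀ i : Bp × Y × B, (1 - θ' c cp ℓ ℓp τp θ θp x s i) ^ 2
      ≤ if i.2.1 = τp s.1 i.1 then 1 else 0 := by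
    intro i
    have hp := hpos (c' c cp x)
    obtain ⟨h2, h3⟩ := om_bounds G Gp x s i
    have h4 : 0 ≤ θ' c cp ℓ ℓp τp θ θp x s i := div_nonneg h2 hp.le
    have h5 : θ' c cp ℓ ℓp τp θ θp x s i ≤ 1 := (div_le_one hp).mpr h3
    split_ifs with h
    · nlinarith
    · have : θ' c cp ℓ ℓp τp θ θp x s i = 1 := by
        unfold θ'
        rw [om_far x s i h, div_self hp.ne']
      rw [this]; norm_num
  have h2 : ∑ i : Bp × Y × B, (1 - θ' c cp ℓ ℓp τp θ θp x s i) ^ 2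
      ≤ (Fintype.card Bp : ℝ) * (Fintype.card B : ℝ) := by
    refine (Finset.sum_le_sum fun i _ => h1 i).trans ?_
    rw [Fintype.sum_prod_type]
    have h3 : ∀ β : Bp, (∑ j : Y × B, if j.1 = τp s.1 β then (1:ℝ) else 0)
        = (Fintype.card B : ℝ) := by
      intro β
      rw [Fintype.sum_prod_type, Finset.sum_eq_single (τp s.1 β)]
      · simp
      · intro y _ hy
        simp [hy]
      · intro h; exact absurd (Finset.mem_univ _) h
    simp only [h3]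
    rw [Finset.sum_const, Finset.card_univ, nsmul_eq_mul]
  rw [← N2_smul (Real.sqrt_nonneg _)]
  apply N2_le_of_sq zero_le_one
  have h3 : ∀ i : Bp × Y × B, (√(Fintype.card Y : ℝ) * (1 - θ' c cp ℓ ℓp τp θ θp x s i)) ^ 2
      = (Fintype.card Y : ℝ) * (1 - θ' c cp ℓ ℓp τp θ θp x s i) ^ 2 := by
    intro i; rw [mul_pow, Real.sq_sqrt hY.le]
  simp only [h3]
  rw [av_mul_left]
  unfold av
  rw [Fintype.card_prod, Fintype.card_prod]
  push_cast
  rw [one_pow, mul_div_assoc', div_le_one (by positivity)]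
  calc (Fintype.card Y : ℝ) * ∑ i : Bp × Y × B, (1 - θ' c cp ℓ ℓp τp θ θp x s i) ^ 2
      ≤ (Fintype.card Y : ℝ) * ((Fintype.card Bp : ℝ) * (Fintype.card B : ℝ)) :=
        mul_le_mul_of_nonneg_left h2 hY.le
    _ = _ := by ring

theorem κ'_le {E : ℝ} (hζ : 0 ≤ ζ) (h1 : ∀ a s, ‖κ a s‖ ≤ E) (h2 : ∀ a s, ‖κp a s‖ ≤ E)
    (hE : 0 ≤ E) (x : Λ ⊕ Λp) (s : Pt Sp Bp Y S) : ‖κ' τp κ κp ζ x s‖ ≤ E + ζ := by
  have hBp : (0:ℝ) < Fintype.card Bp := by exact_mod_cast Fintype.card_pos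
  have h22 : √2 ^ 2 = (2:ℝ) := Real.sq_sqrt (by norm_num)
  have hb : (1 / √(Fintype.card Bp : ℝ)) ^ 2 = 1 / (Fintype.card Bp : ℝ) := by
    rw [div_pow, one_pow, Real.sq_sqrt hBp.le]
  apply le_of_sq_le_sq _ (by positivity)
  rcases x with a | b
  · unfold κ'
    simp only
    rw [kv_norm, norm_zero]
    have h3 : ∑ b : Bp, ‖(1 / √(Fintype.card Bp : ℝ)) • κ a (own τp s b)‖ ^ 2 ≤ E ^ 2 := by
      have h4 : ∀ b : Bp, ‖(1 / √(Fintype.card Bp : ℝ)) • κ a (own τp s b)‖ ^ 2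
          ≤ 1 / (Fintype.card Bp : ℝ) * E ^ 2 := by
        intro b
        rw [norm_smul, mul_pow, Real.norm_eq_abs, sq_abs, hb]
        apply mul_le_mul_of_nonneg_left _ (by positivity)
        exact pow_le_pow_left₀ (norm_nonneg _) (h1 _ _) 2
      refine (Finset.sum_le_sum fun b _ => h4 b).trans ?_
      rw [Finset.sum_const, Finset.card_univ, nsmul_eq_mul]
      apply le_of_eq
      field_simp
    have h5 : (ζ / √2) ^ 2 = ζ ^ 2 / 2 := by rw [div_pow, h22]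
    nlinarith
  · unfold κ'
    simp only
    rw [kv_norm]
    have h3 : ‖κp b s.1‖ ^ 2 ≤ E ^ 2 := pow_le_pow_left₀ (norm_nonneg _) (h2 _ _) 2
    have h5 : (ζ / √2) ^ 2 = ζ ^ 2 / 2 := by rw [div_pow, h22]
    simp only [Pi.zero_apply, norm_zero]
    simp
    nlinarith

theorem cost_pos (G : IsG n a5 a6 c ℓ L R η τ σ ρ θ κ)
    (Gp : IsG n a5 a6 cp ℓp Lp Rp ηp τp σp ρp θp κp) (p q : Pt Sp Bp Y S × (Λ ⊕ Λp))
    (hk : keyP τp p = keyP τp q) (h : cost τp ρ ρp p q = 0) : p = q := by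
  obtain ⟨s, x⟩ := p
  obtain ⟨t, y⟩ := q
  rcases x with a | b <;> rcases y with a' | b'
  · have hs : SameA τp s t := key_inl.mp hk
    simp only [cost] at h
    have h1 : ∀ β, own τp s β = own τp t β ∧ a = a' := fun β =>
      G.ρ_pos _ _ _ _ (N2_eq_zero h β)
    have h2 : a = a' := (h1 (Classical.arbitrary Bp)).2
    have h3 : s.2 = t.2 := by
      ext1 p
      by_cases hp : p.2 = τp s.1 p.1
      · have h4 := (h1 p.1).1
        unfold own at h4
        rw [← hs.1] at h4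
        have h5 : p = (p.1, τp s.1 p.1) := by rw [← hp]
        rw [h5]; exact h4
      · exact hs.2 p hp
    rw [h2]
    have : s = t := Prod.ext hs.1 h3
    rw [this]
  · exact absurd hk key_inl_inr
  · exact absurd hk.symm key_inl_inr
  · have hs : s.2 = t.2 := key_inr.mp hk
    simp only [cost] at h
    obtain ⟨h1, h2⟩ := Gp.ρ_pos _ _ _ _ h
    rw [h2]
    have : s = t := Prod.ext h1 hs
    rw [this]

theorem step_ph (G : IsG n a5 a6 c ℓ L R η τ σ ρ θ κ)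
    (Gp : IsG n a5 a6 cp ℓp Lp Rp ηp τp σp ρp θp κp) (hζ : 0 < ζ) :
    PH (ρ' (Λ := Λ) (Λp := Λp) ℓ ℓp τ τp ρ ρp (R + Rp) ζ) ρ τp σp ρp η ηp
      (ζ + 4 * (R + Rp)) := by
  have H := gh G Gp
  have hR := G.R_nonneg
  have hRp := Gp.R_nonneg
  refine ⟨Gp.flip, fun s l t m => gl_nonneg H _ _, ?_, ?_, ?_, G.η_pos.le, Gp.η_pos.le,
    by positivity, G.po, Gp.po⟩
  · intro s l m
    refine (gl_le H _ _).trans ?_
    simp only [dh_self]
    have : hy ζ 0 ≤ ζ := by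
      unfold hy
      rw [show ζ ^ 2 + 0 ^ 2 = ζ ^ 2 by ring, Real.sqrt_sq hζ.le]
    linarith
  · intro s t l m hs
    exact gl_le_cost (p := (s, Sum.inl l)) (q := (t, Sum.inl m)) (key_inl.mpr hs)
  · intro s t l m hs
    exact gl_le_cost (p := (s, Sum.inr l)) (q := (t, Sum.inr m)) (key_inr.mpr hs)

theorem step_gadget (G : IsG n (n * (1 + ε)) (1 + ε) c ℓ L R η τ σ ρ θ κ)
    (Gp : IsG n (n * (1 + ε)) (1 + ε) cp ℓp Lp Rp ηp τp σp ρp θp κp) (N : Num n ε ζ R Rp)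
    (hlam : ∀ l, lam ≤ ℓ l + ℓp l) (hatt : ∃ l, ℓ l + ℓp l = lam)
    (hle : ∀ l, ℓ l + ℓp l ≤ n * lam) {R' η' : ℝ}
    (hR1 : √2 * lam ^ 2 / L + 2 * (R + Rp) ≤ R') (hR2 : n * lam ≤ R')
    (hR3 : R + Rp + ζ ≤ R')
    (hη' : √(Fintype.card Y : ℝ) * (η + (ηp + 2 * (ζ + 4 * (R + Rp))))
      + √2 * (ηp + 2 * (ζ + 4 * (R + Rp))) + 2 * (ζ + 4 * (R + Rp)) ≤ η')
    (l0 : Λ) (l1 : Λp) :
    IsG n (n * (1 + ε)) (1 + ε) (c' c cp) (ℓ' Y ℓ ℓp) (√(Fintype.card Y : ℝ) * lam) R' η'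
      (τ' τ) (σ' σ) (ρ' ℓ ℓp τ τp ρ ρp (R + Rp) ζ) (θ' c cp ℓ ℓp τp θ θp)
      (κ' τp κ κp ζ) := by
  have hYn : Nonempty Y := ⟨0⟩
  have hY : (0:ℝ) < Fintype.card Y := by exact_mod_cast Fintype.card_pos
  have hsY : 0 < √(Fintype.card Y : ℝ) := Real.sqrt_pos.mpr hY
  have hR := G.R_nonneg
  have hRp := Gp.R_nonneg
  have hn := N.hn
  have hζ := N.ζ0
  have hL := G.L_pos
  have hLp := Gp.L_pos
  have H := gh G Gp
  have hlam0 : 0 < lam := by
    obtain ⟨l, hl⟩ := hatt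
    have := G.L_le l
    have := Gp.L_le l
    linarith
  have hpos : ∀ l, 0 < ℓ l + ℓp l := fun l => hlam0.trans_le (hlam l)
  refine
    { flip := τ'_flip G.flip
      ρ_nonneg := fun s l t m => gl_nonneg H _ _
      ρ_self := fun s l => gl_self H _
      ρ_symm := fun s l t m => gl_symm H _ _
      ρ_tri := fun s l t m u p => gl_tri H _ _ _
      ρ_pos := fun s l t m h => by
        have := gl_pos H hζ (cost_pos G Gp) _ _ h
        simpa using this
      η_pos := ?_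
      L_pos := by positivity
      R_nonneg := by nlinarith
      L_le := fun l => mul_le_mul_of_nonneg_left (hlam l) hsY.le
      le_nL := fun l => by
        unfold ℓ'
        have := mul_le_mul_of_nonneg_left (hle l) hsY.le
        linarith
      L_att := by
        obtain ⟨l, hl⟩ := hatt
        exact ⟨l, by unfold ℓ'; rw [hl]⟩
      θ0 := fun x s i => div_nonneg (om_bounds G Gp x s i).1 (hpos _).le
      θ1 := fun x s i => (div_le_one (hpos _)).mpr (om_bounds G Gp x s i).2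
      θc := ?_
      κc := fun x s => (κ'_le hζ.le (fun a s => (G.κc a s).trans (by linarith))
        (fun a s => (Gp.κc a s).trans (by linarith)) (by linarith) x s).trans hR3
      lab := ?_
      up := fun x y s t hxy => step_up G Gp N x y s t hxy
      low := fun x y s t hxy => step_low G Gp N x y s t hxy
      po := step_g7 (step_ph G Gp hζ) l0 l1 η' hη' }
  · have h1 := G.η_pos
    have h2 := Gp.η_pos
    have h3 : 0 ≤ √(Fintype.card Y : ℝ) * (η + (ηp + 2 * (ζ + 4 * (R + Rp)))) := by positivity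
    have h4 : 0 ≤ √2 * (ηp + 2 * (ζ + 4 * (R + Rp))) := by positivity
    nlinarith
  · intro x s
    unfold ℓ'
    have h1 := θ'_conc G Gp x s
    have h2 := N2_nonneg (fun i => 1 - θ' c cp ℓ ℓp τp θ θp x s i)
    calc √(Fintype.card Y : ℝ) * (ℓ (c' c cp x) + ℓp (c' c cp x))
          * N2 (fun i => 1 - θ' c cp ℓ ℓp τp θ θp x s i)
        = (ℓ (c' c cp x) + ℓp (c' c cp x)) * (√(Fintype.card Y : ℝ)
          * N2 (fun i => 1 - θ' c cp ℓ ℓp τp θ θp x s i)) := by ring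
      _ ≤ (ℓ (c' c cp x) + ℓp (c' c cp x)) * 1 := mul_le_mul_of_nonneg_left h1 (hpos _).le
      _ ≤ R' := by rw [mul_one]; exact (hle _).trans hR2
  · intro s x t y
    have h1 := fr_le_dh (τ := τ) (τp := τp) hL hlam0 G.L_le (fun l => hLp.le.trans (Gp.L_le l))
      hlam s t
    have h2 := dd_le_gl (ζ := ζ) H (s, x) (t, y)
    unfold ρ'
    simp only at h2
    linarith

end step

end Pool.Agent.Lib.MP_caca3f_an.Sharp
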