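import Pool.Agent.Lib.MP_caca3f_an.Sharp.Iter
import Pool.Agent.Lib.MP_caca3f_an.Compact

/-! Use of a gadget: the classes embed well, the whole space does not. -/

namespace Pool.Agent.Lib.MP_caca3f_an.Sharp

open Finset

set_option linter.unusedSectionVars false

universe u v

/-- moving a Hilbert space valued map to another universe -/
theorem transfer {X : Type u} {H : Type v} [NormedAddCommGroup H] [InnerProductSpace ℝ H]
    (f : X → H) :
    ∃ (K : Type u) (_ : NormedAddCommGroup K) (_ : InnerProductSpace ℝ K) (_ : CompleteSpace K)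
      (F : X → K), ∀ x y, ‖F x - F y‖ = ‖f x - f y‖ := by
  obtain ⟨K, i1, i2, i3, F, hF⟩ := kernel_embed (fun x y => inner ℝ (f x) (f y))
    (fun x y => real_inner_comm _ _) (by
      intro w
      rw [quad_eq]
      have h2 : ∑ x ∈ w.support, ∑ y ∈ w.support, inner ℝ (f x) (f y) * w x * w y
          = inner ℝ (∑ x ∈ w.support, w x • f x) (∑ x ∈ w.support, w x • f x) := by
        rw [sum_inner]
        apply Finset.sum_congr rfl; intro x _
        rw [inner_sum]
        apply Finset.sum_congr rfl; intro y _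
        rw [real_inner_smul_left, real_inner_smul_right]
        ring
      rw [h2]
      exact real_inner_self_nonneg)
  refine ⟨K, i1, i2, i3, F, fun x y => ?_⟩
  have h1 : ‖F x - F y‖ ^ 2 = ‖f x - f y‖ ^ 2 := by
    rw [@norm_sub_sq_real, @norm_sub_sq_real, ← real_inner_self_eq_norm_sq,
      ← real_inner_self_eq_norm_sq, ← real_inner_self_eq_norm_sq (f x),
      ← real_inner_self_eq_norm_sq (f y), hF, hF, hF]
  exact (pow_left_inj₀ (norm_nonneg _) (norm_nonneg _) two_ne_zero).mp h1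

section use

variable {S B Y Λ Cl K : Type} [Fintype S] [Nonempty S] [Fintype B] [Nonempty B]
  [Fintype Y] [DecidableEq Y] [AddGroup Y]
  [NormedAddCommGroup K] [InnerProductSpace ℝ K]

variable {n a5 a6 : ℝ} {c : Λ → Cl} {ℓ : Cl → ℝ} {τ : S → B → Y} {σ : Y → S ≃ S}
  {ρ : S → Λ → S → Λ → ℝ} {θ : Λ → S → B → ℝ} {κ : Λ → S → K} {L R η : ℝ}

/-- realisation of the distances `hd` in a Hilbert space -/
noncomputable def hvec (c : Λ → Cl) (ℓ : Cl → ℝ) (τ : S → B → Y) (θ : Λ → S → B → ℝ)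
    (κ : Λ → S → K) (a : Λ) (s : S) : WithLp 2 (EuclideanSpace ℝ (B × Y) × K) :=
  WithLp.toLp 2 (WithLp.toLp 2 (fun p => √(1 / (Fintype.card B : ℝ))
    * lv (fun i => ℓ (c a) / √2 * θ a s i) (τ s) p), κ a s)

theorem hvec_dist (a b : Λ) (s t : S) :
    ‖hvec c ℓ τ θ κ a s - hvec c ℓ τ θ κ b t‖ = hd c ℓ τ θ κ a s b t := by
  have hw : 0 ≤ 1 / (Fintype.card B : ℝ) := by positivity
  rw [← pow_left_inj₀ (norm_nonneg _) (by unfold hd; exact hy_nonneg _ _) two_ne_zero]
  unfold hvec hd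
  rw [hy_sq, WithLp.prod_norm_sq_eq_of_L2]
  congr 1
  unfold ld
  rw [nw_sq hw, EuclideanSpace.norm_sq_eq, Finset.mul_sum]
  apply Finset.sum_congr rfl; intro p _
  simp only [WithLp.sub_fst, PiLp.sub_apply, Real.norm_eq_abs, sq_abs]
  change (√(1 / (Fintype.card B : ℝ)) * lv (fun i => ℓ (c a) / √2 * θ a s i) (τ s) p
    - √(1 / (Fintype.card B : ℝ)) * lv (fun i => ℓ (c b) / √2 * θ b t i) (τ t) p) ^ 2 = _
  rw [← mul_sub, mul_pow, Real.sq_sqrt hw]

/-- the metric space of a gadget -/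
@[reducible]
noncomputable def gMetric (G : IsG n a5 a6 c ℓ L R η τ σ ρ θ κ) : MetricSpace (S × Λ) where
  dist p q := ρ p.1 p.2 q.1 q.2
  dist_self p := G.ρ_self _ _
  dist_comm p q := G.ρ_symm _ _ _ _
  dist_triangle p q w := G.ρ_tri _ _ _ _ _ _
  eq_of_dist_eq_zero := by
    intro p q h
    have := G.ρ_pos _ _ _ _ h
    exact Prod.ext this.1 this.2

theorem av_fr (G : IsG n a5 a6 c ℓ L R η τ σ ρ θ κ) (s : S) :
    av (fun t => fr (τ s) (τ t) ^ 2) = 1 - 1 / (Fintype.card Y : ℝ) := by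
  have hY : (0:ℝ) < Fintype.card Y := by
    have : Nonempty Y := ⟨0⟩
    exact_mod_cast Fintype.card_pos
  simp only [fr_sq]
  rw [av_comm]
  have h1 : ∀ b, av (fun t => (if τ s b = τ t b then (0:ℝ) else 1))
      = 1 - 1 / (Fintype.card Y : ℝ) := by
    intro b
    have e0 : av (fun t => (if τ s b = τ t b then (0:ℝ) else 1))
        = 1 - av (fun t => if τ s b = τ t b then (1:ℝ) else 0) := by
      rw [← av_const (α := S) (1:ℝ), ← av_sub]
      congr 1; ext t
      rw [av_const]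
      split_ifs <;> norm_num
    have e1 : ∀ v : Y, av (fun t => if τ s b = v + τ t b then (1:ℝ) else 0)
        = av (fun t => if τ s b = τ t b then (1:ℝ) else 0) := by
      intro v
      rw [← av_comp_equiv (σ v) (fun t => if τ s b = τ t b then (1:ℝ) else 0)]
      congr 1; ext t
      rw [G.flip]
    have e2 : av (fun t : S => ∑ v : Y, if τ s b = v + τ t b then (1:ℝ) else 0) = 1 := by
      have : ∀ t : S, (∑ v : Y, if τ s b = v + τ t b then (1:ℝ) else 0) = 1 := by
        intro t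
        rw [Finset.sum_eq_single (τ s b - τ t b)]
        · rw [if_pos]; rw [sub_add_cancel]
        · intro v _ hv
          rw [if_neg]
          intro hc
          exact hv (by rw [hc, add_sub_cancel_right])
        · intro h; exact absurd (Finset.mem_univ _) h
      simp only [this]
      exact av_const _
    rw [av_sum] at e2
    simp only [e1, Finset.sum_const, Finset.card_univ, nsmul_eq_mul] at e2
    rw [e0]
    congr 1
    rw [eq_div_iff hY.ne', mul_comm]
    exact e2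
  simp only [h1]
  exact av_const _

/-- a map which is Lipschitz for the gadget metric and expands it has large distortion -/
theorem gadget_lower (G : IsG n a5 a6 c ℓ L R η τ σ ρ θ κ) (ϑ : ℝ) (hϑ : 0 < ϑ)
    (hroom : R ≤ ϑ * η) (hY : 1 / (1 + ϑ) ≤ √(1 - 1 / (Fintype.card Y : ℝ))) (l : Λ)
    (K' : Type) [NormedAddCommGroup K'] [InnerProductSpace ℝ K'] (F : S → Λ → K') (s0 D : ℝ)
    (hs0 : 0 < s0) (hD : 0 ≤ D)
    (h1 : ∀ s l t m, s0 * ρ s l t m ≤ ‖F s l - F t m‖)
    (h2 : ∀ s l t m, ‖F s l - F t m‖ ≤ s0 * D * ρ s l t m) : L / η / (1 + ϑ) - ϑ ≤ D := by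
  have hη := G.η_pos
  have hR := G.R_nonneg
  have hL0 : 0 ≤ L := G.L_pos.le
  -- upper bound for the average
  have h3 := G.po Unit (fun _ => (s0 * D) ^ 2) (fun _ => sq_nonneg _) K' (fun s l => F (s ()) l)
    (by
      intro s l t m
      have := pow_le_pow_left₀ (norm_nonneg _) (h2 (s ()) l (t ()) m) 2
      simp only [Finset.univ_unique, PUnit.default_eq_unit, Finset.sum_singleton]
      rw [← mul_pow]
      exact this) l
  simp only [Finset.univ_unique, PUnit.default_eq_unit, Finset.sum_singleton] at h3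
  have h4 : N2 (fun p : S × S => ‖F p.1 l - F p.2 l‖) ≤ η * (s0 * D) := by
    apply N2_le_of_sq (by positivity)
    rw [mul_pow, av_prod]
    refine le_trans (le_of_eq ?_) h3
    rw [← av_eval () (fun s : S => av fun t : S => ‖F s l - F t l‖ ^ 2)]
    congr 1; ext s
    rw [← av_eval () (fun t : S => ‖F (s ()) l - F t l‖ ^ 2)]
  -- lower bound
  have h5 : N2 (fun p : S × S => L * fr (τ p.1) (τ p.2)) = L * √(1 - 1 / (Fintype.card Y : ℝ)) := by
    rw [N2_smul hL0, N2_eq, av_prod]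
    simp only [av_fr G, av_const]
  have h6 : N2 (fun p : S × S => s0 * (L * fr (τ p.1) (τ p.2)))
      ≤ N2 (fun p : S × S => ‖F p.1 l - F p.2 l‖) + N2 (fun _ : S × S => s0 * R) := by
    apply N2_tri
    rintro ⟨s, t⟩
    simp only
    rw [abs_of_nonneg (mul_nonneg hs0.le (mul_nonneg hL0 (fr_nonneg _ _)))]
    have e1 := G.lab s l t l
    have e3 := h1 s l t l
    have e4 := mul_le_mul_of_nonneg_left e1 hs0.le
    linarith
  rw [N2_smul hs0.le, h5, N2_const (by positivity)] at h6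
  have h7 : s0 * (L * (1 / (1 + ϑ))) ≤ s0 * (L * √(1 - 1 / (Fintype.card Y : ℝ))) :=
    mul_le_mul_of_nonneg_left (mul_le_mul_of_nonneg_left hY hL0) hs0.le
  have h8 : s0 * (L * (1 / (1 + ϑ))) ≤ s0 * (η * D + R) := by
    have : s0 * (η * D + R) = η * (s0 * D) + s0 * R := by ring
    rw [this]
    linarith
  have h9 := le_of_mul_le_mul_left h8 hs0
  have h10 : η * (L / η / (1 + ϑ) - ϑ) ≤ η * D := by
    have : η * (L / η / (1 + ϑ)) = L * (1 / (1 + ϑ)) := by field_simp
    rw [mul_sub, this]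
    linarith
  exact le_of_mul_le_mul_left h10 hη

end use

theorem exists_Y (ϑ : ℝ) (hϑ : 0 < ϑ) :
    ∃ m : ℕ, 1 / (1 + ϑ) ≤ √(1 - 1 / ((m + 1 : ℕ) : ℝ)) := by
  obtain ⟨m, hm⟩ := exists_nat_ge (1 / (1 - (1 / (1 + ϑ)) ^ 2))
  refine ⟨m, ?_⟩
  have h1 : 1 / (1 + ϑ) < 1 := by rw [div_lt_one (by linarith)]; linarith
  have h0 : 0 < 1 / (1 + ϑ) := by positivity
  have h2 : 0 < 1 - (1 / (1 + ϑ)) ^ 2 := by nlinarith
  apply Real.le_sqrt_of_sq_le
  rw [div_le_iff₀ h2] at hm
  have h3 : 1 / ((m + 1 : ℕ) : ℝ) ≤ 1 - (1 / (1 + ϑ)) ^ 2 := by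
    rw [div_le_iff₀ (by positivity)]
    push_cast
    nlinarith
  linarith

/-- a space which is a union of `k` sets of distortion at most `D`, but which has large
distortion -/
theorem sharp_space (n D : ℝ) (hn : 1 ≤ n) (hnD : n < D) (k : ℕ) (hk : 1 ≤ k) (ϑ : ℝ)
    (hϑ : 0 < ϑ) :
    ∃ (X : Type) (_ : MetricSpace X) (A : Fin k → Set X), (∀ x, ∃ i, x ∈ A i) ∧
      (∀ i, ∃ (H : Type) (_ : NormedAddCommGroup H) (_ : InnerProductSpace ℝ H) (f : X → H)
        (s0 : ℝ), 0 < s0 ∧ ∀ x ∈ A i, ∀ y ∈ A i,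
          s0 * dist x y ≤ ‖f x - f y‖ ∧ ‖f x - f y‖ ≤ s0 * D * dist x y) ∧
      ∀ (K : Type) [NormedAddCommGroup K] [InnerProductSpace ℝ K] (f : X → K) (s0 D' : ℝ),
        0 < s0 → 0 ≤ D' → (∀ x y, s0 * dist x y ≤ ‖f x - f y‖) →
        (∀ x y, ‖f x - f y‖ ≤ s0 * D' * dist x y) →
        gg n k / (1 + ϑ) / (1 + ϑ) - ϑ ≤ D' := by
  have hn0 : 0 < n := by linarith
  obtain ⟨m, hm⟩ := exists_Y ϑ hϑ
  -- choose `ε` with `n (1+ε)² ≤ D`
  obtain ⟨ε, hε, hεD⟩ : ∃ ε : ℝ, 0 < ε ∧ n * (1 + ε) * (1 + ε) ≤ D := by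
    set ε := min 1 ((D - n) / (3 * n)) with hε
    have h1 : 0 < ε := lt_min one_pos (by apply div_pos <;> linarith)
    have h2 : ε ≤ 1 := min_le_left _ _
    have h3 : ε ≤ (D - n) / (3 * n) := min_le_right _ _
    rw [le_div_iff₀ (by positivity)] at h3
    refine ⟨ε, h1, ?_⟩
    have h4 : n * (ε * ε) ≤ n * ε := by
      apply mul_le_mul_of_nonneg_left _ hn0.le
      nlinarith
    nlinarith
  obtain ⟨S, B, Λ, K, _, _, _, _, _, _, _, _, _, _, _, c, τ, σ, ρ, θ, κ, R, hP, hR, G⟩ :=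
    good_univ hn k hk (1 + ϑ) (by linarith) (ZMod (m + 1)) ε ϑ 1 hε hϑ one_pos
  have hη : (0:ℝ) < 1 + ϑ := by linarith
  let _ : MetricSpace (S × Λ) := gMetric G
  have hdist : ∀ p q : S × Λ, dist p q = ρ p.1 p.2 q.1 q.2 := fun p q => rfl
  refine ⟨S × Λ, inferInstance, fun i => {x | c x.2 = i}, fun x => ⟨c x.2, rfl⟩, ?_, ?_⟩
  · intro i
    refine ⟨_, inferInstance, inferInstance, fun x => hvec c (fun _ => 1 * gg n k) τ θ κ x.2 x.1,
      1 / (1 + ε), by positivity, ?_⟩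
    intro x hx y hy
    have hxy : c x.2 = c y.2 := hx.trans hy.symm
    rw [hvec_dist, hdist]
    have h5 := G.up x.2 y.2 x.1 y.1 hxy
    have h6 := G.low x.2 y.2 x.1 y.1 hxy
    constructor
    · rw [one_div_mul_eq_div, div_le_iff₀ (by linarith)]
      linarith
    · refine h5.trans ?_
      apply mul_le_mul_of_nonneg_right _ (G.ρ_nonneg _ _ _ _)
      rw [one_div_mul_eq_div, le_div_iff₀ (by linarith)]
      exact hεD
  · intro K' _ _ f s0 D' hs0 hD' h1 h2
    have h3 := gadget_lower G ϑ hϑ (by nlinarith) (by rw [ZMod.card]; exact hm)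
      (Classical.arbitrary Λ) K' (fun s l => f (s, l)) s0 D' hs0 hD'
      (fun s l t m => h1 (s, l) (t, m)) (fun s l t m => h2 (s, l) (t, m))
    rw [one_mul, one_mul] at h3
    exact h3

end Pool.Agent.Lib.MP_caca3f_an.Sharp
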